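import Pool.Agent.Lib.MP_6b2d39_agHl.Defs

set_option autoImplicit false

namespace Pool.Agent.Lib.MP_6b2d39_agHl

/-- HL3. -/
theorem kk_le (s n : ℕ) (r : ℕ → ℕ) (c : ℕ) : kk s n r c ≤ n := by
  have h := Finset.card_filter_le (Finset.range n) fun i => s * i ≤ c ∧ c < s * i + r i
  rwa [Finset.card_range] at h

theorem lt_of_kk {s n : ℕ} {r : ℕ → ℕ} {c b : ℕ} (h : b < kk s n r c) :
    c < s * n + ∑ i ∈ Finset.range n, r i := by
  have h0 : 0 < kk s n r c := by omega
  obtain ⟨i, hi⟩ := Finset.card_pos.1 h0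
  rw [Finset.mem_filter, Finset.mem_range] at hi
  have h1 : s * i ≤ s * n := Nat.mul_le_mul_left s hi.1.le
  have h2 : r i ≤ ∑ i ∈ Finset.range n, r i :=
    Finset.single_le_sum (f := r) (fun _ _ => Nat.zero_le _) (Finset.mem_range.2 hi.1)
  omega

theorem stp_zero {s n : ℕ} {r : ℕ → ℕ} {b : ℕ} (hb : n ≤ b) : stp s n r b = 0 := by
  unfold stp
  rw [Finset.card_eq_zero, Finset.filter_eq_empty_iff]
  intro c _ h
  have := kk_le s n r c
  omega

/-- double counting: both sides are the number of pairs `(i, c)` with `i < n`,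
`s i ≤ c < s i + r i` -/
theorem stp_sum (s n : ℕ) (r : ℕ → ℕ) :
    ∑ b ∈ Finset.range n, stp s n r b = ∑ i ∈ Finset.range n, r i := by
  obtain ⟨M, hM⟩ : ∃ M, M = s * n + ∑ i ∈ Finset.range n, r i := ⟨_, rfl⟩
  have h1 : ∀ b, stp s n r b = ∑ c ∈ Finset.range M, if b < kk s n r c then 1 else 0 := by
    intro b
    unfold stp
    rw [Finset.card_filter, hM]
  have h2 : ∀ c, kk s n r c = ∑ i ∈ Finset.range n, if s * i ≤ c ∧ c < s * i + r i then 1 else 0 := by
    intro c
    unfold kk
    rw [Finset.card_filter]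
  have h3 : ∀ c, (∑ b ∈ Finset.range n, if b < kk s n r c then 1 else 0) = kk s n r c := by
    intro c
    rw [← Finset.card_filter]
    have h4 : (Finset.range n).filter (fun b => b < kk s n r c) = Finset.range (kk s n r c) := by
      ext b
      rw [Finset.mem_filter, Finset.mem_range, Finset.mem_range]
      have := kk_le s n r c
      omega
    rw [h4, Finset.card_range]
  rw [Finset.sum_congr rfl fun b _ => h1 b, Finset.sum_comm, Finset.sum_congr rfl fun c _ => h3 c,
    Finset.sum_congr rfl fun c _ => h2 c, Finset.sum_comm]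
  refine Finset.sum_congr rfl fun i hi => ?_
  rw [Finset.mem_range] at hi
  rw [← Finset.card_filter]
  have h5 : s * i ≤ s * n := Nat.mul_le_mul_left s hi.le
  have h6 : r i ≤ ∑ i ∈ Finset.range n, r i :=
    Finset.single_le_sum (f := r) (fun _ _ => Nat.zero_le _) (Finset.mem_range.2 hi)
  have h7 : (Finset.range M).filter (fun c => s * i ≤ c ∧ c < s * i + r i) =
      Finset.Ico (s * i) (s * i + r i) := by
    ext c
    rw [Finset.mem_filter, Finset.mem_range, Finset.mem_Ico]
    omega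
  rw [h7, Nat.card_Ico]
  omega

theorem Red.sum {n : ℕ} {r r' : ℕ → ℕ} (h : Red n r r') :
    ∑ b ∈ Finset.range n, r' b = ∑ i ∈ Finset.range n, r i := by
  unfold Red at h
  induction h with
  | refl => rfl
  | tail _ h1 ih =>
    obtain ⟨s, _, rfl⟩ := h1
    rw [stp_sum, ih]

theorem Red.zero {n : ℕ} {r r' : ℕ → ℕ} (h : Red n r r') (h0 : ∀ b, n ≤ b → r b = 0) {b : ℕ}
    (hb : n ≤ b) : r' b = 0 := by
  unfold Red at h
  induction h with
  | refl => exact h0 b hb
  | tail _ h1 _ =>
    obtain ⟨s, _, rfl⟩ := h1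
    exact stp_zero hb

end Pool.Agent.Lib.MP_6b2d39_agHl
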