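import Pool.Agent.Lib.MP_6b2d39_agHl.Defs

set_option autoImplicit false

namespace Pool.Agent.Lib.MP_6b2d39_agHl

variable {s P T : ℝ}

/-- HL7. -/
theorem ff_of_nonpos (hP : 0 < P) (hT : T ≤ 0) : ff s P T = 0 := by
  unfold ff
  have h : ⌈T / P⌉₊ = 0 := Nat.ceil_eq_zero.2 (div_nonpos_of_nonpos_of_nonneg hT hP.le)
  rw [h, Finset.sum_range_zero]

/-- the recursion (shift of the index; `⌈(T + P) / P⌉₊ = ⌈T / P⌉₊ + 1`) -/
theorem ff_add (hP : 0 < P) (hT : 0 < T + P) : ff s P (T + P) = min (T + P) s + ff s P T := by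
  have h : ⌈(T + P) / P⌉₊ = ⌈T / P⌉₊ + 1 := by
    have e : (T + P) / P = T / P + 1 := by
      rw [add_div, div_self hP.ne']
    rw [e]
    by_cases h0 : 0 ≤ T / P
    · exact Nat.ceil_add_one h0
    · have h1 : ⌈T / P⌉₊ = 0 := Nat.ceil_eq_zero.2 (not_le.1 h0).le
      have h2 : ⌈T / P + 1⌉₊ = 1 := by
        rw [Nat.ceil_eq_iff one_ne_zero]
        refine ⟨?_, ?_⟩
        · rw [← e]
          simp only [Nat.sub_self, Nat.cast_zero]
          exact div_pos hT hP
        · rw [Nat.cast_one]
          linarith [not_le.1 h0]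
      rw [h1, h2]
  unfold ff
  rw [h, Finset.sum_range_succ', Nat.cast_zero, mul_zero, sub_zero, add_comm]
  refine congrArg₂ _ rfl (Finset.sum_congr rfl fun l _ => ?_)
  have e : T + P - P * ((l + 1 : ℕ) : ℝ) = T - P * (l : ℝ) := by
    push_cast
    ring
  rw [e]

/-- (c1) induction on `⌈T / P⌉₊` with `ff_add`; for `0 < T ≤ P` the value is `min T s` -/
theorem ff_le (hP : 0 < P) (hPs : P ≤ s) : ff s P T ≤ s / P * max T 0 := by
  have key : ∀ n : ℕ, ∀ T : ℝ, T ≤ P * n → ff s P T ≤ s / P * max T 0 := by
    intro n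
    induction n with
    | zero =>
      intro T hT
      rw [Nat.cast_zero, mul_zero] at hT
      rw [ff_of_nonpos hP hT, max_eq_right hT, mul_zero]
    | succ n ih =>
      intro T hT
      push_cast at hT
      rcases le_or_gt T 0 with h0 | h0
      · rw [ff_of_nonpos hP h0, max_eq_right h0, mul_zero]
      · have h1 := ff_add (s := s) (T := T - P) hP (by linarith)
        rw [sub_add_cancel] at h1
        rw [h1, max_eq_left h0.le]
        rcases le_or_gt (T - P) 0 with h2 | h2
        · rw [ff_of_nonpos hP h2, add_zero]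
          have h3 : 1 ≤ s / P := (one_le_div hP).2 hPs
          calc min T s ≤ T := min_le_left _ _
            _ = 1 * T := (one_mul T).symm
            _ ≤ s / P * T := mul_le_mul_of_nonneg_right h3 h0.le
        · have h3 := ih (T - P) (by linarith)
          rw [max_eq_left h2.le] at h3
          have h4 : s / P * (T - P) = s / P * T - s := by
            field_simp
          have h5 := min_le_right T s
          linarith
  exact key ⌈T / P⌉₊ T (by
    have h := Nat.le_ceil (T / P)
    rw [div_le_iff₀ hP] at h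
    linarith)

private theorem ff_ge_sum (hP : 0 < P) (hs : 0 < s) (j : ℕ) :
    ∑ l ∈ Finset.range j, min (T - P * l) s ≤ ff s P T := by
  unfold ff
  rcases le_total j ⌈T / P⌉₊ with h | h
  · refine Finset.sum_le_sum_of_subset_of_nonneg
      (Finset.range_subset_range.2 h) fun l hl _ => ?_
    rw [Finset.mem_range, Nat.lt_ceil, lt_div_iff₀ hP] at hl
    exact le_min (by linarith) hs.le
  · rw [← Finset.sum_range_add_sum_Ico _ h]
    have h1 : ∑ l ∈ Finset.Ico ⌈T / P⌉₊ j, min (T - P * (l : ℝ)) s ≤ 0 := by
      refine Finset.sum_nonpos fun l hl => ?_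
      have h2 : T / P ≤ l := Nat.ceil_le.1 (Finset.mem_Ico.1 hl).1
      rw [div_le_iff₀ hP] at h2
      exact (min_le_left _ _).trans (by linarith)
    linarith

/-- (c2) -/
theorem le_ff (hP : 0 < P) (hPs : P ≤ s) : s / P * (T - (s - P)) ≤ ff s P T := by
  have hs : 0 < s := lt_of_lt_of_le hP hPs
  have hsP : 0 < s / P := div_pos hs hP
  have small : ∀ T : ℝ, T ≤ s → s / P * (T - (s - P)) ≤ ff s P T := by
    intro T hT
    refine le_trans ?_ (ff_ge_sum hP hs ⌊s / P⌋₊)
    set m : ℕ := ⌊s / P⌋₊ with hm
    have h1 : (1 : ℕ) ≤ m := Nat.le_floor (by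
      rw [Nat.cast_one]
      exact (one_le_div hP).2 hPs)
    have h1' : (1 : ℝ) ≤ m := by exact_mod_cast h1
    have h2 : (m : ℝ) * P ≤ s := by
      have h3 := Nat.floor_le hsP.le
      rw [le_div_iff₀ hP] at h3
      exact h3
    have h3 : ∀ k : ℕ, ∑ l ∈ Finset.range k, min (T - P * l) s =
        k * T - P * (k * (k - 1) / 2) := by
      intro k
      induction k with
      | zero => simp
      | succ k ih =>
        have h4 : min (T - P * k) s = T - P * k := by
          refine min_eq_left ?_
          have : 0 ≤ P * (k : ℝ) := by positivity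
          linarith
        rw [Finset.sum_range_succ, ih, h4]
        push_cast
        ring
    rw [h3, div_mul_eq_mul_div, div_le_iff₀ hP]
    have h4 : 0 ≤ (s - m * P) * (s - T) := mul_nonneg (by linarith) (by linarith)
    have h5 : 0 ≤ P * (((m : ℝ) - 1) * (s - m * P / 2)) := by
      have h6 : 0 ≤ (m : ℝ) * P := by positivity
      exact mul_nonneg hP.le (mul_nonneg (by linarith) (by linarith))
    nlinarith
  have key : ∀ n : ℕ, ∀ T : ℝ, T ≤ P * n → s / P * (T - (s - P)) ≤ ff s P T := by
    intro n
    induction n with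
    | zero =>
      intro T hT
      rw [Nat.cast_zero, mul_zero] at hT
      exact small T (by linarith)
    | succ n ih =>
      intro T hT
      push_cast at hT
      rcases le_or_gt T s with h0 | h0
      · exact small T h0
      · have h1 := ff_add (s := s) (T := T - P) hP (by linarith)
        rw [sub_add_cancel] at h1
        rw [h1, min_eq_right h0.le]
        have h3 := ih (T - P) (by linarith)
        have h4 : s / P * (T - P - (s - P)) = s / P * (T - (s - P)) - s := by
          field_simp
          ring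
        linarith
  exact key ⌈T / P⌉₊ T (by
    have h := Nat.le_ceil (T / P)
    rw [div_le_iff₀ hP] at h
    linarith)

end Pool.Agent.Lib.MP_6b2d39_agHl
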