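import Pool.Agent.Lib.MP_6b2d39_agHl.Defs

set_option autoImplicit false

namespace Pool.Agent.Lib.MP_6b2d39_agHl

private theorem blocks_card {s b : ℕ} (hs : 1 ≤ s) {P T : ℝ} (hP : 0 < P) (A : Finset ℕ)
    (h : ∀ c ∈ A, ∃ l : ℕ, c / s = b + l ∧ (c : ℝ) + 1 ≤ s * (b + l) + (T - P * l)) :
    (A.card : ℝ) ≤ ff s P T := by
  classical
  have hlow : ∀ c l : ℕ, c / s = b + l → s * (b + l) ≤ c := by
    intro c l hc
    rw [← hc]
    exact Nat.mul_div_le c s
  have hcov : ∀ c ∈ A, c / s - b ∈ Finset.range ⌈T / P⌉₊ := by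
    intro c hc
    obtain ⟨l, hl, hle⟩ := h c hc
    have e : c / s - b = l := by omega
    rw [e, Finset.mem_range, Nat.lt_ceil, lt_div_iff₀ hP]
    have h1 : ((s * (b + l) : ℕ) : ℝ) ≤ c := by exact_mod_cast hlow c l hl
    push_cast at h1
    linarith
  have hcard := Finset.card_eq_sum_card_fiberwise hcov
  have hcard' : (A.card : ℝ) = ∑ l ∈ Finset.range ⌈T / P⌉₊,
      ((A.filter fun c => c / s - b = l).card : ℝ) := by
    exact_mod_cast hcard
  rw [hcard', ff]
  refine Finset.sum_le_sum fun l hl => ?_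
  rw [Finset.mem_range, Nat.lt_ceil, lt_div_iff₀ hP] at hl
  have hT : 0 ≤ T - P * l := by linarith
  have hsub : (A.filter fun c => c / s - b = l) ⊆
      Finset.Ico (s * (b + l)) (s * (b + l) + min ⌊T - P * l⌋₊ s) := by
    intro c hc
    obtain ⟨hcA, hcl⟩ := Finset.mem_filter.1 hc
    obtain ⟨l', hl', hle⟩ := h c hcA
    have e : l' = l := by omega
    subst e
    have h1 := hlow c l' hl'
    rw [Finset.mem_Ico]
    refine ⟨h1, ?_⟩
    have h2 : c + 1 - s * (b + l') ≤ ⌊T - P * l'⌋₊ := by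
      refine Nat.le_floor ?_
      have h3 : ((c + 1 - s * (b + l') : ℕ) : ℝ) = (c : ℝ) + 1 - s * (b + l') := by
        rw [Nat.cast_sub (by omega)]
        push_cast
        ring
      rw [h3]
      linarith
    have h4 : c < s * (b + l') + s := by
      have h5 : c < s * (c / s + 1) := Nat.lt_mul_div_succ c (by omega)
      rw [hl'] at h5
      calc c < s * (b + l' + 1) := h5
        _ = s * (b + l') + s := by ring
    have h6 : c + 1 - s * (b + l') ≤ min ⌊T - P * l'⌋₊ s := le_min h2 (by omega)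
    omega
  have h1 := Finset.card_le_card hsub
  rw [Nat.card_Ico, Nat.add_sub_cancel_left] at h1
  have h2 : (((A.filter fun c => c / s - b = l).card : ℕ) : ℝ) ≤
      ((min ⌊T - P * l⌋₊ s : ℕ) : ℝ) := by exact_mod_cast h1
  refine h2.trans ?_
  rw [Nat.cast_min]
  exact min_le_min (Nat.floor_le hT) le_rfl

/-- HL5. Counting by blocks `c / s = b + l`: in the block `l` the counted `c` satisfy
`c + 1 ≤ s (b + l) + (T - P l)`, so their number is at most `min (T - P l) s` (and there is none if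
`T ≤ P l`). -/
theorem stp_le_ff {s n b : ℕ} (hs : 1 ≤ s) {r : ℕ → ℕ} {P T : ℝ} (hP : 0 < P)
    (h : ∀ c, b < kk s n r c → ∃ l : ℕ, c / s = b + l ∧
      (c : ℝ) + 1 ≤ s * (b + l) + (T - P * l)) : (stp s n r b : ℝ) ≤ ff s P T := by
  rw [stp]
  refine blocks_card (b := b) hs hP _ fun c hc => ?_
  exact h c (Finset.mem_filter.1 hc).2

/-- `b = 0` with one exceptional interval of length `≤ ρ` -/
theorem stp_le_ff_add {s n : ℕ} (hs : 1 ≤ s) {r : ℕ → ℕ} {P T : ℝ} (hP : 0 < P) (R : ℕ)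
    (h : ∀ c, 0 < kk s n r c → (s * R ≤ c ∧ c < s * R + r R) ∨ ∃ l : ℕ, c / s = l ∧
      (c : ℝ) + 1 ≤ s * l + (T - P * l)) : (stp s n r 0 : ℝ) ≤ ff s P T + r R := by
  classical
  rw [stp]
  obtain ⟨A, hA⟩ : ∃ A : Finset ℕ, A = (Finset.range (s * n + ∑ i ∈ Finset.range n, r i)).filter
      fun c => 0 < kk s n r c := ⟨_, rfl⟩
  rw [← hA]
  have h1 := blocks_card (b := 0) hs hP (A.filter fun c => ¬ (s * R ≤ c ∧ c < s * R + r R))
    (T := T) fun c hc => by
      obtain ⟨h2, h3⟩ := Finset.mem_filter.1 hc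
      rw [hA] at h2
      rcases h c (Finset.mem_filter.1 h2).2 with h4 | ⟨l, h5, h6⟩
      · exact absurd h4 h3
      · refine ⟨l, by rw [h5, Nat.zero_add], ?_⟩
        rw [Nat.cast_zero, zero_add]
        exact h6
  have h2 : A ⊆ (A.filter fun c => ¬ (s * R ≤ c ∧ c < s * R + r R)) ∪
      Finset.Ico (s * R) (s * R + r R) := by
    intro c hc
    rw [Finset.mem_union, Finset.mem_filter, Finset.mem_Ico]
    by_cases h3 : s * R ≤ c ∧ c < s * R + r R
    · exact Or.inr h3
    · exact Or.inl ⟨hc, h3⟩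
  have h3 := (Finset.card_le_card h2).trans (Finset.card_union_le _ _)
  rw [Nat.card_Ico, Nat.add_sub_cancel_left] at h3
  have h4 : (A.card : ℝ) ≤
      ((A.filter fun c => ¬ (s * R ≤ c ∧ c < s * R + r R)).card : ℝ) + r R := by
    exact_mod_cast h3
  linarith

end Pool.Agent.Lib.MP_6b2d39_agHl
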