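import Pool.Agent.Lib.MP_6b2d39_agHl.CountB
import Pool.Agent.Lib.MP_6b2d39_agHl.Blocks

set_option autoImplicit false

namespace Pool.Agent.Lib.MP_6b2d39_agHl

variable {s n : ℕ} {r : ℕ → ℕ} {P A : ℝ}

private theorem rows_bound {x : ℕ} {y : ℝ} (h : (x : ℝ) ≤ max y 0) (hx : 0 < x) :
    (x : ℝ) ≤ y := by
  rcases le_max_iff.1 h with h | h
  · exact h
  · have : (0 : ℝ) < x := by exact_mod_cast hx
    linarith

/-- HL6 (a). (`stp_le_ff`, `exists_small`: `r i > 0` for a counted index, so `r i ≤ A - P i`,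
`c + 1 ≤ r i + s i ≤ A + (s - P) i ≤ A + (s - P) l`) -/
theorem row_up (hP : 0 < P) (hPs : P ≤ s) (h : ∀ b, (r b : ℝ) ≤ max (A - P * b) 0) (b : ℕ) :
    (stp s n r b : ℝ) ≤ ff s P (A - s * b) := by
  have hs : 1 ≤ s := by
    have h1 : (0 : ℝ) < s := hP.trans_le hPs
    exact_mod_cast h1
  refine stp_le_ff hs hP fun c hc => ?_
  obtain ⟨i, l, _, hl, hil, h1, h2⟩ := exists_small hs hc
  refine ⟨l, hl, ?_⟩
  have hi := rows_bound (h i) (show 0 < r i by omega)
  have h3 : (c : ℝ) + 1 ≤ s * i + r i := by exact_mod_cast h2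
  have h4 : (i : ℝ) ≤ l := by exact_mod_cast hil
  have h5 : ((s : ℝ) - P) * i ≤ (s - P) * l := mul_le_mul_of_nonneg_left h4 (by linarith)
  linarith

/-- (a') the row `0` is arbitrary (`exists_small_pos`) -/
theorem row_up_pos (hP : 0 < P) (hPs : P ≤ s)
    (h : ∀ b, 1 ≤ b → (r b : ℝ) ≤ max (A - P * b) 0) {b : ℕ} (hb : 1 ≤ b) :
    (stp s n r b : ℝ) ≤ ff s P (A + (s - P) - s * b) := by
  have hs : 1 ≤ s := by
    have h1 : (0 : ℝ) < s := hP.trans_le hPs
    exact_mod_cast h1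
  refine stp_le_ff hs hP fun c hc => ?_
  obtain ⟨i, l, _, hi1, hl, hil, h1, h2⟩ := exists_small_pos hs hb hc
  refine ⟨l, hl, ?_⟩
  have hi := rows_bound (h i hi1) (show 0 < r i by omega)
  have h3 : (c : ℝ) + 1 ≤ s * i + r i := by exact_mod_cast h2
  have h4 : (i : ℝ) ≤ l + 1 := by exact_mod_cast hil
  have h5 : ((s : ℝ) - P) * i ≤ (s - P) * (l + 1) := mul_le_mul_of_nonneg_left h4 (by linarith)
  linarith

/-- (a0) the row `0` after the step: all counted `c` are smaller than the largest right end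
`s i + r i`; for `i ≥ 1`, `r i > 0` it is at most `A + (s - P) i ≤ s / P * A` as `P i < A` -/
theorem row_up_zero (hP : 0 < P) (hPs : P ≤ s)
    (h : ∀ b, 1 ≤ b → (r b : ℝ) ≤ max (A - P * b) 0) :
    (stp s n r 0 : ℝ) ≤ max (r 0 : ℝ) (s / P * max A 0) := by
  have hM : (0 : ℝ) ≤ max (r 0 : ℝ) (s / P * max A 0) := (Nat.cast_nonneg _).trans (le_max_left _ _)
  have key : ∀ c, 0 < kk s n r c → (c : ℝ) + 1 ≤ max (r 0 : ℝ) (s / P * max A 0) := by
    intro c hc
    unfold kk at hc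
    obtain ⟨i, hi⟩ := Finset.card_pos.1 hc
    obtain ⟨_, h1, h2⟩ := Finset.mem_filter.1 hi
    have h3 : (c : ℝ) + 1 ≤ s * i + r i := by exact_mod_cast h2
    by_cases hi0 : i = 0
    · subst hi0
      refine le_max_of_le_left ?_
      simpa using h3
    · refine le_max_of_le_right ?_
      have hr : 0 < r i := by omega
      have hi := rows_bound (h i (by omega)) hr
      have hr' : (0 : ℝ) < r i := by exact_mod_cast hr
      have hiA : P * i < A := by linarith
      have hA : 0 < A := lt_of_le_of_lt (mul_nonneg hP.le (Nat.cast_nonneg i)) hiA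
      rw [max_eq_left hA.le]
      have h4 : (i : ℝ) ≤ A / P := by
        rw [le_div_iff₀ hP]
        linarith
      have h5 : ((s : ℝ) - P) * i ≤ (s - P) * (A / P) :=
        mul_le_mul_of_nonneg_left h4 (by linarith)
      have h6 : ((s : ℝ) - P) * (A / P) = s / P * A - A := by
        field_simp
      linarith
  have hsub : (Finset.range (s * n + ∑ i ∈ Finset.range n, r i)).filter (fun c => 0 < kk s n r c) ⊆
      Finset.range ⌊max (r 0 : ℝ) (s / P * max A 0)⌋₊ := by
    intro c hc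
    have h1 := key c (Finset.mem_filter.1 hc).2
    rw [Finset.mem_range]
    have h2 : c + 1 ≤ ⌊max (r 0 : ℝ) (s / P * max A 0)⌋₊ := by
      apply Nat.le_floor
      push_cast
      exact h1
    omega
  have hcard := Finset.card_le_card hsub
  rw [Finset.card_range] at hcard
  calc (stp s n r 0 : ℝ) ≤ ((⌊max (r 0 : ℝ) (s / P * max A 0)⌋₊ : ℕ) : ℝ) := by
        exact_mod_cast hcard
    _ ≤ _ := Nat.floor_le hM

end Pool.Agent.Lib.MP_6b2d39_agHl
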