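import Pool.Agent.Lib.MP_6b2d39_agHl.Defs

set_option autoImplicit false

namespace Pool.Agent.Lib.MP_6b2d39_agHl

/-- if all `c` of the block `l` with `c < s (b + l) + (T - P l)` are counted, there are at least
`min (T - P l) s` of them (`l < ⌈T / P⌉₊`; the blocks are disjoint) -/
theorem ff_le_stp {s n b : ℕ} (hs : 1 ≤ s) {r : ℕ → ℕ} {P T : ℝ} (hP : 0 < P)
    (h : ∀ c l : ℕ, c / s = b + l → (c : ℝ) < s * (b + l) + (T - P * l) → b < kk s n r c) :
    ff s P T ≤ stp s n r b := by
  classical
  set D : Finset ℕ := (Finset.range ⌈T / P⌉₊).biUnion fun l =>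
    (Finset.range (min s ⌈T - P * l⌉₊)).image fun j => s * (b + l) + j with hD
  have hdiv : ∀ l j : ℕ, j < s → (s * (b + l) + j) / s = b + l := by
    intro l j hj
    rw [Nat.mul_add_div (by omega), Nat.div_eq_of_lt hj, add_zero]
  have hcard : D.card = ∑ l ∈ Finset.range ⌈T / P⌉₊, min s ⌈T - P * l⌉₊ := by
    rw [hD, Finset.card_biUnion]
    · refine Finset.sum_congr rfl fun l _ => ?_
      rw [Finset.card_image_of_injective _ (add_right_injective _), Finset.card_range]
    · intro l _ l' _ hne
      refine Finset.disjoint_left.2 ?_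
      intro c hc hc'
      obtain ⟨j, hj, rfl⟩ := Finset.mem_image.1 hc
      obtain ⟨j', hj', hjj⟩ := Finset.mem_image.1 hc'
      rw [Finset.mem_range] at hj hj'
      have h1 := hdiv l j (lt_of_lt_of_le hj (min_le_left _ _))
      have h2 := hdiv l' j' (lt_of_lt_of_le hj' (min_le_left _ _))
      rw [hjj, h1] at h2
      omega
  have hsub : D ⊆ (Finset.range (s * n + ∑ i ∈ Finset.range n, r i)).filter
      fun c => b < kk s n r c := by
    intro c hc
    obtain ⟨l, hl, hc⟩ := Finset.mem_biUnion.1 hc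
    obtain ⟨j, hj, rfl⟩ := Finset.mem_image.1 hc
    rw [Finset.mem_range] at hj hl
    have hk : b < kk s n r (s * (b + l) + j) := by
      refine h _ l (hdiv l j (lt_of_lt_of_le hj (min_le_left _ _))) ?_
      have h1 := Nat.lt_ceil.1 (lt_of_lt_of_le hj (min_le_right _ _))
      push_cast
      linarith
    rw [Finset.mem_filter, Finset.mem_range]
    refine ⟨?_, hk⟩
    obtain ⟨i, hi⟩ := Finset.card_pos.1 (lt_of_le_of_lt (Nat.zero_le b) hk)
    rw [Finset.mem_filter, Finset.mem_range] at hi
    obtain ⟨hin, -, hi2⟩ := hi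
    have h1 : r i ≤ ∑ i ∈ Finset.range n, r i :=
      Finset.single_le_sum (fun _ _ => Nat.zero_le _) (Finset.mem_range.2 hin)
    have h2 : s * i ≤ s * n := Nat.mul_le_mul_left _ hin.le
    omega
  have hle : D.card ≤ stp s n r b := Finset.card_le_card hsub
  calc ff s P T ≤ ∑ l ∈ Finset.range ⌈T / P⌉₊, ((min s ⌈T - P * l⌉₊ : ℕ) : ℝ) := by
        unfold ff
        refine Finset.sum_le_sum fun l _ => ?_
        rw [Nat.cast_min]
        refine le_min (min_le_right _ _) ((min_le_left _ _).trans (Nat.le_ceil _))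
    _ = (D.card : ℝ) := by
        rw [hcard]
        push_cast
        rfl
    _ ≤ stp s n r b := by exact_mod_cast hle

end Pool.Agent.Lib.MP_6b2d39_agHl
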