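import Pool.Agent.Lib.MP_6b2d39_agHl.CountB
import Pool.Agent.Lib.MP_6b2d39_agHl.Blocks
import Pool.Agent.Lib.MP_6b2d39_agHl.BlocksB

set_option autoImplicit false

namespace Pool.Agent.Lib.MP_6b2d39_agHl

variable {s n : ℕ} {r : ℕ → ℕ} {P A : ℝ}

private theorem rb_one (hP : 0 < P) (hPs : P ≤ s) : 1 ≤ s := by
  have h : (0 : ℝ) < s := hP.trans_le hPs
  exact_mod_cast h

/-- the end of the interval of the row `i`, bounded by the value for `l ≥ i` -/
private theorem rb_bd (hPs : P ≤ s) {c i l : ℕ} (hr : (r i : ℝ) ≤ max (A - P * i) 0) (hil : i ≤ l)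
    (h1 : s * i ≤ c) (h2 : c < s * i + r i) : (c : ℝ) + 1 ≤ s * l + (A - P * l) := by
  have h3 : 0 < r i := by omega
  have h4 : (0 : ℝ) < r i := by exact_mod_cast h3
  have h5 : (r i : ℝ) ≤ A - P * i := by
    rcases le_max_iff.1 hr with h | h
    · exact h
    · exact absurd h4 (not_lt.2 h)
  have h6 : (c : ℝ) + 1 ≤ s * i + r i := by exact_mod_cast h2
  have h7 : ((s : ℝ) - P) * i ≤ ((s : ℝ) - P) * l := by
    apply mul_le_mul_of_nonneg_left _ (sub_nonneg.2 hPs)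
    exact_mod_cast hil
  nlinarith

/-- (a'') one exceptional row `R`, of length at most `s` (`exists_small_ne`) -/
theorem row_up_ne (hP : 0 < P) (hPs : P ≤ s) {R : ℕ} (hR : r R ≤ s)
    (h : ∀ b, b ≠ R → (r b : ℝ) ≤ max (A - P * b) 0) {b : ℕ} (hb : 1 ≤ b) :
    (stp s n r b : ℝ) ≤ ff s P (A - s * b) := by
  refine stp_le_ff (rb_one hP hPs) hP fun c hc => ?_
  obtain ⟨i, l, -, hiR, hcl, hil, h1, h2⟩ := exists_small_ne (rb_one hP hPs) hb hR hc
  refine ⟨l, hcl, ?_⟩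
  have h3 := rb_bd (A := A) hPs (h i hiR) hil h1 h2
  linarith

/-- (a'') for `b = 0` (`stp_le_ff_add`) -/
theorem row_up_ne_zero (hP : 0 < P) (hPs : P ≤ s) {R : ℕ}
    (h : ∀ b, b ≠ R → (r b : ℝ) ≤ max (A - P * b) 0) :
    (stp s n r 0 : ℝ) ≤ ff s P A + r R := by
  refine stp_le_ff_add (rb_one hP hPs) hP R fun c hc => ?_
  unfold kk at hc
  obtain ⟨i, hi⟩ := Finset.card_pos.1 hc
  rw [Finset.mem_filter] at hi
  obtain ⟨-, h1, h2⟩ := hi
  by_cases hiR : i = R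
  · left
    rw [← hiR]
    exact ⟨h1, h2⟩
  · right
    refine ⟨c / s, rfl, rb_bd hPs (h i hiR) ?_ h1 h2⟩
    rw [Nat.le_div_iff_mul_le (rb_one hP hPs), mul_comm]
    exact h1

/-- (b) (`ff_le_stp`: for `c < A + (s - P) l`, `c / s = b + l`, all the indices `i = l, …, l + b`
are counted: `s i ≤ c` and `r i + s i ≥ A + (s - P) i ≥ A + (s - P) l > c`; `r i > 0`, so `i < n`) -/
theorem row_lo (hP : 0 < P) (hPs : P ≤ s) (h0 : ∀ b, n ≤ b → r b = 0)
    (h : ∀ b, A - P * b ≤ (r b : ℝ)) (b : ℕ) : ff s P (A - s * b) ≤ stp s n r b := by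
  refine ff_le_stp (rb_one hP hPs) hP fun c l hcl hc => ?_
  unfold kk
  have h1 : (Finset.Icc l (l + b)).card = b + 1 := by
    rw [Nat.card_Icc]
    omega
  refine (Nat.lt_succ_self b).trans_le (h1.symm.le.trans (Finset.card_le_card fun i hi => ?_))
  rw [Finset.mem_Icc] at hi
  have h2 : s * i ≤ c := by
    have h3 : i ≤ c / s := by omega
    have h4 := (Nat.le_div_iff_mul_le (rb_one hP hPs)).1 h3
    rwa [mul_comm] at h4
  have h3 : c < s * i + r i := by
    have h4 := h i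
    have h5 : ((s : ℝ) - P) * l ≤ ((s : ℝ) - P) * i := by
      apply mul_le_mul_of_nonneg_left _ (sub_nonneg.2 hPs)
      exact_mod_cast hi.1
    have h6 : (c : ℝ) < ((s * i + r i : ℕ) : ℝ) := by
      push_cast
      nlinarith
    exact_mod_cast h6
  rw [Finset.mem_filter, Finset.mem_range]
  refine ⟨?_, h2, h3⟩
  by_contra h4
  rw [h0 i (not_lt.1 h4)] at h3
  omega

end Pool.Agent.Lib.MP_6b2d39_agHl
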