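import Mathlib

set_option autoImplicit false

namespace Pool.Agent.Lib.MP_6b2d39_agHl

private theorem endR_exp_neg_le {x c : ℝ} (hc : 0 < c) (h : c ≤ 1 + x) :
    Real.exp (-x) ≤ 1 / c := by
  rw [Real.exp_neg, ← one_div]
  apply one_div_le_one_div_of_le hc
  have := Real.add_one_le_exp x
  linarith

private theorem endR_exp {x : ℝ} (hx : 200 * (Nat.factorial 20 : ℝ) * 3 ^ 20 ≤ x) :
    Real.exp (-(x / 3)) ≤ 1 / 200 / x ^ 19 := by
  have hf : (0 : ℝ) < (Nat.factorial 20 : ℝ) := by exact_mod_cast Nat.factorial_pos 20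
  have hx0 : 0 < x := lt_of_lt_of_le (by positivity) hx
  have h1 := Real.pow_div_factorial_le_exp (x / 3) (by positivity) 20
  rw [Real.exp_neg, div_div, ← one_div]
  apply one_div_le_one_div_of_le (by positivity)
  refine le_trans ?_ h1
  rw [le_div_iff₀ hf, div_pow, le_div_iff₀ (by positivity)]
  calc 200 * x ^ 19 * (Nat.factorial 20 : ℝ) * 3 ^ 20 =
        (200 * (Nat.factorial 20 : ℝ) * 3 ^ 20) * x ^ 19 := by ring
    _ ≤ x * x ^ 19 := mul_le_mul_of_nonneg_right hx (by positivity)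
    _ = x ^ 20 := by ring

/-- HL22. as `num_end` in `Lib/MP_ed661f_ag/X/NumB.lean` -/
theorem end_R : ∃ T0 : ℝ, ∀ (t : ℝ) (z : ℕ), T0 ≤ t → 6 * t ≤ 10 * (z : ℝ) →
    4 * Real.exp (-((z : ℝ) ^ (1 / 19 : ℝ) / 3)) < Real.exp (-((16 * t) ^ (1 / 20 : ℝ))) ∧
      Real.exp (-((z : ℝ) ^ (1 / 19 : ℝ) / 3)) ≤ 1 / 200 / (z : ℝ) ∧
      Real.exp (-((z : ℝ) ^ (1 / 19 : ℝ) / 3)) ≤ 1 / 4 := by
  obtain ⟨B, hbig, hB⟩ : ∃ B : ℝ, 0 < B ∧ ∀ w : ℝ, 0 ≤ w → w < 100 → w ^ 380 < B :=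
    ⟨100 ^ 380, by positivity, fun w h0 h1 => pow_lt_pow_left₀ h1 h0 (by norm_num)⟩
  refine ⟨2 * B, fun t z ht htz => ?_⟩
  have ht0 : 0 < t := by linarith
  have hz : B ≤ z := by linarith
  have hz0 : (0 : ℝ) ≤ (z : ℝ) := Nat.cast_nonneg z
  set w : ℝ := (z : ℝ) ^ (1 / 380 : ℝ) with hw
  have hw0 : 0 ≤ w := Real.rpow_nonneg hz0 _
  have hwp : w ^ 380 = z := by
    rw [hw, ← Real.rpow_natCast, ← Real.rpow_mul hz0]
    norm_num
  have hw100 : 100 ≤ w := by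
    by_contra hcon
    push Not at hcon
    have h1 := hB w hw0 hcon
    rw [hwp] at h1
    linarith
  have h19 : (z : ℝ) ^ (1 / 19 : ℝ) = w ^ 20 := by
    rw [hw, ← Real.rpow_natCast, ← Real.rpow_mul hz0]
    norm_num
  have h20 : (z : ℝ) ^ (1 / 20 : ℝ) = w ^ 19 := by
    rw [hw, ← Real.rpow_natCast, ← Real.rpow_mul hz0]
    norm_num
  have hw19 : 1 ≤ w ^ 19 := one_le_pow₀ (by linarith)
  have hx20 : w ^ 20 = w * w ^ 19 := by ring
  have hx : 100 * w ^ 19 ≤ w ^ 20 := by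
    rw [hx20]
    exact mul_le_mul_of_nonneg_right hw100 (by positivity)
  have h16 : (16 * t) ^ (1 / 20 : ℝ) ≤ 2 * w ^ 19 := by
    calc (16 * t) ^ (1 / 20 : ℝ) ≤ (2 ^ 20 * (z : ℝ)) ^ (1 / 20 : ℝ) := by
          apply Real.rpow_le_rpow (by positivity) _ (by norm_num)
          linarith only [htz, hz0]
      _ = (2 ^ 20 : ℝ) ^ (1 / 20 : ℝ) * (z : ℝ) ^ (1 / 20 : ℝ) :=
          Real.mul_rpow (by positivity) hz0
      _ = 2 * w ^ 19 := by
          rw [h20]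
          congr 1
          rw [← Real.rpow_natCast, ← Real.rpow_mul (by norm_num)]
          norm_num
  refine ⟨?_, ?_, ?_⟩
  · rw [h19]
    have h1 : Real.exp (-(w ^ 20 / 3)) =
        Real.exp (-(2 * w ^ 19)) * Real.exp (-(w ^ 20 / 3 - 2 * w ^ 19)) := by
      rw [← Real.exp_add]
      congr 1
      ring
    have h2 : Real.exp (-(w ^ 20 / 3 - 2 * w ^ 19)) ≤ 1 / 8 :=
      endR_exp_neg_le (by norm_num) (by linarith)
    have h3 : Real.exp (-(2 * w ^ 19)) ≤ Real.exp (-((16 * t) ^ (1 / 20 : ℝ))) :=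
      Real.exp_le_exp.2 (by linarith)
    have h4 := Real.exp_pos (-(2 * w ^ 19))
    rw [h1]
    nlinarith [mul_le_mul_of_nonneg_left h2 h4.le]
  · rw [h19]
    have h1 : 200 * (Nat.factorial 20 : ℝ) * 3 ^ 20 ≤ w ^ 20 := by
      calc 200 * (Nat.factorial 20 : ℝ) * 3 ^ 20 ≤ 100 ^ 20 := by
            norm_num [Nat.factorial]
        _ ≤ w ^ 20 := pow_le_pow_left₀ (by norm_num) hw100 20
    have h2 := endR_exp h1
    have h3 : (w ^ 20) ^ 19 = (z : ℝ) := by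
      rw [← pow_mul, ← hwp]
    rw [h3] at h2
    exact h2
  · rw [h19]
    exact endR_exp_neg_le (by norm_num) (by linarith)

/-- the loss is absorbed by the constant in `t ≥ z / 4` -/
theorem end_exp : ∃ Z0 : ℝ, ∀ z : ℝ, Z0 ≤ z →
    Real.exp (-((4 * z) ^ (1 / 20 : ℝ))) ≤ Real.exp (-(z ^ (1 / 20 : ℝ))) / 300 ∧
    Real.exp (-(z ^ (1 / 20 : ℝ))) / 100 ≤ 1 / 1000 := by
  refine ⟨10000 ^ 20, fun z hz => ?_⟩
  have hz0 : 0 ≤ z := le_trans (by positivity) hz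
  set y : ℝ := z ^ (1 / 20 : ℝ) with hy
  have hy0 : 0 ≤ y := Real.rpow_nonneg hz0 _
  have hyp : y ^ 20 = z := by
    rw [hy, ← Real.rpow_natCast, ← Real.rpow_mul hz0]
    norm_num
  have hy1 : 10000 ≤ y := by
    by_contra hcon
    push Not at hcon
    have h1 : y ^ 20 < 10000 ^ 20 := pow_lt_pow_left₀ hcon hy0 (by norm_num)
    rw [hyp] at h1
    linarith
  have h4 : 21 / 20 * y ≤ (4 * z) ^ (1 / 20 : ℝ) := by
    calc 21 / 20 * y = ((21 / 20 : ℝ) ^ 20) ^ (1 / 20 : ℝ) * y := by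
          congr 1
          rw [← Real.rpow_natCast, ← Real.rpow_mul (by norm_num)]
          norm_num
      _ = ((21 / 20 : ℝ) ^ 20 * z) ^ (1 / 20 : ℝ) := by
          rw [Real.mul_rpow (by positivity) hz0]
      _ ≤ (4 * z) ^ (1 / 20 : ℝ) := by
          apply Real.rpow_le_rpow (by positivity) _ (by norm_num)
          exact mul_le_mul_of_nonneg_right (by norm_num) hz0
  constructor
  · have h1 : Real.exp (-(21 / 20 * y)) = Real.exp (-y) * Real.exp (-(y / 20)) := by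
      rw [← Real.exp_add]
      congr 1
      ring
    have h2 : Real.exp (-(y / 20)) ≤ 1 / 300 := endR_exp_neg_le (by norm_num) (by linarith)
    calc Real.exp (-((4 * z) ^ (1 / 20 : ℝ))) ≤ Real.exp (-(21 / 20 * y)) :=
          Real.exp_le_exp.2 (by linarith)
      _ = Real.exp (-y) * Real.exp (-(y / 20)) := h1
      _ ≤ Real.exp (-y) * (1 / 300) := mul_le_mul_of_nonneg_left h2 (Real.exp_pos _).le
      _ = Real.exp (-y) / 300 := by ring
  · have h1 : Real.exp (-y) ≤ 1 / 10 := endR_exp_neg_le (by norm_num) (by linarith)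
    linarith

end Pool.Agent.Lib.MP_6b2d39_agHl
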