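import Pool.Agent.Lib.MP_6b2d39_agHl.Defs
import Pool.Agent.Lib.MP_6b2d39_agCr.Defs

set_option autoImplicit false

namespace Pool.Agent.Lib.MP_6b2d39_agHl

open Pool.Agent.Lib.MP_6b2d39_agCr

/-- HL14. almost equal multiplicities: `n - k` of them are `m`, `k` of them are `m + 1`,
`∑ μ i = n m + k` -/
theorem mass_bounds {n m : ℕ} {μ : Fin n → ℕ} (hμ : ∀ i, μ i = m ∨ μ i = m + 1) :
    n * m ≤ ∑ i, μ i ∧ ∑ i, μ i ≤ n * (m + 1) := by
  constructor
  · calc n * m = ∑ _i : Fin n, m := by simp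
      _ ≤ _ := Finset.sum_le_sum fun i _ => by rcases hμ i with h | h <;> omega
  · calc ∑ i, μ i ≤ ∑ _i : Fin n, (m + 1) :=
          Finset.sum_le_sum fun i _ => by rcases hμ i with h | h <;> omega
      _ = _ := by simp

theorem demand_low {n m : ℕ} {μ : Fin n → ℕ} (hμ : ∀ i, μ i = m ∨ μ i = m + 1) {b : ℕ}
    (hb : b ≤ m) : ∑ i, (μ i - b) + n * b = ∑ i, μ i := by
  have h : n * b = ∑ _i : Fin n, b := by simp
  rw [h, ← Finset.sum_add_distrib]
  exact Finset.sum_congr rfl fun i _ => by rcases hμ i with h | h <;> omega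

theorem demand_high {n m : ℕ} {μ : Fin n → ℕ} (hμ : ∀ i, μ i = m ∨ μ i = m + 1) {b : ℕ}
    (hb : m < b) : ∑ i, (μ i - b) = 0 := by
  exact Finset.sum_eq_zero fun i _ => by rcases hμ i with h | h <;> omega

private theorem sum_sub_self (x : ℕ) : ∑ b ∈ Finset.range x, (x - b) = (x + 1).choose 2 := by
  induction x with
  | zero => simp
  | succ x ih =>
    rw [Finset.sum_range_succ', Nat.choose_succ_succ' (x + 1) 1, Nat.choose_one_right, ← ih, add_comm, Nat.sub_zero]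
    congr 1
    exact Finset.sum_congr rfl fun b _ => by omega

private theorem sum_sub_range {x N : ℕ} (h : x ≤ N) :
    ∑ b ∈ Finset.range N, (x - b) = (x + 1).choose 2 := by
  obtain ⟨k, rfl⟩ := Nat.exists_eq_add_of_le h
  clear h
  induction k with
  | zero => exact sum_sub_self x
  | succ k ih =>
    rw [← add_assoc, Finset.sum_range_succ, ih]
    omega

/-- the number of conditions -/
theorem demand_sum {n m N : ℕ} {μ : Fin n → ℕ} (hμ : ∀ i, μ i = m ∨ μ i = m + 1)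
    (hN : m + 1 ≤ N) :
    ∑ b ∈ Finset.range N, ∑ i, (μ i - b) = ∑ i, (μ i + 1).choose 2 := by
  rw [Finset.sum_comm]
  refine Finset.sum_congr rfl fun i _ => sum_sub_range ?_
  rcases hμ i with h | h <;> omega

/-- with `S = n m + k`: the number of conditions is `n m (m + 1) / 2 + k (m + 1)`, and
`(S + n / 2) ^ 2 / (2 n)` is larger by `n / 8 - k (n - k) / (2 n)` -/
theorem mass_real {n m : ℕ} (hn : 1 ≤ n) {μ : Fin n → ℕ} (hμ : ∀ i, μ i = m ∨ μ i = m + 1) :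
    ((∑ i, (μ i + 1).choose 2 : ℕ) : ℝ) ≤ (((∑ i, μ i : ℕ) : ℝ) + n / 2) ^ 2 / (2 * n) ∧
    (((∑ i, μ i : ℕ) : ℝ) + n / 2) ^ 2 / (2 * n) - n / 8 ≤
      ((∑ i, (μ i + 1).choose 2 : ℕ) : ℝ) := by
  have hn0 : (0 : ℝ) < n := by exact_mod_cast hn
  obtain ⟨k, hk⟩ : ∃ k : ℕ, k = ∑ i, (μ i - m) := ⟨_, rfl⟩
  have hkn : k ≤ n := by
    rw [hk]
    calc ∑ i, (μ i - m) ≤ ∑ _i : Fin n, 1 :=
          Finset.sum_le_sum fun i _ => by rcases hμ i with h | h <;> omega
      _ = _ := by simp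
  have hS : ∑ i, μ i = n * m + k := by
    have := demand_low hμ (le_refl m)
    omega
  have hC : 2 * ∑ i, (μ i + 1).choose 2 = n * (m * (m + 1)) + 2 * (k * (m + 1)) := by
    have h1 : n * (m * (m + 1)) = ∑ _i : Fin n, m * (m + 1) := by simp
    rw [h1, hk, Finset.sum_mul, Finset.mul_sum, Finset.mul_sum, ← Finset.sum_add_distrib]
    refine Finset.sum_congr rfl fun i _ => ?_
    have h2 : 2 * (μ i + 1).choose 2 = (μ i + 1) * μ i := by
      rw [Nat.choose_two_right, Nat.add_sub_cancel, Nat.mul_div_cancel']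
      exact (Nat.even_mul_succ_self (μ i)).two_dvd.trans (by rw [mul_comm])
    rw [h2]
    rcases hμ i with h | h
    · rw [h, Nat.sub_self]
      ring
    · rw [h, Nat.add_sub_cancel_left]
      ring
  have hCr : ((∑ i, (μ i + 1).choose 2 : ℕ) : ℝ) = (n * (m * (m + 1)) + 2 * (k * (m + 1))) / 2 := by
    have : (2 : ℝ) * ((∑ i, (μ i + 1).choose 2 : ℕ) : ℝ) = n * (m * (m + 1)) + 2 * (k * (m + 1)) := by
      exact_mod_cast hC
    linarith
  have hk0 : (0 : ℝ) ≤ k := Nat.cast_nonneg k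
  have hkn' : (k : ℝ) ≤ n := by exact_mod_cast hkn
  have key : (((∑ i, μ i : ℕ) : ℝ) + n / 2) ^ 2 / (2 * n) =
      (n * (m * (m + 1)) + 2 * (k * (m + 1))) / 2 + ((n : ℝ) / 2 - k) ^ 2 / (2 * n) := by
    rw [hS]
    push_cast
    field_simp
    ring
  rw [hCr, key]
  constructor
  · have : 0 ≤ ((n : ℝ) / 2 - k) ^ 2 / (2 * n) := by positivity
    linarith
  · have : ((n : ℝ) / 2 - k) ^ 2 / (2 * n) ≤ n / 8 := by
      rw [div_le_iff₀ (by positivity)]
      nlinarith [mul_nonneg hk0 (sub_nonneg.2 hkn')]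
    linarith

theorem vd_real {n d : ℕ} (μ : Fin n → ℕ) :
    ((vd d μ : ℤ) : ℝ) = ((d : ℝ) + 1) * (d + 2) / 2 - ((∑ i, (μ i + 1).choose 2 : ℕ) : ℝ) := by
  have h : (((d + 2).choose 2 : ℕ) : ℝ) = ((d : ℝ) + 1) * (d + 2) / 2 := by
    rw [Nat.cast_choose_two]
    push_cast
    ring
  rw [vd, ← h]
  push_cast
  ring

end Pool.Agent.Lib.MP_6b2d39_agHl
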