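import Pool.Agent.Lib.MP_6b2d39_agHl.Face

open Polynomial

set_option autoImplicit false

namespace Pool.Agent.Lib.MP_6b2d39_agHl

open Pool.Agent.Lib.MP_6b2d39_ag Pool.Agent.Lib.MP_6b2d39_ag.Rel
  Pool.Agent.Lib.MP_6b2d39_agNw

private theorem resS_X_faceB (s : ℕ) : resS s X = X := by
  simp [resS]

private theorem resS_C_faceB (s : ℕ) (g : ℂ[X]) : resS s (C g) = aeval (X ^ s) g :=
  aevalAeval_C _ _ _

private theorem resS_mono_faceB (s a b : ℕ) (z : ℂ) :
    resS s (monomial a (monomial b z)) = monomial (a + s * b) z := by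
  rw [← C_mul_X_pow_eq_monomial, map_mul, map_pow, resS_X_faceB, resS_C_faceB, aeval_monomial,
    ← pow_mul, mul_assoc, ← pow_add, add_comm (s * b) a, ← C_mul_X_pow_eq_monomial]
  rfl

private theorem face_eval_add_faceB (s c : ℕ) (F G : ℂ[X][X]) :
    (face s c (F + G)).eval 1 = (face s c F).eval 1 + (face s c G).eval 1 := by
  simp only [face, coeff_add, eval_finsetSum, eval_mul, eval_C, eval_pow, eval_X, one_pow,
    mul_one, Finset.sum_add_distrib]

private theorem face_eval_mono_faceB {s : ℕ} (hs : 1 ≤ s) (c a b : ℕ) (z : ℂ) :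
    (face s c (monomial a (monomial b z))).eval 1 = (resS s (monomial a (monomial b z))).coeff c := by
  rw [resS_mono_faceB, coeff_monomial]
  simp only [face, eval_finsetSum, eval_mul, eval_C, eval_pow, eval_X, one_pow, mul_one]
  have hb : s * b ≥ b := Nat.le_mul_of_pos_left b hs
  by_cases hc : a + s * b = c
  · rw [if_pos hc, Finset.sum_eq_single b]
    · rw [coeff_monomial, if_pos (by omega), coeff_monomial, if_pos rfl]
    · intro i _ hi
      rw [coeff_monomial]
      split_ifs
      · rw [coeff_monomial, if_neg (fun h => hi h.symm)]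
      · simp
    · intro h
      exfalso
      apply h
      rw [Finset.mem_filter, Finset.mem_range]
      omega
  · rw [if_neg hc]
    apply Finset.sum_eq_zero
    intro i hi
    rw [Finset.mem_filter, Finset.mem_range] at hi
    rw [coeff_monomial]
    split_ifs with h
    · rw [coeff_monomial, if_neg]
      intro h2
      subst h2
      omega
    · simp

/-- the coefficient of `x ^ c` of the restriction -/
theorem face_eval {s : ℕ} (hs : 1 ≤ s) (c : ℕ) (G : ℂ[X][X]) :
    (face s c G).eval 1 = (resS s G).coeff c := by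
  induction G using Polynomial.induction_on' with
  | add p q hp hq => rw [face_eval_add_faceB, hp, hq, map_add, coeff_add]
  | monomial a g =>
    induction g using Polynomial.induction_on' with
    | add p q hp hq =>
      rw [map_add, face_eval_add_faceB, hp, hq, map_add, coeff_add]
    | monomial b z => exact face_eval_mono_faceB hs c a b z

theorem eq_zero_of_face {s : ℕ} (hs : 1 ≤ s) {G : ℂ[X][X]} (h : ∀ c, face s c G = 0) :
    G = 0 := by
  ext a i
  have h1 := face_coeff hs (s * i + a) G i
  rw [h, coeff_zero, if_pos (Nat.le_add_right _ _), Nat.add_sub_cancel_left] at h1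
  rw [← h1, coeff_zero, coeff_zero]

theorem face_card {s : ℕ} (hs : 1 ≤ s) {n : ℕ} {r : ℕ → ℕ} {F : ℂ[X][X]}
    (h : SuppP (dgm r n) F) (c : ℕ) : (face s c F).support.card ≤ kk s n r c := by
  unfold kk
  apply Finset.card_le_card
  intro i hi
  rw [mem_support_iff, face_coeff hs] at hi
  by_cases hc : s * i ≤ c
  · rw [if_pos hc] at hi
    have h2 : (c - s * i, i) ∈ dgm r n := by
      by_contra h3
      exact hi (h _ _ h3)
    rw [mem_dgm] at h2
    rw [Finset.mem_filter, Finset.mem_range]
    simp only at h2
    omega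
  · rw [if_neg hc] at hi
    exact absurd rfl hi

end Pool.Agent.Lib.MP_6b2d39_agHl
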