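import Pool.Agent.Lib.MP_6b2d39_agHl.Sparse
import Pool.Agent.Lib.MP_6b2d39_agHl.FaceB
import Pool.Agent.Lib.MP_6b2d39_agHl.Diagram
import Pool.Agent.Lib.MP_6b2d39_agHl.Count

open Polynomial

set_option autoImplicit false

namespace Pool.Agent.Lib.MP_6b2d39_agHl

open Pool.Agent.Lib.MP_6b2d39_ag Pool.Agent.Lib.MP_6b2d39_ag.Rel
  Pool.Agent.Lib.MP_6b2d39_agNw

/-- HL4. (`sparse_zero`, `face_pow_mul`, `face_card`) -/
theorem face_zero {s : ℕ} (hs : 1 ≤ s) {n b : ℕ} {r : ℕ → ℕ} {H : ℂ[X][X]}
    (h : SuppP (dgm r n) (fs s ^ b * H)) {c : ℕ} (hk : kk s n r (c + s * b) ≤ b) :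
    face s c H = 0 := by
  have h1 := face_pow_mul hs b c H
  have h2 : (face s (c + s * b) (fs s ^ b * H)).support.card ≤ b := (face_card hs h _).trans hk
  have h3 : face s (c + s * b) (fs s ^ b * H) = 0 :=
    sparse_zero h2 ⟨face s c H, h1⟩
  rw [h3] at h1
  have h4 : ((X : ℂ[X]) - 1) ^ b ≠ 0 := by
    apply pow_ne_zero
    rw [← C_1]
    exact X_sub_C_ne_zero 1
  exact (mul_eq_zero.1 h1.symm).resolve_left h4

/-- the restrictions of `H`, `fs s ^ b * H` supported on the diagram, form a space of dimension at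
most `stp s n r b`: they are combinations of the `x ^ c` with `b < kk s n r (c + s * b)`
(`face_zero`, `face_eval`; `c ↦ c + s * b` is injective) -/
theorem exists_space {s : ℕ} (hs : 1 ≤ s) (n b : ℕ) (r : ℕ → ℕ) :
    ∃ V : Submodule ℂ ℂ[X], FiniteDimensional ℂ V ∧ Module.finrank ℂ V ≤ stp s n r b ∧
      ∀ H : ℂ[X][X], SuppP (dgm r n) (fs s ^ b * H) → resS s H ∈ V := by
  classical
  let S : Finset ℕ := (Finset.range (s * n + ∑ i ∈ Finset.range n, r i)).filter
    fun c => b < kk s n r (c + s * b)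
  let B : Finset ℂ[X] := S.image fun c => X ^ c
  refine ⟨Submodule.span ℂ (B : Set ℂ[X]), FiniteDimensional.span_finset ℂ B, ?_, ?_⟩
  · refine (finrank_span_finset_le_card B).trans (Finset.card_image_le.trans ?_)
    unfold stp
    refine Finset.card_le_card_of_injOn (fun c => c + s * b) ?_ ?_
    · intro c hc
      have h1 := (Finset.mem_filter.1 (Finset.mem_coe.1 hc)).2
      exact Finset.mem_coe.2 (Finset.mem_filter.2 ⟨Finset.mem_range.2 (lt_of_kk h1), h1⟩)
    · intro c _ c' _ h
      exact Nat.add_right_cancel h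
  · intro H hH
    rw [(resS s H).as_sum_support_C_mul_X_pow]
    refine Submodule.sum_mem _ fun c hc => ?_
    rw [← smul_eq_C_mul]
    refine Submodule.smul_mem _ _ (Submodule.subset_span ?_)
    have h1 : b < kk s n r (c + s * b) := by
      by_contra hcon
      have h2 := face_zero hs hH (Nat.le_of_not_lt hcon)
      have h3 := face_eval hs c H
      rw [h2, eval_zero] at h3
      exact mem_support_iff.1 hc h3.symm
    refine Finset.mem_coe.2 (Finset.mem_image.2 ⟨c, Finset.mem_filter.2 ⟨?_, h1⟩, rfl⟩)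
    exact Finset.mem_range.2 (lt_of_le_of_lt (Nat.le_add_right _ _) (lt_of_kk h1))

/-- THE STEP. (`diagram_pow` with `W` the polynomials supported on `dgm r n`; for `b = n`: `kk ≤ n`,
hence all faces of `H` vanish, `eq_zero_of_face`) -/
theorem step {ι : Type} [Fintype ι] [DecidableEq ι] {s n : ℕ} (hs : 1 ≤ s) {r : ℕ → ℕ}
    {m : ι → ℕ} {J : Finset ι} (hE : EmpQ (dgm (stp s n r) n) m J) : EmpQ (dgm r n) m J := by
  let W : Submodule ℂ ℂ[X][X] :=
    { carrier := {F | SuppP (dgm r n) F}
      add_mem' := by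
        intro F G hF hG i j hij
        rw [coeff_add, coeff_add, hF i j hij, hG i j hij, add_zero]
      zero_mem' := by
        intro i j _
        rw [coeff_zero, coeff_zero]
      smul_mem' := by
        intro c F hF i j hij
        rw [coeff_smul, coeff_smul, hF i j hij, smul_zero] }
  choose V hV1 hV2 hV3 using fun b => exists_space hs n b r
  have : ∀ b, FiniteDimensional ℂ (V b) := hV1
  exact diagram_pow (W := W) (r := stp s n r) V (fun b _ H hH => hV3 b H hH)
    (fun b _ => hV2 b)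
    (fun H hH => eq_zero_of_face hs fun c => face_zero hs hH (kk_le _ _ _ _)) hE

theorem Red.emp {ι : Type} [Fintype ι] [DecidableEq ι] {n : ℕ} {r r' : ℕ → ℕ} (h : Red n r r')
    {m : ι → ℕ} {J : Finset ι} (hE : EmpQ (dgm r' n) m J) : EmpQ (dgm r n) m J := by
  induction h with
  | refl => exact hE
  | tail _ h2 ih =>
    obtain ⟨s, hs, rfl⟩ := h2
    exact ih (step hs hE)

end Pool.Agent.Lib.MP_6b2d39_agHl
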