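import Pool.Agent.Lib.MP_6b2d39_agHl.Defs
import Pool.Agent.Lib.MP_6b2d39_agNw.Fill

set_option autoImplicit false

namespace Pool.Agent.Lib.MP_6b2d39_agHl

open Pool.Agent.Lib.MP_6b2d39_ag Pool.Agent.Lib.MP_6b2d39_ag.Rel
  Pool.Agent.Lib.MP_6b2d39_agWin Pool.Agent.Lib.MP_6b2d39_agArr Pool.Agent.Lib.MP_6b2d39_agNw

private theorem last_assign {ι : Type} [DecidableEq ι] (L : ℕ) (D : ℕ → ℕ) : ∀ J : Finset ι,
    ∑ b ∈ Finset.range L, D b ≤ J.card →
    ∃ f : ι → ℕ, ∀ b < L, D b ≤ (J.filter (fun j => f j = b)).card := by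
  induction L with
  | zero => intro J _; exact ⟨fun _ => 0, fun b hb => absurd hb (Nat.not_lt_zero b)⟩
  | succ L ih =>
    intro J hJ
    rw [Finset.sum_range_succ] at hJ
    obtain ⟨T, hT, hTc⟩ := Finset.exists_subset_card_eq (s := J) (n := D L) (by omega)
    have hc : (J \ T).card = J.card - D L := by
      rw [Finset.card_sdiff_of_subset hT, hTc]
    obtain ⟨f, hf⟩ := ih (J \ T) (by omega)
    refine ⟨fun j => if j ∈ T then L else f j, fun b hb => ?_⟩
    rcases Nat.lt_succ_iff_lt_or_eq.1 hb with hb | rfl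
    · refine (hf b hb).trans (Finset.card_le_card ?_)
      intro j hj
      rw [Finset.mem_filter, Finset.mem_sdiff] at hj
      rw [Finset.mem_filter]
      refine ⟨hj.1.1, ?_⟩
      simp only [hj.1.2, if_false]
      exact hj.2
    · rw [← hTc]
      apply Finset.card_le_card
      intro j hj
      rw [Finset.mem_filter]
      exact ⟨hT hj, by simp [hj]⟩

private theorem last_rk_main (N b : ℕ) (hb : b < N) :
    MP_6b2d39_agArr.rk N (fun b => (b : ℤ) ^ 2) 0 b = b := by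
  unfold MP_6b2d39_agArr.rk
  have h : ((Finset.range N).filter fun c : ℕ =>
      c ≠ b ∧ (c : ℤ) ^ 2 + 0 * (c : ℤ) ≤ (b : ℤ) ^ 2 + 0 * (b : ℤ)) = Finset.range b := by
    ext c
    rw [Finset.mem_filter, Finset.mem_range, Finset.mem_range]
    constructor
    · rintro ⟨_, hne, hle⟩
      rw [zero_mul, zero_mul, add_zero, add_zero] at hle
      have h1 : c ^ 2 ≤ b ^ 2 := by exact_mod_cast hle
      have h2 : c ≤ b := (Nat.pow_le_pow_iff_left (by norm_num)).1 h1
      exact lt_of_le_of_ne h2 hne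
    · intro hc
      refine ⟨hc.trans hb, hc.ne, ?_⟩
      rw [zero_mul, zero_mul, add_zero, add_zero]
      have h1 : c ^ 2 ≤ b ^ 2 := Nat.pow_le_pow_left hc.le 2
      exact_mod_cast h1
  exact (congrArg Finset.card h).trans (Finset.card_range b)

private theorem last_rk_simple (N b : ℕ) :
    MP_6b2d39_agArr.rk N (fun b => (b : ℤ) ^ 2) (-2 * (b : ℤ)) b = 0 := by
  unfold MP_6b2d39_agArr.rk
  rw [Finset.card_eq_zero, Finset.filter_eq_empty_iff]
  rintro c _ ⟨hcb, hle⟩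
  have h2 : ((c : ℤ) - b) ^ 2 ≤ 0 := by nlinarith
  have h3 : (c : ℤ) - b = 0 := by
    have := sq_nonneg ((c : ℤ) - b)
    have h4 : ((c : ℤ) - b) ^ 2 = 0 := le_antisymm h2 this
    exact pow_eq_zero_iff (two_ne_zero) |>.1 h4
  apply hcb
  have : (c : ℤ) = b := by linarith
  exact_mod_cast this

/-- HL12. the last step: the main points serve the rows in the standard order (`e b = b ^ 2`,
`p = 0`, the rank of the row `b` is `b`), the simple points the remaining cells
(`exists_assign` in `Win/CertExt.lean` is private: copy; `p = - 2 b` for a point of the row `b`) -/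
theorem cert_last {n u : ℕ} (r : ℕ → ℕ) (N : ℕ) (μ : Fin n → ℕ)
    (h : ∑ b ∈ Finset.range N, (r b - ∑ i, (μ i - b)) ≤ u) :
    Cert (Sum.elim μ (fun _ => 1) : Fin n ⊕ Fin u → ℕ) Finset.univ N
      (fun b => (r b : ℤ)) := by
  obtain ⟨f, hf⟩ := last_assign N (fun b => r b - ∑ i, (μ i - b)) (Finset.univ : Finset (Fin u))
    (by rw [Finset.card_univ, Fintype.card_fin]; exact h)
  refine ⟨fun b => (b : ℤ) ^ 2, Sum.elim (fun _ => 0) (fun j => -2 * (f j : ℤ)), fun b hb => ?_⟩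
  rw [Fintype.sum_sum_type]
  have h1 : ∑ i : Fin n, (((Sum.elim μ (fun _ => 1) : Fin n ⊕ Fin u → ℕ) (Sum.inl i) -
      MP_6b2d39_agArr.rk N (fun b => (b : ℤ) ^ 2)
        ((Sum.elim (fun _ => 0) (fun j => -2 * (f j : ℤ)) : Fin n ⊕ Fin u → ℤ) (Sum.inl i)) b :
        ℕ) : ℤ) = ((∑ i, (μ i - b) : ℕ) : ℤ) := by
    rw [Nat.cast_sum]
    refine Finset.sum_congr rfl fun i _ => ?_
    rw [Sum.elim_inl, Sum.elim_inl, last_rk_main N b hb]
  have h2 : ((r b - ∑ i, (μ i - b) : ℕ) : ℤ) ≤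
      ∑ j : Fin u, (((Sum.elim μ (fun _ => 1) : Fin n ⊕ Fin u → ℕ) (Sum.inr j) -
      MP_6b2d39_agArr.rk N (fun b => (b : ℤ) ^ 2)
        ((Sum.elim (fun _ => 0) (fun j => -2 * (f j : ℤ)) : Fin n ⊕ Fin u → ℤ) (Sum.inr j)) b :
        ℕ) : ℤ) := by
    calc ((r b - ∑ i, (μ i - b) : ℕ) : ℤ)
        ≤ (((Finset.univ : Finset (Fin u)).filter (fun j => f j = b)).card : ℤ) := by
          exact_mod_cast hf b hb
      _ = ∑ j ∈ (Finset.univ : Finset (Fin u)).filter (fun j => f j = b),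
          (((Sum.elim μ (fun _ => 1) : Fin n ⊕ Fin u → ℕ) (Sum.inr j) -
          MP_6b2d39_agArr.rk N (fun b => (b : ℤ) ^ 2)
            ((Sum.elim (fun _ => 0) (fun j => -2 * (f j : ℤ)) : Fin n ⊕ Fin u → ℤ)
              (Sum.inr j)) b : ℕ) : ℤ) := by
          rw [Finset.card_eq_sum_ones, Nat.cast_sum]
          refine Finset.sum_congr rfl fun j hj => ?_
          rw [Sum.elim_inr, Sum.elim_inr, (Finset.mem_filter.1 hj).2, last_rk_simple]
      _ ≤ _ := Finset.sum_le_sum_of_subset_of_nonneg (Finset.filter_subset _ _)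
          (fun _ _ _ => by positivity)
  have h3 : (r b : ℤ) ≤ ((∑ i, (μ i - b) : ℕ) : ℤ) + ((r b - ∑ i, (μ i - b) : ℕ) : ℤ) := by
    have : r b ≤ (∑ i, (μ i - b)) + (r b - ∑ i, (μ i - b)) := by omega
    exact_mod_cast this
  rw [← h1] at h3
  exact h3.trans (add_le_add_right h2 _)

/-- (`empP_of_cert_up` with `c = 0`, and `EmpP → EmpQ`) -/
theorem emp_last {n u : ℕ} (r : ℕ → ℕ) (N : ℕ) (μ : Fin n → ℕ)
    (h : ∑ b ∈ Finset.range N, (r b - ∑ i, (μ i - b)) ≤ u) :
    EmpQ (dgm r N) (Sum.elim μ (fun _ => 1) : Fin n ⊕ Fin u → ℕ) Finset.univ := by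
  have h0 : EmpP (dgm r N) (Sum.elim μ (fun _ => 1) : Fin n ⊕ Fin u → ℕ) Finset.univ := by
    refine empP_of_cert_up (c := 0) (cert_last r N μ h) (fun b _ => ?_) (fun p hp => ?_)
    · rw [zero_add]
      have hsub : rowOf (dgm r N) b ⊆ Finset.range (r b) := by
        intro a ha
        unfold rowOf at ha
        rw [Finset.mem_image] at ha
        obtain ⟨p, hp, rfl⟩ := ha
        rw [Finset.mem_filter, mem_dgm] at hp
        rw [Finset.mem_range, ← hp.2]
        exact hp.1.2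
      have hc := Finset.card_le_card hsub
      rw [Finset.card_range] at hc
      exact_mod_cast hc
    · rw [mem_dgm] at hp
      exact ⟨Nat.zero_le _, by rw [zero_add]; exact hp.1⟩
  obtain ⟨x, y, _, _, hxy⟩ := h0
  exact ⟨x, y, hxy⟩

end Pool.Agent.Lib.MP_6b2d39_agHl
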