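import Pool.Agent.Lib.MP_6b2d39_agHl.Mass

set_option autoImplicit false

namespace Pool.Agent.Lib.MP_6b2d39_agHl

/-- HL26. the rows are covered by the points: `r b ≤ ∑ (μ i - b)` for all `b`
(`b = 0`: the second bound; `1 ≤ b ≤ m`: `A3 - x3 ^ 2 b ≤ S - η n (m + 1) - n (1 - η) b ≤ S - n b`;
`b > m`: `A3 ≤ S - η n (m + 1) ≤ n (1 - η) (m + 1) ≤ x3 ^ 2 b`) -/
theorem rows_neg {n m : ℕ} {μ : Fin n → ℕ} (hμ : ∀ i, μ i = m ∨ μ i = m + 1) {r : ℕ → ℕ}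
    {A η x3 B0 : ℝ} (h3 : x3 ^ 2 ≤ n) (g3 : n * (1 - η) ≤ x3 ^ 2) (hη : 0 ≤ η) (hη1 : η ≤ 1)
    (hA : A ≤ ((∑ i, μ i : ℕ) : ℝ) - η * n * (m + 1)) (hB : B0 ≤ ((∑ i, μ i : ℕ) : ℝ))
    (h : ∀ b, 1 ≤ b → (r b : ℝ) ≤ max (A - x3 ^ 2 * b) 0) (h0 : (r 0 : ℝ) ≤ B0) (b : ℕ) :
    r b ≤ ∑ i, (μ i - b) := by
  have hn0 : (0 : ℝ) ≤ n := Nat.cast_nonneg n
  rcases Nat.eq_zero_or_pos b with hb | hb
  · subst hb
    have h1 : (r 0 : ℝ) ≤ ((∑ i, μ i : ℕ) : ℝ) := h0.trans hB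
    have h2 : r 0 ≤ ∑ i, μ i := by exact_mod_cast h1
    simpa using h2
  have hx : 0 ≤ x3 ^ 2 := sq_nonneg _
  rcases Nat.lt_or_ge m b with hmb | hmb
  · -- above `m`
    have h1 := (mass_bounds hμ).2
    have h2 : ((∑ i, μ i : ℕ) : ℝ) ≤ n * (m + 1) := by
      have h3 : ((∑ i, μ i : ℕ) : ℝ) ≤ ((n * (m + 1) : ℕ) : ℝ) := Nat.cast_le.2 h1
      push_cast at h3 ⊢
      exact h3
    have hbm : (m : ℝ) + 1 ≤ b := by exact_mod_cast hmb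
    have hm0 : (0 : ℝ) ≤ (m : ℝ) + 1 := by positivity
    have h4 : A - x3 ^ 2 * b ≤ 0 := by
      have h5 : n * (1 - η) * (m + 1) ≤ x3 ^ 2 * (m + 1) := mul_le_mul_of_nonneg_right g3 hm0
      have h6 : x3 ^ 2 * (m + 1) ≤ x3 ^ 2 * b := mul_le_mul_of_nonneg_left hbm hx
      nlinarith
    have h7 : (r b : ℝ) ≤ 0 := (h b hb).trans (max_le h4 le_rfl)
    have h8 : r b ≤ 0 := by exact_mod_cast h7
    omega
  · -- from `1` to `m`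
    have h1 := demand_low hμ hmb
    have h2 : ((∑ i, (μ i - b) : ℕ) : ℝ) + n * b = ((∑ i, μ i : ℕ) : ℝ) := by
      have h3 : ((∑ i, (μ i - b) + n * b : ℕ) : ℝ) = ((∑ i, μ i : ℕ) : ℝ) := by rw [h1]
      rw [Nat.cast_add, Nat.cast_mul] at h3
      exact h3
    have hbm : (b : ℝ) ≤ m := by exact_mod_cast hmb
    have hb0 : (0 : ℝ) ≤ b := Nat.cast_nonneg b
    have h5 : n * (1 - η) * b ≤ x3 ^ 2 * b := mul_le_mul_of_nonneg_right g3 hb0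
    have h6 : A - x3 ^ 2 * b ≤ ((∑ i, (μ i - b) : ℕ) : ℝ) := by
      have h7 : 0 ≤ η * n * ((m : ℝ) + 1 - b) := by
        have : 0 ≤ (m : ℝ) + 1 - b := by linarith
        positivity
      nlinarith
    have h8 : (r b : ℝ) ≤ ((∑ i, (μ i - b) : ℕ) : ℝ) :=
      (h b hb).trans (max_le h6 (Nat.cast_nonneg _))
    exact_mod_cast h8

/-- HL27. the points are contained in the rows -/
theorem rows_pos {n m : ℕ} {μ : Fin n → ℕ} (hμ : ∀ i, μ i = m ∨ μ i = m + 1) {r : ℕ → ℕ}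
    {L x3 : ℝ} (h3 : x3 ^ 2 ≤ n) (hL : ((∑ i, μ i : ℕ) : ℝ) ≤ L)
    (h : ∀ b, L - x3 ^ 2 * b ≤ (r b : ℝ)) (b : ℕ) : ∑ i, (μ i - b) ≤ r b := by
  rcases Nat.lt_or_ge m b with hmb | hmb
  · rw [demand_high hμ hmb]
    exact Nat.zero_le _
  · have h1 := demand_low hμ hmb
    have h2 : ((∑ i, (μ i - b) : ℕ) : ℝ) + n * b = ((∑ i, μ i : ℕ) : ℝ) := by
      have h3 : ((∑ i, (μ i - b) + n * b : ℕ) : ℝ) = ((∑ i, μ i : ℕ) : ℝ) := by rw [h1]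
      rw [Nat.cast_add, Nat.cast_mul] at h3
      exact h3
    have hb0 : (0 : ℝ) ≤ b := Nat.cast_nonneg b
    have h5 : x3 ^ 2 * b ≤ n * b := mul_le_mul_of_nonneg_right h3 hb0
    have h6 := h b
    have h8 : ((∑ i, (μ i - b) : ℕ) : ℝ) ≤ (r b : ℝ) := by linarith
    exact_mod_cast h8

end Pool.Agent.Lib.MP_6b2d39_agHl
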