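import Pool.Agent.Lib.MP_6b2d39_agHl.Defs
import Pool.Agent.Lib.MP_6b2d39_agNw.Config
import Pool.Agent.Lib.MP_6b2d39_agCr.Lower

open Polynomial

set_option autoImplicit false

namespace Pool.Agent.Lib.MP_6b2d39_agHl

open Pool.Agent.Lib.MP_6b2d39_ag Pool.Agent.Lib.MP_6b2d39_ag.Rel
  Pool.Agent.Lib.MP_6b2d39_agNw Pool.Agent.Lib.MP_6b2d39_agCr

/-- HL13. (`exists_configS` with `S = ∅`, as in `Nw/Assemble.lean`; `InV (d + 1) F` is
`SuppP (dgm (tri (d + 1)) (d + 1)) F`; `general_nonspecial_of_le`) -/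
theorem general_of_emp {n d : ℕ} {μ : Fin n → ℕ}
    (h : EmpQ (dgm (tri (d + 1)) (d + 1))
      (Sum.elim μ (fun _ => 1) : Fin n ⊕ Fin (vd d μ).toNat → ℕ) Finset.univ) :
    General (fun P => (Module.finrank ℂ (curves d μ P) : ℤ) = max (vd d μ) 0) := by
  obtain ⟨x, y, hxy⟩ := h
  obtain ⟨P₀, hP₀⟩ := exists_configS (d := d) (u := (vd d μ).toNat) (m := μ) ∅ (fun _ => 0) x y (by
    intro F hF hc
    apply hxy F
    · intro i j hij
      apply (mem_sys.1 hF).1
      by_contra hcon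
      apply hij
      rw [mem_dgm, tri]
      constructor
      · show j < d + 1
        omega
      · show i < d + 1 - j
        omega
    · intro i _
      apply hc
      rw [Finset.mem_filter]
      exact ⟨Finset.mem_univ _, fun l hl => absurd hl (Finset.notMem_empty l)⟩)
  apply general_nonspecial_of_le P₀
  have h1 : ((vd d μ).toNat : ℤ) = max (vd d μ) 0 := Int.toNat_eq_max _
  rw [← h1]
  exact_mod_cast hP₀

/-- a smaller triangle -/
theorem emp_tri_mono {ι : Type} {N N' : ℕ} (h : N ≤ N') {m : ι → ℕ} {J : Finset ι}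
    (hE : EmpQ (dgm (tri N') N') m J) : EmpQ (dgm (tri N) N) m J := by
  obtain ⟨x, y, H⟩ := hE
  refine ⟨x, y, fun f hf => H f fun i j hij => hf i j fun h' => hij ?_⟩
  rw [mem_dgm, tri] at h' ⊢
  obtain ⟨h1, h2⟩ := h'
  constructor
  · exact h1.trans_le h
  · omega

end Pool.Agent.Lib.MP_6b2d39_agHl
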