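import Pool.Agent.Lib.MP_6b2d39_agHl.Mass
import Pool.Agent.Lib.MP_6b2d39_agHl.ToGen
import Pool.Agent.Lib.MP_6b2d39_agNw.Fill
import Pool.Agent.Lib.MP_6b2d39_agNw.Young

set_option autoImplicit false

namespace Pool.Agent.Lib.MP_6b2d39_agHl

open Pool.Agent.Lib.MP_6b2d39_agCr Pool.Agent.Lib.MP_6b2d39_agNw
  Pool.Agent.Lib.MP_6b2d39_agWin

/-- HL29. the triangle is a Young diagram (`s = N`, `t = 0`, `H = N`, `t1 = N - 1`) -/
theorem young_tri {κ N : ℕ} (h1 : 1 ≤ κ) (hN : κ ≤ N) : Young κ N 0 N (N - 1) (tri N) where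
  hs := hN
  first b hb := by
    unfold tri
    omega
  dec b _ hb := by
    unfold tri
    omega
  pos b hb := by
    unfold tri
    omega
  zero b hb := by
    unfold tri
    omega
  slope b _ hb := by
    unfold tri
    omega
  ht1 := by omega
  htt := Nat.zero_le _
  htH := by omega

private theorem sma_sum (N : ℕ) : ∑ b ∈ Finset.range N, tri N b = (N + 1).choose 2 := by
  unfold tri
  induction N with
  | zero => rfl
  | succ N ih =>
    have h1 : (N + 1 + 1).choose 2 = (N + 1) + (N + 1).choose 2 := by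
      rw [Nat.choose_succ_succ' (N + 1) 1, Nat.choose_one_right]
    rw [Finset.sum_range_succ', h1]
    simp only [Nat.add_sub_add_right, ih]
    omega

private theorem sma_diag {κ d : ℕ} (h1 : 1 ≤ κ) (hκ : κ ≤ d + 1) :
    Diag κ (d + 1) (d + 1) (tri (d + 1)) := (young_tri h1 hκ).diag

private theorem sma_emp {ι : Type} {P : Finset (ℕ × ℕ)} {m : ι → ℕ} {J K : Finset ι}
    (hJK : J ⊆ K) (h : EmpP P m J) : EmpQ P m K := by
  obtain ⟨x, y, -, -, H⟩ := h
  exact ⟨x, y, fun f hf hc => H f hf fun i hi => hc i (hJK hi)⟩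

private theorem sma_mass {n k : ℕ} (μ : Fin n → ℕ) :
    mass (Sum.elim μ (fun _ => 1) : Fin n ⊕ Fin k → ℕ) Finset.univ =
      ∑ i, (μ i + 1).choose 2 + k := by
  unfold mass
  rw [Fintype.sum_sum_type]
  simp only [Sum.elim_inl, Sum.elim_inr]
  norm_num

private theorem sma_massl {n k : ℕ} (μ : Fin n → ℕ) :
    mass (Sum.elim μ (fun _ => 1) : Fin n ⊕ Fin k → ℕ)
      (Finset.univ.map Function.Embedding.inl) = ∑ i, (μ i + 1).choose 2 := by
  unfold mass
  rw [Finset.sum_map]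
  rfl

/-- multiplicities `≤ κ ≤ d + 1`, window of size `6 κ ^ 2` (`young_neg`, `young_pos`,
`Young.diag`, `EmpP → EmpQ`; `mass` of the points is `∑ (μ i + 1).choose 2`) -/
theorem emp_window {n d κ : ℕ} {μ : Fin n → ℕ} (h1 : 1 ≤ κ) (hκ : κ ≤ d + 1)
    (hμ : ∀ i, μ i ≤ κ) (hv : vd d μ ≤ -(3 * (κ : ℤ) ^ 2) ∨ 6 * (κ : ℤ) ^ 2 ≤ vd d μ) :
    EmpQ (dgm (tri (d + 1)) (d + 1))
      (Sum.elim μ (fun _ => 1) : Fin n ⊕ Fin (vd d μ).toNat → ℕ) Finset.univ := by
  classical
  have hvd : vd d μ = ((d + 2).choose 2 : ℤ) - ((∑ i, (μ i + 1).choose 2 : ℕ) : ℤ) := by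
    unfold vd
    push_cast
    rfl
  have hs := sma_sum (d + 1)
  have hD := sma_diag h1 hκ
  rcases hv with hv | hv
  · refine sma_emp (le_refl _) (young_neg hD ?_ ?_)
    · rintro (j | j) -
      · exact hμ j
      · exact h1
    · rw [hs, sma_mass]
      have h2 : ((3 * κ ^ 2 : ℕ) : ℤ) = 3 * (κ : ℤ) ^ 2 := by push_cast; rfl
      have h3 : (d + 1 + 1).choose 2 = (d + 2).choose 2 := rfl
      omega
  · have hJU : Disjoint (Finset.univ.map (Function.Embedding.inl : Fin n ↪ Fin n ⊕ Fin (vd d μ).toNat))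
        (Finset.univ.map Function.Embedding.inr) := by
      rw [Finset.disjoint_left]
      intro a ha hb
      rw [Finset.mem_map] at ha hb
      obtain ⟨i, -, rfl⟩ := ha
      obtain ⟨j, -, hj⟩ := hb
      exact Sum.inr_ne_inl hj
    refine sma_emp (Finset.subset_univ _) (young_pos hD hJU ?_ ?_ ?_ ?_)
    · intro j hj
      rw [Finset.mem_map] at hj
      obtain ⟨i, -, rfl⟩ := hj
      exact hμ i
    · intro j hj
      rw [Finset.mem_map] at hj
      obtain ⟨i, -, rfl⟩ := hj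
      rfl
    · rw [hs, sma_massl]
      have h2 : ((6 * κ ^ 2 : ℕ) : ℤ) = 6 * (κ : ℤ) ^ 2 := by push_cast; rfl
      have h3 : (d + 1 + 1).choose 2 = (d + 2).choose 2 := rfl
      omega
    · rw [hs, sma_massl, Finset.card_map, Finset.card_univ, Fintype.card_fin]
      have h3 : (d + 1 + 1).choose 2 = (d + 2).choose 2 := rfl
      have h4 : 0 ≤ 6 * (κ : ℤ) ^ 2 := by positivity
      omega

/-- multiplicities `≤ 1`: no condition (`empP_simple`) -/
theorem emp_one {n d : ℕ} {μ : Fin n → ℕ} (hμ : ∀ i, μ i ≤ 1) :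
    EmpQ (dgm (tri (d + 1)) (d + 1))
      (Sum.elim μ (fun _ => 1) : Fin n ⊕ Fin (vd d μ).toNat → ℕ) Finset.univ := by
  classical
  have hvd : vd d μ = ((d + 2).choose 2 : ℤ) - ((∑ i, (μ i + 1).choose 2 : ℕ) : ℤ) := by
    unfold vd
    push_cast
    rfl
  have hs := sma_sum (d + 1)
  set m : Fin n ⊕ Fin (vd d μ).toNat → ℕ := Sum.elim μ (fun _ => 1) with hm
  refine sma_emp (J := Finset.univ.filter fun j => m j = 1) (Finset.subset_univ _)
    (empP_simple (fun j hj => (Finset.mem_filter.1 hj).2) ?_)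
  rw [card_dgm, hs, Finset.card_filter, Fintype.sum_sum_type]
  have h1 : ∑ i : Fin n, (if m (Sum.inl i) = 1 then 1 else 0) = ∑ i, (μ i + 1).choose 2 := by
    refine Finset.sum_congr rfl fun i _ => ?_
    have h2 := hμ i
    change (if μ i = 1 then 1 else 0) = (μ i + 1).choose 2
    rcases Nat.le_one_iff_eq_zero_or_eq_one.1 h2 with h3 | h3
    · rw [h3]
      rfl
    · rw [h3]
      rfl
  have h2 : ∑ j : Fin (vd d μ).toNat, (if m (Sum.inr j) = 1 then 1 else 0) = (vd d μ).toNat := by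
    have h3 : ∀ j : Fin (vd d μ).toNat, (if m (Sum.inr j) = 1 then 1 else 0) = 1 := fun j => rfl
    rw [Finset.sum_congr rfl fun j _ => h3 j]
    simp
  rw [h1, h2]
  have h3 : (d + 1 + 1).choose 2 = (d + 2).choose 2 := rfl
  omega

end Pool.Agent.Lib.MP_6b2d39_agHl
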