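import Pool.Agent.Lib.MP_ed661f_ag.G.ExistsChain

set_option autoImplicit false

namespace Pool.Agent.Lib.MP_6b2d39_agHl

open Pool.Agent.Lib.MP_ed661f_ag.G

private theorem rr_sum_gz (z0 nb : ℕ) (hz : 1 ≤ z0) :
    ∑ b ∈ Finset.range nb, gz (z0 + 4 * b) =
      ∑ b ∈ Finset.range nb, Real.log (((z0 : ℝ) + 4 * b + 3) / (z0 + 4 * b + 1)) -
      ∑ b ∈ Finset.range nb, Real.log (((z0 : ℝ) + 4 * b + 4) / (z0 + 4 * b + 2)) := by
  have hz' : (1 : ℝ) ≤ z0 := by exact_mod_cast hz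
  rw [← Finset.sum_sub_distrib]
  refine Finset.sum_congr rfl fun b _ => ?_
  have hb : (0 : ℝ) ≤ b := Nat.cast_nonneg b
  rw [gz, ← Real.log_div (by positivity) (by positivity)]
  congr 1
  field_simp

/-- HL21. word for word `target_rangeD` in `Lib/MP_ed661f_ag/H/Num.lean` (there
`Y = ((n - j) / √n) ^ 2`; its private lemma `sum_gz` has to be copied) -/
theorem target_rangeR (nb z0 : ℕ) (x0 Y : ℝ) (hz0big : 1000000 ≤ z0) (hx0 : 0 < x0)
    (hy1 : (z0 : ℝ) + 45 / 100 ≤ x0 ^ 2) (hy2 : x0 ^ 2 ≤ (z0 : ℝ) + 55 / 100)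
    (hY1 : (z0 : ℝ) + 4 * nb + 45 / 100 ≤ Y) (hY2 : Y ≤ (z0 : ℝ) + 4 * nb + 55 / 100)
    (h5 : 16 * z0 ≤ 10 * (z0 + 4 * nb)) (h6 : 3 * (z0 + 4 * nb) ≤ 5 * z0) (τ : ℝ)
    (hτ : τ = Real.log Y / 2 - Real.log x0 -
      ∑ b ∈ Finset.range nb, Real.log (((z0 : ℝ) + 4 * b + 4) / (z0 + 4 * b + 2))) :
    1 / 40 / (z0 : ℝ) ≤ τ ∧
      τ ≤ ∑ b ∈ Finset.range nb, gz (z0 + 4 * b) - 1 / 40 / (z0 : ℝ) := by
  have hz0R : (1000000 : ℝ) ≤ z0 := by exact_mod_cast hz0big
  have hnbnn : (0 : ℝ) ≤ nb := Nat.cast_nonneg _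
  have h5R : 16 * (z0 : ℝ) ≤ 10 * (z0 + 4 * nb) := by
    exact_mod_cast h5
  have h6R : 3 * ((z0 : ℝ) + 4 * nb) ≤ 5 * z0 := by
    exact_mod_cast h6
  set ze : ℝ := (z0 : ℝ) + 4 * nb with hze
  have hy0 : 2 * Real.log x0 = Real.log (x0 ^ 2) := by
    rw [Real.log_pow]; norm_num
  set y0 : ℝ := x0 ^ 2 with hy0d
  have hzepos : 0 < ze := by linarith
  have hB := sumB_le z0 nb (by omega)
  have hA := sumA_ge z0 nb (by omega) (by omega)
  rw [rr_sum_gz z0 nb (by omega)]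
  set SB := ∑ b ∈ Finset.range nb, Real.log (((z0 : ℝ) + 4 * b + 4) / (z0 + 4 * b + 2)) with hSB
  set SA := ∑ b ∈ Finset.range nb, Real.log (((z0 : ℝ) + 4 * b + 3) / (z0 + 4 * b + 1)) with hSA
  have h2τ : 2 * τ = Real.log Y - Real.log y0 - 2 * SB := by
    rw [hτ, ← hy0]; ring
  have hzei : 1 / ze ≤ 10 / 16 / z0 := by
    rw [div_div, div_le_div_iff₀ hzepos (by positivity)]
    linarith
  have hzei' : 1 / (ze + 45 / 100) ≤ 1 / ze :=
    div_le_div_of_nonneg_left (by norm_num) hzepos (by linarith)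
  have hz2 : 1 / (z0 : ℝ) ^ 2 ≤ 1 / 1000000 * (1 / z0) := by
    have : (1 : ℝ) / z0 ≤ 1 / 1000000 := by
      apply div_le_div_of_nonneg_left (by norm_num) (by norm_num) hz0R
    have e : 1 / (z0 : ℝ) ^ 2 = 1 / z0 * (1 / z0) := by field_simp
    rw [e]
    exact mul_le_mul_of_nonneg_right this (by positivity)
  have hz1 : (1 - 1 / 1000000) * (1 / (z0 : ℝ)) ≤ 1 / (z0 + 1) := by
    rw [le_div_iff₀ (by positivity)]
    have : (1 : ℝ) / z0 ≤ 1 / 1000000 := by
      apply div_le_div_of_nonneg_left (by norm_num) (by norm_num) hz0R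
    have e : (1 - 1 / 1000000) * (1 / (z0 : ℝ)) * (z0 + 1) =
        (1 - 1 / 1000000) * (1 + 1 / z0) := by field_simp
    rw [e]
    nlinarith
  constructor
  · -- lower bound
    have hB' : 2 * SB ≤ Real.log (ze + 1) - Real.log (z0 + 1) := by
      rw [← Real.log_div (by positivity) (by positivity)]
      exact hB
    have l1 : Real.log (ze + 45 / 100) ≤ Real.log Y := Real.log_le_log (by positivity) hY1
    have l2 : Real.log y0 ≤ Real.log (z0 + 55 / 100) := Real.log_le_log (by positivity) hy2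
    have l3 : Real.log (ze + 1) - Real.log (ze + 45 / 100) ≤ 55 / 100 * (1 / (ze + 45 / 100)) := by
      rw [← Real.log_div (by positivity) (by positivity)]
      have := Real.log_le_sub_one_of_pos (x := (ze + 1) / (ze + 45 / 100)) (by positivity)
      have e : (ze + 1) / (ze + 45 / 100) - 1 = 55 / 100 * (1 / (ze + 45 / 100)) := by
        field_simp; ring
      linarith
    have l4 : 45 / 100 * (1 / ((z0 : ℝ) + 1)) ≤ Real.log (z0 + 1) - Real.log (z0 + 55 / 100) := by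
      rw [← Real.log_div (by positivity) (by positivity)]
      have := Real.one_sub_inv_le_log_of_pos (x := ((z0 : ℝ) + 1) / (z0 + 55 / 100))
        (by positivity)
      have e : 1 - (((z0 : ℝ) + 1) / (z0 + 55 / 100))⁻¹ = 45 / 100 * (1 / ((z0 : ℝ) + 1)) := by
        field_simp; ring
      linarith
    have e1 : 1 / 40 / (z0 : ℝ) = 1 / 40 * (1 / z0) := by ring
    have e2 : 10 / 16 / (z0 : ℝ) = 10 / 16 * (1 / z0) := by ring
    have hp : 0 < 1 / (z0 : ℝ) := by positivity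
    rw [e1]
    rw [e2] at hzei
    nlinarith
  · -- upper bound
    have hA' : Real.log ze - Real.log z0 - 4 / (z0 : ℝ) ^ 2 ≤ 2 * SA := by
      rw [← Real.log_div (by positivity) (by positivity)]
      exact hA
    have l1 : Real.log Y ≤ Real.log (ze + 55 / 100) := Real.log_le_log (by linarith) hY2
    have l2 : Real.log (z0 + 45 / 100) ≤ Real.log y0 := Real.log_le_log (by positivity) hy1
    have l3 : Real.log (ze + 55 / 100) - Real.log ze ≤ 55 / 100 * (1 / ze) := by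
      rw [← Real.log_div (by positivity) (by positivity)]
      have := Real.log_le_sub_one_of_pos (x := (ze + 55 / 100) / ze) (by positivity)
      have e : (ze + 55 / 100) / ze - 1 = 55 / 100 * (1 / ze) := by
        field_simp; ring
      linarith
    have l4 : 45 / 100 * (1 / ((z0 : ℝ) + 1)) ≤ Real.log (z0 + 45 / 100) - Real.log z0 := by
      rw [← Real.log_div (by positivity) (by positivity)]
      have := Real.one_sub_inv_le_log_of_pos (x := ((z0 : ℝ) + 45 / 100) / z0)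
        (by positivity)
      have e : 1 - (((z0 : ℝ) + 45 / 100) / z0)⁻¹ = 45 / 100 * (1 / ((z0 : ℝ) + 45 / 100)) := by
        field_simp; ring
      have e' : 1 / ((z0 : ℝ) + 1) ≤ 1 / ((z0 : ℝ) + 45 / 100) :=
        div_le_div_of_nonneg_left (by norm_num) (by positivity) (by linarith)
      linarith
    have e1 : 1 / 40 / (z0 : ℝ) = 1 / 40 * (1 / z0) := by ring
    have e2 : 10 / 16 / (z0 : ℝ) = 10 / 16 * (1 / z0) := by ring
    have e3 : 4 / (z0 : ℝ) ^ 2 = 4 * (1 / (z0 : ℝ) ^ 2) := by ring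
    have hp : 0 < 1 / (z0 : ℝ) := by positivity
    rw [e1]
    rw [e2] at hzei
    rw [e3] at hA'
    nlinarith

end Pool.Agent.Lib.MP_6b2d39_agHl
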