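import Pool.Agent.Lib.MP_6b2d39_agHl.SubR
import Pool.Agent.Lib.MP_6b2d39_agHl.EndR
import Pool.Agent.Lib.MP_ed661f_ag.X.DensGz

set_option autoImplicit false

namespace Pool.Agent.Lib.MP_6b2d39_agHl

open Pool.Agent.Lib.MP_ed661f_ag.G Pool.Agent.Lib.MP_ed661f_ag.H Pool.Agent.Lib.MP_ed661f_ag.X

/-- HL24. As `chainX` (`Lib/MP_ed661f_ag/X/ChainX.lean`): `density` at `τ - ε`, `η = 2 ε`,
`exp (2 ε) ≤ 1 + 4 ε`, `end_R` -/
theorem chainR : ∃ T0 : ℝ, ∀ t : ℝ, T0 ≤ t → ∃ (s : ℕ) (x : ℝ), RchD 1 s x ∧ √t ≤ x ∧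
    x ≤ √t * (1 + Real.exp (-((16 * t) ^ (1 / 20 : ℝ)))) := by
  obtain ⟨Z0, hZ0⟩ := density
  obtain ⟨T1, hT1⟩ := end_R
  obtain ⟨T2, hT2⟩ := chain_of_subsetR
  refine ⟨max (max T1 T2) (max (2 * (Z0 : ℝ)) 10), fun t ht => ?_⟩
  have ht1 : T1 ≤ t := le_trans (le_trans (le_max_left _ _) (le_max_left _ _)) ht
  have ht2 : T2 ≤ t := le_trans (le_trans (le_max_right _ _) (le_max_left _ _)) ht
  have ht3 : 2 * (Z0 : ℝ) ≤ t := le_trans (le_trans (le_max_left _ _) (le_max_right _ _)) ht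
  have ht4 : (10 : ℝ) ≤ t := le_trans (le_trans (le_max_right _ _) (le_max_right _ _)) ht
  obtain ⟨z0, nb, τ, h6, h7, h8, t1, t2, hU⟩ := hT2 t ht2
  obtain ⟨e1, e2, e3⟩ := hT1 t z0 ht1 h6
  obtain ⟨ε, hε⟩ : ∃ ε : ℝ, ε = Real.exp (-((z0 : ℝ) ^ (1 / 19 : ℝ) / 3)) := ⟨_, rfl⟩
  rw [← hε] at e1 e2 e3
  have hε0 : 0 < ε := by rw [hε]; exact Real.exp_pos _
  have hz0R : (0 : ℝ) < z0 := by linarith
  have hz0Z : Z0 ≤ z0 := by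
    have h1 : (Z0 : ℝ) ≤ z0 := by linarith
    exact_mod_cast h1
  have f1 : 1 / 50 / (z0 : ℝ) + 1 / 200 / (z0 : ℝ) = 1 / 40 / (z0 : ℝ) := by
    rw [← add_div]; norm_num
  have f2 : 0 < 1 / 200 / (z0 : ℝ) := by positivity
  obtain ⟨U, hUs, hU1⟩ := hZ0 z0 hz0Z nb h7 h8 (τ - ε) (by linarith) (by linarith)
  rw [← hε, abs_lt] at hU1
  obtain ⟨s, x, hr, hx1, hx2⟩ := hU U hUs (2 * ε) (by linarith) (by linarith) (by linarith)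
  refine ⟨s, x, hr, hx1, hx2.trans ?_⟩
  refine mul_le_mul_of_nonneg_left ?_ (Real.sqrt_nonneg t)
  have g1 : Real.exp (2 * ε) ≤ 1 + 4 * ε := by
    have g2 : Real.exp (-(2 * ε)) ≥ 1 - 2 * ε := by linarith [Real.add_one_le_exp (-(2 * ε))]
    have g3 : Real.exp (2 * ε) * Real.exp (-(2 * ε)) = 1 := by
      rw [← Real.exp_add, add_neg_cancel, Real.exp_zero]
    have g4 : Real.exp (2 * ε) * (1 - 2 * ε) ≤ 1 :=
      (mul_le_mul_of_nonneg_left g2 (Real.exp_pos _).le).trans g3.le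
    have g5 : 1 ≤ (1 + 4 * ε) * (1 - 2 * ε) := by nlinarith
    have g6 : 0 < 1 - 2 * ε := by linarith
    exact le_of_mul_le_mul_right (g4.trans g5) g6
  linarith

end Pool.Agent.Lib.MP_6b2d39_agHl
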