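import Pool.Agent.Lib.MP_6b2d39_agHl.Defs

set_option autoImplicit false

namespace Pool.Agent.Lib.MP_6b2d39_agHl

private theorem cb_mem {s n : ℕ} (hs : 1 ≤ s) {r : ℕ → ℕ} {c i : ℕ}
    (hi : i ∈ (Finset.range n).filter fun i => s * i ≤ c ∧ c < s * i + r i) :
    i < n ∧ i ≤ c / s ∧ s * i ≤ c ∧ c < s * i + r i := by
  rw [Finset.mem_filter, Finset.mem_range] at hi
  refine ⟨hi.1, ?_, hi.2⟩
  rw [Nat.le_div_iff_mul_le (by omega), mul_comm]
  exact hi.2.1

private theorem cb_le {s n : ℕ} (hs : 1 ≤ s) {r : ℕ → ℕ} {c b : ℕ} (h : b < kk s n r c) :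
    b ≤ c / s := by
  have h1 : ((Finset.range n).filter fun i => s * i ≤ c ∧ c < s * i + r i) ⊆
      Finset.range (c / s + 1) := by
    intro i hi
    rw [Finset.mem_range]
    have := (cb_mem hs hi).2.1
    omega
  have h2 := Finset.card_le_card h1
  rw [Finset.card_range] at h2
  unfold kk at h
  omega

/-- If at least `b + 1` intervals contain `c`, then one with index `i ≤ c / s - b` does.
(the indices satisfy `i ≤ c / s`) -/
theorem exists_small {s n : ℕ} (hs : 1 ≤ s) {r : ℕ → ℕ} {c b : ℕ} (h : b < kk s n r c) :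
    ∃ i l : ℕ, i < n ∧ c / s = b + l ∧ i ≤ l ∧ s * i ≤ c ∧ c < s * i + r i := by
  have hb := cb_le hs h
  by_contra hcon
  have h1 : ((Finset.range n).filter fun i => s * i ≤ c ∧ c < s * i + r i) ⊆
      Finset.Ioc (c / s - b) (c / s) := by
    intro i hi
    obtain ⟨h2, h3, h4, h5⟩ := cb_mem hs hi
    rw [Finset.mem_Ioc]
    refine ⟨?_, h3⟩
    by_contra h6
    exact hcon ⟨i, c / s - b, h2, by omega, by omega, h4, h5⟩
  have h2 := Finset.card_le_card h1
  rw [Nat.card_Ioc] at h2
  unfold kk at h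
  omega

/-- The same with one index `R` left out: `b ≥ 1`, at least `b` indices `≠ R`; if `R = 0` they are
`≥ 1`, so one of them is `≤ l + 1`; if the interval of `R` is contained in the block `c / s = R`
(`r R ≤ s`), one of them is `≤ l`. -/
theorem exists_small_pos {s n : ℕ} (hs : 1 ≤ s) {r : ℕ → ℕ} {c b : ℕ} (hb : 1 ≤ b)
    (h : b < kk s n r c) :
    ∃ i l : ℕ, i < n ∧ 1 ≤ i ∧ c / s = b + l ∧ i ≤ l + 1 ∧ s * i ≤ c ∧ c < s * i + r i := by
  have hb' := cb_le hs h
  by_contra hcon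
  have h1 : ((Finset.range n).filter fun i => s * i ≤ c ∧ c < s * i + r i).erase 0 ⊆
      Finset.Ioc (c / s - b + 1) (c / s) := by
    intro i hi
    rw [Finset.mem_erase] at hi
    obtain ⟨h2, h3, h4, h5⟩ := cb_mem hs hi.2
    have h0 := hi.1
    rw [Finset.mem_Ioc]
    refine ⟨?_, h3⟩
    by_contra h6
    exact hcon ⟨i, c / s - b, h2, by omega, by omega, by omega, h4, h5⟩
  have h2 := Finset.card_le_card h1
  have h3 := Finset.pred_card_le_card_erase
    (s := (Finset.range n).filter fun i => s * i ≤ c ∧ c < s * i + r i) (a := 0)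
  rw [Nat.card_Ioc] at h2
  unfold kk at h
  omega

theorem exists_small_ne {s n : ℕ} (hs : 1 ≤ s) {r : ℕ → ℕ} {c b R : ℕ} (hb : 1 ≤ b)
    (hR : r R ≤ s) (h : b < kk s n r c) :
    ∃ i l : ℕ, i < n ∧ i ≠ R ∧ c / s = b + l ∧ i ≤ l ∧ s * i ≤ c ∧ c < s * i + r i := by
  by_cases hm : s * R ≤ c ∧ c < s * R + r R
  · have hb' := cb_le hs h
    have hRc : c / s = R := by
      apply Nat.div_eq_of_lt_le
      · rw [mul_comm]
        exact hm.1
      · have : (R + 1) * s = s * R + s := by ring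
        rw [this]
        omega
    by_contra hcon
    have h1 : ((Finset.range n).filter fun i => s * i ≤ c ∧ c < s * i + r i).erase R ⊆
        Finset.Ioo (c / s - b) (c / s) := by
      intro i hi
      rw [Finset.mem_erase] at hi
      obtain ⟨h2, h3, h4, h5⟩ := cb_mem hs hi.2
      have h0 := hi.1
      rw [Finset.mem_Ioo]
      refine ⟨?_, by omega⟩
      by_contra h6
      exact hcon ⟨i, c / s - b, h2, h0, by omega, by omega, h4, h5⟩
    have h2 := Finset.card_le_card h1
    have h3 := Finset.pred_card_le_card_erase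
      (s := (Finset.range n).filter fun i => s * i ≤ c ∧ c < s * i + r i) (a := R)
    rw [Nat.card_Ioo] at h2
    unfold kk at h
    omega
  · obtain ⟨i, l, h1, h2, h3, h4, h5⟩ := exists_small hs h
    refine ⟨i, l, h1, ?_, h2, h3, h4, h5⟩
    rintro rfl
    exact hm ⟨h4, h5⟩

end Pool.Agent.Lib.MP_6b2d39_agHl
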