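import Pool.Agent.Lib.MP_6b2d39_agNw.Defs

/-!
Homogeneous systems, polylogarithmic window (THEOREM HL): definitions.

A diagram is given by its rows `r : ℕ → ℕ`, `b < n` (`dgm r n`, cells `(a, b)` with `a < r b`, the
monomials `x ^ a * y ^ b`).  A step of length `s` restricts to the curve `y = x ^ s` and replaces
the rows `r` by the rows `stp s n r`.
-/

open Polynomial

set_option autoImplicit false

namespace Pool.Agent.Lib.MP_6b2d39_agHl

open Pool.Agent.Lib.MP_6b2d39_ag Pool.Agent.Lib.MP_6b2d39_ag.Rel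
  Pool.Agent.Lib.MP_6b2d39_agNw

/-- There are points of `ℂ²` such that no nonzero polynomial supported on `P` has multiplicity
`m i` at the point `i`, for every `i ∈ J`. (`EmpP` without conditions on the coordinates) -/
def EmpQ {ι : Type} (P : Finset (ℕ × ℕ)) (m : ι → ℕ) (J : Finset ι) : Prop :=
  ∃ x y : ι → ℂ, ∀ f : ℂ[X][X], SuppP P f →
    (∀ i ∈ J, Cond (Finset.Icc 1 (m i)) (x i) (y i) f) → f = 0

/-- the rows of the triangle of side `N` -/
def tri (N b : ℕ) : ℕ := N - b

/-- number of the rows `i < n` whose interval `[s i, s i + r i)` contains `c` -/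
def kk (s n : ℕ) (r : ℕ → ℕ) (c : ℕ) : ℕ :=
  ((Finset.range n).filter fun i => s * i ≤ c ∧ c < s * i + r i).card

/-- the rows after a step of length `s` -/
def stp (s n : ℕ) (r : ℕ → ℕ) (b : ℕ) : ℕ :=
  ((Finset.range (s * n + ∑ i ∈ Finset.range n, r i)).filter fun c => b < kk s n r c).card

/-- rows obtained by steps -/
def Red (n : ℕ) : (ℕ → ℕ) → (ℕ → ℕ) → Prop :=
  Relation.ReflTransGen fun r r' => ∃ s, 1 ≤ s ∧ r' = stp s n r

/-- the curve `y - x ^ s` (outer variable `x`, inner variable `y`) -/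
noncomputable def fs (s : ℕ) : ℂ[X][X] := C X - X ^ s

/-- restriction to the curve `y = x ^ s` -/
noncomputable def resS (s : ℕ) : ℂ[X][X] →ₐ[ℂ] ℂ[X] := aevalAeval (X ^ s) X

/-- the part of weight `c` of `G` (`x` has weight `1`, `y` has weight `s`), as a polynomial in
`t = y / x ^ s` -/
noncomputable def face (s c : ℕ) (G : ℂ[X][X]) : ℂ[X] :=
  ∑ i ∈ (Finset.range (c + 1)).filter (fun i => s * i ≤ c),
    C ((G.coeff (c - s * i)).coeff i) * X ^ i

/-- the sum of `clamp (T - P l) 0 s`, `l = 0, 1, 2, …` (the terms with `T ≤ P l` vanish) -/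
noncomputable def ff (s P T : ℝ) : ℝ := ∑ l ∈ Finset.range ⌈T / P⌉₊, min (T - P * l) s

end Pool.Agent.Lib.MP_6b2d39_agHl
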