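import Mathlib

set_option autoImplicit false

namespace Pool.Agent.Lib.MP_6b2d39_agHl

/-- HL16. `Y = (S + n / 2) / √n`, `κ = √z / 2 + 4 + η √n (m + 3)`; from `T ≤ Y ^ 2 / 2` and the
hypothesis `(d + 3 / 2) ^ 2 ≤ Y ^ 2 + 1 / 4 - 2 √z d - 200 η d ^ 2`, which gives
`d + 1 ≤ Y - κ` (otherwise `2 κ Y` is at least the right hand side; `κ ≤ Y / 20` as
`Y ≥ 9 / 10 n`, `η √n (m + 3) ≤ 11 / 10 η Y`). -/
theorem deg_neg : ∃ N0 : ℕ, ∀ (n : ℕ) (z η : ℝ), N0 ≤ n → (N0 : ℝ) ≤ z → z ≤ n → 0 < η →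
    η ≤ 1 / 1000 → ∀ (d m : ℕ) (S T : ℝ), √n ≤ m + 1 → n * m ≤ S → S ≤ n * (m + 1) →
    T ≤ (S + n / 2) ^ 2 / (2 * n) →
    ((d : ℝ) + 1) * (d + 2) / 2 - T ≤ -(√z * d + 100 * η * (d : ℝ) ^ 2) →
    (d : ℝ) + 1 ≤ (S + n / 2) / √n - (√z / 2 + 4 + η * √n * (m + 3)) := by
  refine ⟨10000, ?_⟩
  intro n z η hn hz hzn hη hη1 d m S T hm hS1 _ hT hd
  set s : ℝ := √(n : ℝ) with hs
  set t : ℝ := √z with ht
  have hn' : (10000 : ℝ) ≤ n := by exact_mod_cast hn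
  have hz' : (10000 : ℝ) ≤ z := by
    have : ((10000 : ℕ) : ℝ) = 10000 := by norm_num
    linarith
  have hs2 : s ^ 2 = n := Real.sq_sqrt (by linarith)
  have hs100 : 100 ≤ s := Real.le_sqrt_of_sq_le (by linarith)
  have ht100 : 100 ≤ t := Real.le_sqrt_of_sq_le (by linarith)
  have hts : t ≤ s := Real.sqrt_le_sqrt hzn
  have hs0 : 0 < s := by linarith
  rw [← hs2] at hS1 hT ⊢
  set Y : ℝ := (S + s ^ 2 / 2) / s with hY
  have hYs : Y * s = S + s ^ 2 / 2 := by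
    rw [hY]
    field_simp
  have hT2 : T ≤ Y ^ 2 / 2 := by
    refine hT.trans (le_of_eq ?_)
    rw [← hYs]
    field_simp
  have hY1 : s * (m + 1 / 2) ≤ Y := by
    have h1 : s * (m + 1 / 2) * s ≤ Y * s := by
      rw [hYs]
      linarith
    exact le_of_mul_le_mul_right h1 hs0
  have hY2 : 99 * s ≤ Y := by
    have h1 : s * 99 ≤ s * (m + 1 / 2) := mul_le_mul_of_nonneg_left (by linarith) hs0.le
    linarith
  have hY0 : 0 < Y := by linarith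
  have hm3 : s * (m + 3) ≤ 11 / 10 * Y := by
    have h1 : s * (m + 3) ≤ s * (11 / 10 * (m + 1 / 2)) :=
      mul_le_mul_of_nonneg_left (by linarith) hs0.le
    linarith
  have hκ1 : η * s * (m + 3) ≤ η * (11 / 10 * Y) := by
    have := mul_le_mul_of_nonneg_left hm3 hη.le
    linarith
  have hηY : η * Y ≤ 1 / 1000 * Y := mul_le_mul_of_nonneg_right hη1 hY0.le
  set κ : ℝ := t / 2 + 4 + η * s * (m + 3) with hκ
  have hκY : κ ≤ Y / 20 := by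
    rw [hκ]
    linarith
  by_contra hcon
  push Not at hcon
  have he : 19 / 20 * Y < (d : ℝ) + 1 := by linarith
  have he0 : 0 ≤ Y - κ := by linarith
  have hsq : (Y - κ) ^ 2 ≤ ((d : ℝ) + 1) ^ 2 := pow_le_pow_left₀ he0 hcon.le 2
  have hd0 : (0 : ℝ) ≤ d := Nat.cast_nonneg d
  have hdY : 9 / 10 * Y ≤ d := by linarith
  have hd2 : (9 / 10 * Y) ^ 2 ≤ (d : ℝ) ^ 2 := pow_le_pow_left₀ (by linarith) hdY 2
  have h1 : 200 * η * (9 / 10 * Y) ^ 2 ≤ 200 * η * (d : ℝ) ^ 2 :=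
    mul_le_mul_of_nonneg_left hd2 (by linarith)
  have h2 : 2 * t * (9 / 10 * Y) ≤ 2 * t * d := mul_le_mul_of_nonneg_left hdY (by linarith)
  have h3 : (η * s * (m + 3)) * Y ≤ η * (11 / 10 * Y) * Y :=
    mul_le_mul_of_nonneg_right hκ1 hY0.le
  have h4 : 100 * Y ≤ t * Y := mul_le_mul_of_nonneg_right ht100 hY0.le
  have h5 : 0 ≤ η * Y ^ 2 := by positivity
  have h6 : 2 * κ * Y = t * Y + 8 * Y + 2 * ((η * s * (m + 3)) * Y) := by
    rw [hκ]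
    ring
  have h7 := sq_nonneg κ
  linarith

end Pool.Agent.Lib.MP_6b2d39_agHl
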