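import Mathlib

set_option autoImplicit false

namespace Pool.Agent.Lib.MP_6b2d39_agHl

/-- HL18. `Y = (S + n / 2) / √n ≥ 9 / 10 n`. The hypotheses give
`(d + 3 / 2) ^ 2 ≥ Y ^ 2 - n / 4 + 2 √z d + 200 η d ^ 2`, first `d ≥ 98 / 100 Y` (so `d ≥ m`), then
the claim: otherwise `(d + 3 / 2) ^ 2 ≤ (Y + κ) ^ 2 (1 + 201 / 100 η)`, `κ = √z / 2 + 2 + η √n`. -/
theorem deg_pos : ∃ N0 : ℕ, ∀ (n : ℕ) (z η : ℝ), N0 ≤ n → (N0 : ℝ) ≤ z → z ≤ n → 0 < η →
    η ≤ 1 / 1000 → ∀ (d m : ℕ) (S T : ℝ), √n ≤ m + 1 → n * m ≤ S → S ≤ n * (m + 1) →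
    (S + n / 2) ^ 2 / (2 * n) - n / 8 ≤ T →
    √z * d + 100 * η * (d : ℝ) ^ 2 ≤ ((d : ℝ) + 1) * (d + 2) / 2 - T →
    (S + n / 2) / √n + √z / 2 + 2 + η * √n ≤ (1 - η) * (d + 2) ∧ m ≤ d := by
  refine ⟨10000, fun n z η hn hz hzn hη hη' d m S T h1 h2 h3 h4 h5 => ?_⟩
  have hnR : (10000 : ℝ) ≤ n := by exact_mod_cast hn
  push_cast at hz
  obtain ⟨s, hs⟩ : ∃ s, s = √(n : ℝ) := ⟨_, rfl⟩
  obtain ⟨r, hr⟩ : ∃ r, r = √z := ⟨_, rfl⟩
  have hss : s * s = n := by
    rw [hs]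
    exact Real.mul_self_sqrt (by linarith)
  have hrr : r * r = z := by
    rw [hr]
    exact Real.mul_self_sqrt (by linarith)
  rw [← hs] at h1 ⊢
  rw [← hr] at h5 ⊢
  have hs0 : 0 ≤ s := by rw [hs]; exact Real.sqrt_nonneg _
  have hr0 : 0 ≤ r := by rw [hr]; exact Real.sqrt_nonneg _
  have hs100 : 100 ≤ s := by
    rw [hs, Real.le_sqrt' (by norm_num)]
    linarith
  have hr100 : 100 ≤ r := by
    rw [hr, Real.le_sqrt' (by norm_num)]
    linarith
  have hrs : r ≤ s := by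
    rw [hr, hs]
    exact Real.sqrt_le_sqrt hzn
  have hs2 : 100 * s ≤ s * s := mul_le_mul_of_nonneg_right hs100 hs0
  obtain ⟨Y, hY⟩ : ∃ Y, Y = (S + n / 2) / s := ⟨_, rfl⟩
  have hYs : Y * s = S + n / 2 := by
    rw [hY]
    field_simp
  rw [← hY]
  have hYY : (S + n / 2) ^ 2 / (2 * n) = Y * Y / 2 := by
    rw [← hYs, ← hss]
    field_simp
  rw [hYY] at h4
  obtain ⟨x, hx⟩ : ∃ x : ℝ, x = d := ⟨_, rfl⟩
  rw [← hx] at h5 ⊢
  have hx0 : 0 ≤ x := by rw [hx]; positivity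
  have hm0 : (0 : ℝ) ≤ m := by positivity
  -- `Y ≥ 9 n / 10`
  have hY1 : s * s - s / 2 ≤ Y := by
    have h6 : s * (s * s - s / 2) ≤ s * Y := by
      have h7 : (n : ℝ) * (s - 1) ≤ n * m := mul_le_mul_of_nonneg_left (by linarith) (by linarith)
      have h8 : s * (s * s - s / 2) = n * (s - 1) + n / 2 := by rw [← hss]; ring
      rw [h8, mul_comm s Y, hYs]
      linarith
    exact le_of_mul_le_mul_left h6 (by linarith)
  have hY2 : 9 / 10 * (n : ℝ) ≤ Y := by linarith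
  have hY3 : 9000 ≤ Y := by linarith
  have hmain : 2 * (r * x) + 200 * (η * (x * x)) ≤ (x + 3 / 2) * (x + 3 / 2) - 1 / 4 - Y * Y + n / 4 := by
    linarith
  have hrx : 0 ≤ r * x := mul_nonneg hr0 hx0
  have hηx : 0 ≤ η * (x * x) := mul_nonneg hη.le (mul_nonneg hx0 hx0)
  have hd1 : 98 / 100 * Y ≤ x := by
    by_contra hcon
    rw [not_le] at hcon
    have h6 : (x + 3 / 2) * (x + 3 / 2) ≤ (98 / 100 * Y + 3 / 2) * (98 / 100 * Y + 3 / 2) :=
      mul_self_le_mul_self (by linarith) (by linarith)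
    have h7 : 9000 * Y ≤ Y * Y := mul_le_mul_of_nonneg_right hY3 (by linarith)
    linarith
  refine ⟨?_, ?_⟩
  · by_contra hcon
    rw [not_le] at hcon
    obtain ⟨k, hk⟩ : ∃ k, k = r / 2 + 2 + η * s := ⟨_, rfl⟩
    have hηs : η * s ≤ s / 1000 := by
      have := mul_le_mul_of_nonneg_right hη' hs0
      linarith
    have hηs0 : 0 ≤ η * s := mul_nonneg hη.le hs0
    have hk0 : 0 ≤ k := by rw [hk]; linarith
    have hks : k ≤ s * (53 / 100) := by rw [hk]; linarith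
    have hkk : k * k ≤ s * (53 / 100) * (s * (53 / 100)) := mul_self_le_mul_self hk0 hks
    have hA : k * k + n / 4 ≤ 14 / 10 * Y := by
      linarith
    have hB : k ≤ 1 / 10 * Y := by
      linarith
    have hcon' : (1 - η) * (x + 2) < Y + k := by
      rw [hk]
      linarith
    have hsq : ((1 - η) * (x + 2)) * ((1 - η) * (x + 2)) ≤ (Y + k) * (Y + k) :=
      mul_self_le_mul_self (mul_nonneg (by linarith) (by linarith)) hcon'.le
    have hfac : 1 ≤ (1 - η) * (1 - η) * (1 + 201 / 100 * η) := by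
      have h7 : η * η ≤ η * (1 / 1000) := mul_le_mul_of_nonneg_left hη' hη.le
      have h8 : 0 ≤ η * (η * η) := mul_nonneg hη.le (mul_nonneg hη.le hη.le)
      linarith
    have hup : (x + 2) * (x + 2) ≤ (Y + k) * (Y + k) * (1 + 201 / 100 * η) := by
      have h7 : 0 ≤ (x + 2) * (x + 2) := mul_self_nonneg _
      calc (x + 2) * (x + 2) = (x + 2) * (x + 2) * 1 := by ring
        _ ≤ (x + 2) * (x + 2) * ((1 - η) * (1 - η) * (1 + 201 / 100 * η)) :=
          mul_le_mul_of_nonneg_left hfac h7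
        _ = ((1 - η) * (x + 2)) * ((1 - η) * (x + 2)) * (1 + 201 / 100 * η) := by ring
        _ ≤ _ := mul_le_mul_of_nonneg_right hsq (by linarith)
    have hYk : (Y + k) * (Y + k) ≤ 121 / 100 * (Y * Y) := by
      have := mul_self_le_mul_self (show 0 ≤ Y + k by linarith) (show Y + k ≤ 11 / 10 * Y by linarith)
      linarith
    have hC : 201 / 100 * η * ((Y + k) * (Y + k)) ≤ 3 * (η * (Y * Y)) := by
      have h7 : 201 / 100 * η * ((Y + k) * (Y + k)) ≤ 201 / 100 * η * (121 / 100 * (Y * Y)) :=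
        mul_le_mul_of_nonneg_left hYk (by linarith)
      have h8 : 0 ≤ η * (Y * Y) := mul_nonneg hη.le (mul_self_nonneg _)
      linarith
    have hD : 2 * (Y * k) ≤ Y * r + 4 * Y + η * (Y * Y) := by
      have h7 : 2 * (Y * k) = Y * r + 4 * Y + η * (Y * (2 * s)) := by rw [hk]; ring
      have h8 : 2 * s ≤ Y := by linarith
      have h9 : η * (Y * (2 * s)) ≤ η * (Y * Y) :=
        mul_le_mul_of_nonneg_left (mul_le_mul_of_nonneg_left h8 (by linarith)) hη.le
      linarith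
    have hE : 98 / 100 * (r * Y) ≤ r * x := by
      have := mul_le_mul_of_nonneg_left hd1 hr0
      linarith
    have hF : 96 / 100 * (η * (Y * Y)) ≤ η * (x * x) := by
      have h7 := mul_self_le_mul_self (show 0 ≤ 98 / 100 * Y by linarith) hd1
      have h8 := mul_le_mul_of_nonneg_left h7 hη.le
      have h9 : 0 ≤ η * (Y * Y) := mul_nonneg hη.le (mul_self_nonneg _)
      linarith
    have hG : (x + 3 / 2) * (x + 3 / 2) ≤ (x + 2) * (x + 2) :=
      mul_self_le_mul_self (by linarith) (by linarith)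
    have hH : 100 * Y ≤ r * Y := mul_le_mul_of_nonneg_right hr100 (by linarith)
    have hI : 0 ≤ η * (Y * Y) := mul_nonneg hη.le (mul_self_nonneg _)
    have hJ : (Y + k) * (Y + k) * (1 + 201 / 100 * η) =
        Y * Y + 2 * (Y * k) + k * k + 201 / 100 * η * ((Y + k) * (Y + k)) := by ring
    have hK : Y * r = r * Y := mul_comm _ _
    rw [hJ] at hup
    linarith
  · have h6 : s * m ≤ Y := by
      have h7 : s * (s * m) ≤ s * Y := by
        rw [← mul_assoc, hss, mul_comm s Y, hYs]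
        linarith
      exact le_of_mul_le_mul_left h7 (by linarith)
    have h7 : 100 * (m : ℝ) ≤ s * m := mul_le_mul_of_nonneg_right hs100 hm0
    have h8 : (m : ℝ) ≤ x := by linarith
    rw [hx] at h8
    exact_mod_cast h8

end Pool.Agent.Lib.MP_6b2d39_agHl
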