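import Pool.Agent.Lib.MP_6b2d39_agHl.Log

set_option autoImplicit false

namespace Pool.Agent.Lib.MP_6b2d39_agHl

open Pool.Agent.Lib.MP_6b2d39_agCr

private theorem vd_const (d n m : ℕ) : ((vd d (fun _ : Fin n => m) : ℤ) : ℝ) =
    (((d : ℝ) + 1) * (d + 2) - n * m * (m + 1)) / 2 := by
  unfold vd
  have h1 : (((d + 2).choose 2 : ℕ) : ℝ) = ((d : ℝ) + 1) * (d + 2) / 2 := by
    rw [Nat.cast_choose_two]
    push_cast
    ring
  have h2 : (((m + 1).choose 2 : ℕ) : ℝ) = (m : ℝ) * (m + 1) / 2 := by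
    rw [Nat.cast_choose_two]
    push_cast
    ring
  rw [Finset.sum_const, Finset.card_univ, Fintype.card_fin, nsmul_eq_mul]
  push_cast
  rw [h1, h2]
  ring

/-- HL33. in terms of the degree: `n (m + 1).choose 2 = n m (m + 1) / 2`, so
`2 vd = (d + 3 / 2) ^ 2 - n m (m + 1) - 1 / 4`; for `|d - √(n m (m + 1))| ≥ 3 L`, `L ≥ 1` large,
`|vd| ≥ 2 L d`. -/
theorem homogeneous_degree : ∃ N0 : ℕ, ∀ n m : ℕ, N0 ≤ n →
    (n : ℝ) * (m + 1) ≤ Real.exp ((n : ℝ) ^ (1 / 20 : ℝ)) →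
    ∀ d : ℕ, 4 * Real.log (n * (m + 1)) ^ 10 ≤ |(d : ℝ) - √(n * m * (m + 1))| →
    General (fun P => (Module.finrank ℂ (curves d (fun _ : Fin n => m) P) : ℤ) =
      max (vd d (fun _ : Fin n => m)) 0) := by
  obtain ⟨N0, h0⟩ := homogeneous_log
  refine ⟨max N0 3, fun n m hn hnm d hd => ?_⟩
  refine h0 n m ((le_max_left _ _).trans hn) hnm d _ (fun _ => Or.inl rfl) ?_
  have hn3 : (3 : ℝ) ≤ n := by exact_mod_cast (le_max_right _ _).trans hn
  have hm0 : (0 : ℝ) ≤ m := Nat.cast_nonneg m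
  have hd0 : (0 : ℝ) ≤ d := Nat.cast_nonneg d
  have hlog : 1 ≤ Real.log ((n : ℝ) * (m + 1)) := by
    rw [Real.le_log_iff_exp_le (by positivity)]
    have h1 : Real.exp 1 ≤ 3 := by
      have := Real.exp_one_lt_d9
      linarith
    nlinarith
  obtain ⟨L, hL⟩ : ∃ L, L = Real.log ((n : ℝ) * (m + 1)) ^ 10 := ⟨_, rfl⟩
  have hL1 : 1 ≤ L := by
    rw [hL]
    exact one_le_pow₀ hlog
  rw [← hL] at hd ⊢
  obtain ⟨s, hs⟩ : ∃ s, s = √((n : ℝ) * m * (m + 1)) := ⟨_, rfl⟩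
  have hs0 : 0 ≤ s := by
    rw [hs]
    exact Real.sqrt_nonneg _
  have hss : s ^ 2 = (n : ℝ) * m * (m + 1) := by
    rw [hs]
    exact Real.sq_sqrt (by positivity)
  rw [← hs] at hd
  rw [vd_const, ← hss]
  rcases le_total s d with h | h
  · rw [abs_of_nonneg (by linarith)] at hd
    have h1 : 4 * L * d ≤ (d - s) * (d + s) := by
      have h2 : 4 * L * d ≤ (d - s) * d := mul_le_mul_of_nonneg_right hd hd0
      nlinarith [mul_nonneg (sub_nonneg.2 h) hs0]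
    refine le_trans ?_ (le_abs_self _)
    nlinarith
  · rw [abs_of_nonpos (by linarith)] at hd
    have h1 : (d : ℝ) + 4 * L ≤ s := by linarith
    have h2 : ((d : ℝ) + 4 * L) ^ 2 ≤ s ^ 2 := pow_le_pow_left₀ (by positivity) h1 2
    refine le_trans ?_ (neg_le_abs _)
    nlinarith [mul_nonneg hd0 (sub_nonneg.2 hL1), mul_nonneg (sub_nonneg.2 hL1) (sub_nonneg.2 hL1)]

end Pool.Agent.Lib.MP_6b2d39_agHl
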