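import Pool.Agent.Lib.MP_6b2d39_agHl.Par

set_option autoImplicit false

namespace Pool.Agent.Lib.MP_6b2d39_agHl

private theorem sq_sqrt_des {t : ℝ} (h : 0 ≤ t) : √t ^ 2 = t := Real.sq_sqrt h

/-- HL19. `sC = ⌊n (1 - η) - 2 √n⌋`, `sB = sC ^ 2 / n` (rounded down), `P' = sB ^ 2 n / sC ^ 2`
(so `9 n / 10 ≤ P' ≤ sB`), `sA = ⌊√(z P' / 2)⌋`, `t = sA ^ 2 / P'`. For `√t ≤ x ≤ √t (1 + η / 3)`:
`x1 = sA / x ≤ √P'`, `x3 = sC sA / (sB x)`, `√n / (1 + η / 3) ≤ x3 ≤ √n`,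
`x2 x3 = sC ≤ n (1 - η) ≤ x3 ^ 2`. -/
theorem design : ∃ N0 : ℕ, ∀ (n : ℕ) (z η : ℝ), N0 ≤ n → (N0 : ℝ) ≤ z → z ≤ n → 0 < η →
    η ≤ 1 / 1000 → ∃ (sA sB sC : ℕ) (t : ℝ), z / 4 ≤ t ∧ t ≤ z / 2 ∧
      ∀ x : ℝ, √t ≤ x → x ≤ √t * (1 + η / 3) →
        Par n z η x (sA / x) (sB * x / sA) (sC * sA / (sB * x)) sA sB sC := by
  refine ⟨40000, fun n z η hn hz hzn hη hη' => ?_⟩
  have hz4 : (40000 : ℝ) ≤ z := by exact_mod_cast hz
  have hn4 : (40000 : ℝ) ≤ n := by exact_mod_cast hn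
  have hn0 : (0 : ℝ) < n := by linarith
  obtain ⟨c0, hc0⟩ : ∃ c0 : ℝ, c0 = n * (1 - η) - 2 * √n := ⟨_, rfl⟩
  have hsq : √(n : ℝ) * √(n : ℝ) = n := Real.mul_self_sqrt hn0.le
  have hsq200 : 200 ≤ √(n : ℝ) := by
    rw [show (200 : ℝ) = √(200 ^ 2) by rw [Real.sqrt_sq (by norm_num)]]
    exact Real.sqrt_le_sqrt (by norm_num; linarith)
  have hsq' : √(n : ℝ) ≤ n / 200 := by
    have h1 := mul_le_mul_of_nonneg_right hsq200 (Real.sqrt_nonneg (n : ℝ))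
    rw [hsq] at h1
    linarith
  have hc0' : 989 / 1000 * n ≤ c0 := by
    rw [hc0]
    have h1 := mul_le_mul_of_nonneg_left hη' hn0.le
    linarith
  obtain ⟨sC, hsC⟩ : ∃ sC : ℕ, sC = ⌊c0⌋₊ := ⟨_, rfl⟩
  obtain ⟨c, hc⟩ : ∃ c : ℝ, c = sC := ⟨_, rfl⟩
  have hc1 : c ≤ c0 := by
    rw [hc, hsC]
    exact Nat.floor_le (by linarith)
  have hc2 : c0 < c + 1 := by
    rw [hc, hsC]
    exact Nat.lt_floor_add_one c0
  have hc3 : 98 / 100 * n ≤ c := by linarith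
  have hcp : 0 < c := by linarith
  have hcn : c ≤ n * (1 - η) := by
    have : 0 ≤ √(n : ℝ) := Real.sqrt_nonneg _
    linarith
  obtain ⟨w, hw⟩ : ∃ w : ℝ, w = c ^ 2 / n := ⟨_, rfl⟩
  have hwn : w * n = c ^ 2 := by
    rw [hw]
    field_simp
  have hw1 : 96 / 100 * n ≤ w := by
    have h1 : (98 / 100 * n) ^ 2 ≤ c ^ 2 := pow_le_pow_left₀ (by positivity) hc3 2
    have h2 : 0 ≤ (n : ℝ) ^ 2 := sq_nonneg _
    rw [hw, le_div_iff₀ hn0]
    linarith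
  have hw0 : 0 < w := by linarith
  obtain ⟨sB, hsB⟩ : ∃ sB : ℕ, sB = ⌊w⌋₊ := ⟨_, rfl⟩
  obtain ⟨b, hb⟩ : ∃ b : ℝ, b = sB := ⟨_, rfl⟩
  have hb1 : b ≤ w := by
    rw [hb, hsB]
    exact Nat.floor_le hw0.le
  have hb2 : w < b + 1 := by
    rw [hb, hsB]
    exact Nat.lt_floor_add_one w
  have hb0 : 0 < b := by linarith
  obtain ⟨P, hP⟩ : ∃ P : ℝ, P = b ^ 2 / w := ⟨_, rfl⟩
  have hPw : P * w = b ^ 2 := by
    rw [hP]
    field_simp
  have hPb : P ≤ b := by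
    rw [hP, div_le_iff₀ hw0, pow_two]
    exact mul_le_mul_of_nonneg_left hb1 hb0.le
  have hPn : 9 / 10 * n ≤ P := by
    have h1 : w - 2 ≤ P := by
      rw [hP, le_div_iff₀ hw0]
      have h2 : (w - 1) ^ 2 ≤ b ^ 2 := pow_le_pow_left₀ (by linarith) (by linarith) 2
      linarith
    linarith
  have hP0 : 0 < P := by linarith
  have hPc : P * c ^ 2 = b ^ 2 * n := by
    rw [← hwn, ← hPw]
    ring
  obtain ⟨R, hR⟩ : ∃ R : ℝ, R = √(z * P / 2) := ⟨_, rfl⟩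
  have hR0 : 0 ≤ R := by
    rw [hR]
    exact Real.sqrt_nonneg _
  have hR2 : R ^ 2 = z * P / 2 := by
    rw [hR]
    exact Real.sq_sqrt (by positivity)
  have hRz : 67 / 100 * z ≤ R := by
    rw [hR]
    apply Real.le_sqrt_of_sq_le
    have h1 : 9 / 10 * z ≤ P := by linarith
    have h2 : z * (9 / 10 * z) ≤ z * P := mul_le_mul_of_nonneg_left h1 (by linarith)
    have h3 : 0 ≤ z ^ 2 := sq_nonneg _
    linarith
  obtain ⟨sA, hsA⟩ : ∃ sA : ℕ, sA = ⌊R⌋₊ := ⟨_, rfl⟩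
  obtain ⟨a, ha⟩ : ∃ a : ℝ, a = sA := ⟨_, rfl⟩
  have ha1 : a ≤ R := by
    rw [ha, hsA]
    exact Nat.floor_le hR0
  have ha2 : R < a + 1 := by
    rw [ha, hsA]
    exact Nat.lt_floor_add_one R
  have ha0 : 0 < a := by linarith
  obtain ⟨t, ht⟩ : ∃ t : ℝ, t = a ^ 2 / P := ⟨_, rfl⟩
  have htP : t * P = a ^ 2 := by
    rw [ht]
    field_simp
  have haR : a ^ 2 ≤ R ^ 2 := pow_le_pow_left₀ ha0.le ha1 2
  have haR' : R ^ 2 / 2 ≤ a ^ 2 := by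
    have h1 : (R - 1) ^ 2 ≤ a ^ 2 := pow_le_pow_left₀ (by linarith) (by linarith) 2
    have h2 : 0 ≤ R * (R - 4) := mul_nonneg hR0 (by linarith)
    linarith
  have ht1 : t ≤ z / 2 := by
    rw [ht, div_le_iff₀ hP0]
    linarith
  have ht2 : z / 4 ≤ t := by
    rw [ht, le_div_iff₀ hP0]
    linarith
  have ht0 : 0 < t := by linarith
  refine ⟨sA, sB, sC, t, ht2, ht1, fun x hx1 hx2 => ?_⟩
  rw [← ha, ← hb, ← hc]
  have hst : √t * √t = t := Real.mul_self_sqrt ht0.le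
  have hst0 : 0 < √t := Real.sqrt_pos.2 ht0
  have hx0 : 0 < x := by linarith
  have hxt : t ≤ x ^ 2 := by
    have h1 := mul_self_le_mul_self hst0.le hx1
    rw [hst] at h1
    rw [pow_two]
    exact h1
  have hE : (1 - η) * (1 + η / 3) ^ 2 ≤ 1 := by
    have h1 : 0 < η ^ 2 := by positivity
    have h2 : 0 < η ^ 3 := by positivity
    linarith
  have hxE : x ^ 2 ≤ t * (1 + η / 3) ^ 2 := by
    have h1 : x ^ 2 ≤ (√t * (1 + η / 3)) ^ 2 := pow_le_pow_left₀ hx0.le hx2 2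
    rw [mul_pow, sq_sqrt_des ht0.le] at h1
    exact h1
  have hE2 : (1 + η / 3) ^ 2 ≤ 1001 / 1000 := by
    have h1 := mul_le_mul_of_nonneg_left hη' hη.le
    linarith
  have hxz : x ^ 2 ≤ 11 / 20 * z := by
    have h1 := mul_le_mul_of_nonneg_left hE2 ht0.le
    linarith
  have hcE : c * (1 + η / 3) ^ 2 ≤ n := by
    have h1 : c * (1 + η / 3) ^ 2 ≤ n * (1 - η) * (1 + η / 3) ^ 2 :=
      mul_le_mul_of_nonneg_right hcn (by positivity)
    have h2 := mul_le_mul_of_nonneg_left hE hn0.le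
    linarith
  have hca : c ^ 2 * a ^ 2 = b ^ 2 * n * t := by
    rw [← htP, ← hPc]
    ring
  refine ⟨?_, hxz, div_pos ha0 hx0, div_pos (mul_pos hb0 hx0) ha0,
    div_pos (mul_pos hcp ha0) (mul_pos hb0 hx0), ?_, ?_, ?_, ?_, ?_, ?_, ?_, ?_, ?_, ?_, ?_⟩
  · have h1 : 1 ≤ √t := Real.one_le_sqrt.2 (by linarith)
    linarith
  · rw [ha]
    field_simp
  · rw [← hb]
    field_simp
  · rw [← hc]
    field_simp
  · rw [← ha]
    linarith
  · rw [← hb, div_pow, div_le_iff₀ (by positivity), ← htP]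
    calc t * P ≤ x ^ 2 * P := mul_le_mul_of_nonneg_right hxt hP0.le
      _ ≤ x ^ 2 * b := mul_le_mul_of_nonneg_left hPb (by positivity)
      _ = b * x ^ 2 := mul_comm _ _
  · rw [← hc, div_pow, div_le_iff₀ (by positivity), mul_pow]
    have h1 : c * (b ^ 2 * x ^ 2) ≤ c * (c * a ^ 2) := by
      calc c * (b ^ 2 * x ^ 2) = c * b ^ 2 * x ^ 2 := by ring
        _ ≤ c * b ^ 2 * (t * (1 + η / 3) ^ 2) :=
            mul_le_mul_of_nonneg_left hxE (by positivity)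
        _ = b ^ 2 * t * (c * (1 + η / 3) ^ 2) := by ring
        _ ≤ b ^ 2 * t * n := mul_le_mul_of_nonneg_left hcE (by positivity)
        _ = c * (c * a ^ 2) := by
            have h2 : c * (c * a ^ 2) = c ^ 2 * a ^ 2 := by ring
            rw [h2, hca]
            ring
    exact le_of_mul_le_mul_left h1 hcp
  · rw [div_pow, div_le_iff₀ (by positivity), mul_pow, mul_pow, hca]
    have h1 : b ^ 2 * n * t ≤ b ^ 2 * n * x ^ 2 := mul_le_mul_of_nonneg_left hxt (by positivity)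
    calc b ^ 2 * n * t ≤ b ^ 2 * n * x ^ 2 := h1
      _ = n * (b ^ 2 * x ^ 2) := by ring
  · rw [div_pow, le_div_iff₀ (by positivity), mul_pow, mul_pow, hca]
    have h0 : 0 ≤ 1 - η := by linarith
    have h1 : (1 - η) * x ^ 2 ≤ t := by
      calc (1 - η) * x ^ 2 ≤ (1 - η) * (t * (1 + η / 3) ^ 2) :=
            mul_le_mul_of_nonneg_left hxE h0
        _ = t * ((1 - η) * (1 + η / 3) ^ 2) := by ring
        _ ≤ t * 1 := mul_le_mul_of_nonneg_left hE ht0.le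
        _ = t := mul_one t
    calc n * (1 - η) * (b ^ 2 * x ^ 2) = b ^ 2 * n * ((1 - η) * x ^ 2) := by ring
      _ ≤ b ^ 2 * n * t := mul_le_mul_of_nonneg_left h1 (by positivity)
  · rw [← hc]
    linarith
  · rw [← hc]
    linarith
  · rw [← hc, ← hb, ← hwn]
    exact mul_le_mul_of_nonneg_right hb2.le hn0.le

end Pool.Agent.Lib.MP_6b2d39_agHl
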