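import Pool.Agent.Lib.MP_6b2d39_agHl.FF

set_option autoImplicit false

namespace Pool.Agent.Lib.MP_6b2d39_agHl

variable {s P T : ℝ}

private theorem sum_lin (P T : ℝ) (N : ℕ) :
    ∑ l ∈ Finset.range N, (T - P * l) = N * T - P * (N * (N - 1)) / 2 := by
  induction N with
  | zero => simp
  | succ N ih =>
    rw [Finset.sum_range_succ, ih]
    push_cast
    ring

/-- HL8. `0 < T ≤ s`, `T = P (k + θ)`, `0 < θ ≤ 1`, `k = ⌈T / P⌉₊ - 1`: all the terms are `T - P l`,
`ff s P T - s / P * (T - (s - P) / 2) = (y ^ 2 - P * y) / (2 * P) + P * θ * (1 - θ) / 2`,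
`y = s - T`. -/
theorem ff_small (hP : 0 < P) (hT : 0 < T) (hTs : T ≤ s) : ∃ θ : ℝ, 0 ≤ θ ∧ θ ≤ 1 ∧
    ff s P T - s / P * (T - (s - P) / 2) =
      ((s - T) ^ 2 - P * (s - T)) / (2 * P) + P * θ * (1 - θ) / 2 := by
  have h1 : T / P ≤ ⌈T / P⌉₊ := Nat.le_ceil _
  have h2 : (⌈T / P⌉₊ : ℝ) < T / P + 1 := Nat.ceil_lt_add_one (by positivity)
  refine ⟨T / P - ⌈T / P⌉₊ + 1, by linarith, by linarith, ?_⟩
  have h3 : ff s P T = (⌈T / P⌉₊ : ℝ) * T - P * ((⌈T / P⌉₊ : ℝ) * (⌈T / P⌉₊ - 1)) / 2 := by
    rw [← sum_lin]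
    refine Finset.sum_congr rfl fun l _ => min_eq_left ?_
    have : 0 ≤ P * l := by positivity
    linarith
  rw [h3]
  obtain ⟨N, hN⟩ : ∃ N : ℝ, N = ⌈T / P⌉₊ := ⟨_, rfl⟩
  rw [← hN]
  field_simp
  ring

/-- (c3) sharp lower bound: `ff_small` and `(y ^ 2 - P y) / (2 P) ≥ - P / 8` for `0 < T ≤ s`; for
`T > s` induction with `ff_add` (the value increases by `s` when `T` increases by `P`); trivial for
`T ≤ 0` -/
theorem le_ff_sharp (hP : 0 < P) (hPs : P ≤ s) : s / P * (T - (s - P) / 2) - P / 8 ≤ ff s P T := by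
  have key : ∀ (n : ℕ) (T : ℝ), T ≤ s + n * P →
      s / P * (T - (s - P) / 2) - P / 8 ≤ ff s P T := by
    intro n
    induction n with
    | zero =>
      intro T hT
      rw [Nat.cast_zero, zero_mul, add_zero] at hT
      rcases le_or_gt T 0 with h | h
      · rw [ff_of_nonpos hP h]
        have h1 : s / P * (T - (s - P) / 2) ≤ 0 :=
          mul_nonpos_of_nonneg_of_nonpos (div_nonneg (by linarith) hP.le) (by linarith)
        linarith
      · obtain ⟨θ, h0, h1, h2⟩ := ff_small hP h hT
        have h3 : -(P / 8) ≤ ((s - T) ^ 2 - P * (s - T)) / (2 * P) := by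
          rw [le_div_iff₀ (by positivity)]
          nlinarith [sq_nonneg (s - T - P / 2)]
        have h4 : 0 ≤ P * θ * (1 - θ) / 2 := by
          have : 0 ≤ 1 - θ := by linarith
          positivity
        linarith
    | succ n ih =>
      intro T hT
      rcases le_or_gt T s with h | h
      · refine ih T ?_
        have : 0 ≤ (n : ℝ) * P := by positivity
        linarith
      · have h1 := ih (T - P) (by push_cast at hT; linarith)
        have h2 := ff_add (s := s) (P := P) (T := T - P) hP (by linarith)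
        rw [sub_add_cancel, min_eq_right h.le] at h2
        have h3 : s / P * (T - (s - P) / 2) = s / P * (T - P - (s - P) / 2) + s := by
          field_simp
          ring
        linarith
  obtain ⟨n, hn⟩ := exists_nat_ge ((T - s) / P)
  rw [div_le_iff₀ hP] at hn
  exact key n T (by linarith)

/-- (c4) sharp upper bound: for `s - P ≤ T ≤ s` we have `0 ≤ y ≤ P` in `ff_small` (for `T = 0`
directly) -/
theorem ff_le_sharp (hP : 0 < P) (hPs : P ≤ s) (hT : s - P ≤ T) :
    ff s P T ≤ s / P * (T - (s - P) / 2) + P / 8 := by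
  have key : ∀ (n : ℕ) (T : ℝ), s - P ≤ T → T ≤ s + n * P →
      ff s P T ≤ s / P * (T - (s - P) / 2) + P / 8 := by
    intro n
    induction n with
    | zero =>
      intro T hT' hT
      rw [Nat.cast_zero, zero_mul, add_zero] at hT
      rcases le_or_gt T 0 with h | h
      · rw [ff_of_nonpos hP h]
        have h1 : 0 ≤ s / P * (T - (s - P) / 2) :=
          mul_nonneg (div_nonneg (by linarith) hP.le) (by linarith)
        linarith
      · obtain ⟨θ, h0, h1, h2⟩ := ff_small hP h hT
        have h3 : ((s - T) ^ 2 - P * (s - T)) / (2 * P) ≤ 0 := by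
          refine div_nonpos_of_nonpos_of_nonneg ?_ (by positivity)
          have h4 : 0 ≤ s - T := by linarith
          have h5 : s - T ≤ P := by linarith
          nlinarith
        have h4 : P * θ * (1 - θ) / 2 ≤ P / 8 := by
          have : θ * (1 - θ) ≤ 1 / 4 := by nlinarith [sq_nonneg (θ - 1 / 2)]
          nlinarith
        linarith
    | succ n ih =>
      intro T hT' hT
      rcases le_or_gt T s with h | h
      · refine ih T hT' ?_
        have : 0 ≤ (n : ℝ) * P := by positivity
        linarith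
      · have h1 := ih (T - P) (by linarith) (by push_cast at hT; linarith)
        have h2 := ff_add (s := s) (P := P) (T := T - P) hP (by linarith)
        rw [sub_add_cancel, min_eq_right h.le] at h2
        have h3 : s / P * (T - (s - P) / 2) = s / P * (T - P - (s - P) / 2) + s := by
          field_simp
          ring
        linarith
  obtain ⟨n, hn⟩ := exists_nat_ge ((T - s) / P)
  rw [div_le_iff₀ hP] at hn
  exact key n T hT (by linarith)

/-- (c5) (monotone in `T`, and `ff_le_sharp` at `T = s - P`; or directly) -/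
theorem ff_le_last (hP : 0 < P) (hPs : P ≤ s) (hT : T ≤ s - P) :
    ff s P T ≤ s ^ 2 / (2 * P) := by
  rcases le_or_gt T 0 with h | h
  · rw [ff_of_nonpos hP h]
    positivity
  · obtain ⟨θ, h0, h1, h2⟩ := ff_small (s := s) hP h (by linarith)
    have h4 : P * θ * (1 - θ) / 2 ≤ P / 8 := by
      have : θ * (1 - θ) ≤ 1 / 4 := by nlinarith [sq_nonneg (θ - 1 / 2)]
      nlinarith
    have h3 : s / P * (T - (s - P) / 2) + ((s - T) ^ 2 - P * (s - T)) / (2 * P) =
        (T ^ 2 + P * T) / (2 * P) := by
      field_simp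
      ring
    have h5 : (T ^ 2 + P * T) / (2 * P) ≤ s ^ 2 / (2 * P) - P / 2 := by
      have h6 : s ^ 2 / (2 * P) - P / 2 = (s ^ 2 - P ^ 2) / (2 * P) := by
        field_simp
      rw [h6]
      refine div_le_div_of_nonneg_right ?_ (by positivity)
      nlinarith
    linarith

end Pool.Agent.Lib.MP_6b2d39_agHl
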