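import Pool.Agent.Lib.MP_6b2d39_agHl.Defs

open Polynomial

set_option autoImplicit false

namespace Pool.Agent.Lib.MP_6b2d39_agHl

open Pool.Agent.Lib.MP_6b2d39_ag Pool.Agent.Lib.MP_6b2d39_ag.Rel
  Pool.Agent.Lib.MP_6b2d39_agNw

/-- HL2. coefficients of a face (`s * i ≤ c` implies `i ≤ c`) -/
theorem face_coeff {s : ℕ} (hs : 1 ≤ s) (c : ℕ) (G : ℂ[X][X]) (i : ℕ) :
    (face s c G).coeff i = if s * i ≤ c then (G.coeff (c - s * i)).coeff i else 0 := by
  unfold face
  rw [finsetSum_coeff]
  simp only [coeff_C_mul, coeff_X_pow, mul_ite, mul_one, mul_zero]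
  rw [Finset.sum_ite_eq]
  by_cases h : s * i ≤ c
  · have h1 : i < c + 1 := by
      have : 1 * i ≤ s * i := Nat.mul_le_mul_right i hs
      omega
    rw [if_pos h, if_pos (Finset.mem_filter.2 ⟨Finset.mem_range.2 h1, h⟩)]
  · have h1 : i ∉ (Finset.range (c + 1)).filter (fun i => s * i ≤ c) := fun h1 =>
      h (Finset.mem_filter.1 h1).2
    rw [if_neg h, if_neg h1]

/-- `(y - x ^ s) G`: the coefficient of `x ^ a y ^ i` is `G (a, i - 1) - G (a - s, i)` -/
theorem face_mul {s : ℕ} (hs : 1 ≤ s) (c : ℕ) (G : ℂ[X][X]) :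
    face s (c + s) (fs s * G) = (X - 1) * face s c G := by
  have hf : ∀ a : ℕ, (fs s * G).coeff a = X * G.coeff a - (if s ≤ a then G.coeff (a - s) else 0) := by
    intro a
    unfold fs
    rw [sub_mul, coeff_sub, coeff_C_mul, coeff_X_pow_mul']
  ext i
  rw [face_coeff hs, hf, sub_mul, one_mul, coeff_sub, coeff_sub, face_coeff hs c G i]
  rcases i with _ | j
  · have h1 : s * 0 ≤ c + s := by omega
    have h2 : s * 0 ≤ c := by omega
    have h3 : s ≤ c + s - s * 0 := by omega
    have h4 : c + s - s * 0 - s = c - s * 0 := by omega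
    rw [if_pos h1, if_pos h2, if_pos h3, h4, mul_coeff_zero, mul_coeff_zero, coeff_X_zero, zero_mul,
      zero_mul]
  · rw [coeff_X_mul, coeff_X_mul, face_coeff hs c G j]
    have e : s * (j + 1) = s * j + s := by ring
    rw [e]
    by_cases h : s * j ≤ c
    · have h1 : s * j + s ≤ c + s := by omega
      have h2 : c + s - (s * j + s) = c - s * j := by omega
      rw [if_pos h1, if_pos h, h2]
      by_cases h3 : s ≤ c - s * j
      · have h4 : s * j + s ≤ c := by omega
        have h5 : c - s * j - s = c - (s * j + s) := by omega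
        rw [if_pos h3, if_pos h4, h5]
      · have h4 : ¬ s * j + s ≤ c := by omega
        rw [if_neg h3, if_neg h4, coeff_zero]
    · have h1 : ¬ s * j + s ≤ c + s := by omega
      have h2 : ¬ s * j + s ≤ c := by omega
      rw [if_neg h1, if_neg h, if_neg h2, sub_zero]

theorem face_pow_mul {s : ℕ} (hs : 1 ≤ s) (b c : ℕ) (G : ℂ[X][X]) :
    face s (c + s * b) (fs s ^ b * G) = (X - 1) ^ b * face s c G := by
  induction b with
  | zero => rw [mul_zero, add_zero, pow_zero, pow_zero, one_mul, one_mul]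
  | succ b ih =>
    have e1 : c + s * (b + 1) = (c + s * b) + s := by ring
    have e2 : fs s ^ (b + 1) * G = fs s * (fs s ^ b * G) := by ring
    rw [e1, e2, face_mul hs, ih]
    ring

end Pool.Agent.Lib.MP_6b2d39_agHl
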