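import Pool.Agent.Lib.MP_6b2d39_agHl.Num
import Pool.Agent.Lib.MP_6b2d39_agHl.DegNeg

set_option autoImplicit false

namespace Pool.Agent.Lib.MP_6b2d39_agHl

private theorem A2_eq (N : ℕ) {x x1 x2 : ℝ} (h1 : 0 < x1) :
    A2 N x x1 x2 = x2 * N - x1 * x2 / 2 + x * x2 / 2 + x2 * (x ^ 2 / (8 * x1)) := by
  unfold A2 A1
  field_simp

private theorem A3_eq (N : ℕ) {x x1 x2 x3 : ℝ} (h1 : 0 < x1) (h2 : 0 < x2) :
    A3 N x x1 x2 x3 = x3 * N - x1 * x3 / 2 + x * x3 / 2 + x ^ 2 * x3 / (8 * x1) +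
      (x3 ^ 2 - x2 * x3) := by
  unfold A3
  rw [A2_eq N h1]
  field_simp

/-- HL17. the empty side.
`A3 = x3 N - x1 x3 / 2 + x x3 / 2 + x ^ 2 x3 / (8 x1) + x3 ^ 2 - x2 x3
≤ √n N - n / 2 + 2 η n + 3 √n + 3 + (3 / 8 + 1 / 12) √z √n`;
`A2 + x1 ^ 2 / 2 ≤ x2 (N + x / 2 + x ^ 2 / (8 x1)) ≤ sC / √n (1 + η) (Y - 3 - η √n (m + 3))
≤ sC (S / n + 1 / 2) ≤ (n - 2 √n) (S / n + 1 / 2) ≤ S`;
`x3 / x2 A2 = x3 / x1 A1 ≤ A3`. -/
theorem num_neg : ∃ N0 : ℕ, ∀ (n : ℕ) (z η x x1 x2 x3 : ℝ) (sA sB sC : ℕ), N0 ≤ n →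
    (N0 : ℝ) ≤ z → z ≤ n → 0 < η → η ≤ 1 / 1000 → Par n z η x x1 x2 x3 sA sB sC →
    ∀ (d m : ℕ) (S T : ℝ), √n ≤ m + 1 → n * m ≤ S → S ≤ n * (m + 1) →
    T ≤ (S + n / 2) ^ 2 / (2 * n) →
    ((d : ℝ) + 1) * (d + 2) / 2 - T ≤ -(√z * d + 100 * η * (d : ℝ) ^ 2) →
    A3 (d + 1) x x1 x2 x3 ≤ S - η * n * (m + 1) ∧
    max (A2 (d + 1) x x1 x2) 0 + x1 ^ 2 / 2 ≤ S ∧
    x3 / x2 * max (A2 (d + 1) x x1 x2) 0 ≤ S := by
  obtain ⟨N1, hN1⟩ := par_bounds
  obtain ⟨N2, hN2⟩ := deg_neg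
  refine ⟨max (max N1 N2) 9, ?_⟩
  intro n z η x x1 x2 x3 sA sB sC hn hz hzn hη hη1 hP d m S T hm hS1 hS2 hT hd
  have hn1 : N1 ≤ n := le_trans ((le_max_left N1 N2).trans (le_max_left _ _)) hn
  have hn2 : N2 ≤ n := le_trans ((le_max_right N1 N2).trans (le_max_left _ _)) hn
  have hn9 : 9 ≤ n := le_trans (le_max_right _ _) hn
  have hz1 : (N1 : ℝ) ≤ z := le_trans (by
    exact_mod_cast (le_max_left N1 N2).trans (le_max_left _ _)) hz
  have hz2 : (N2 : ℝ) ≤ z := le_trans (by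
    exact_mod_cast (le_max_right N1 N2).trans (le_max_left _ _)) hz
  obtain ⟨b1, b2, b3, b4, b5, b6, b7, b8, b9, b10⟩ :=
    hN1 n z η x x1 x2 x3 sA sB sC hn1 hz1 hzn hη hη1 hP
  have hdeg := hN2 n z η hn2 hz2 hzn hη hη1 d m S T hm hS1 hS2 hT hd
  have p1 := hP.p1
  have p2 := hP.p2
  have p3 := hP.p3
  have hx := hP.hx
  have hn9' : (9 : ℝ) ≤ n := by exact_mod_cast hn9
  have hr2 : √(n : ℝ) * √(n : ℝ) = n := Real.mul_self_sqrt (by linarith)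
  obtain ⟨r, hr⟩ : ∃ r : ℝ, r = √(n : ℝ) := ⟨_, rfl⟩
  obtain ⟨y, hy⟩ : ∃ y : ℝ, y = √z := ⟨_, rfl⟩
  have hr0 : 0 ≤ r := hr ▸ Real.sqrt_nonneg _
  have hy0 : 0 ≤ y := hy ▸ Real.sqrt_nonneg _
  rw [← hr] at hr2 hm hdeg b1 b6 b7 b8
  rw [← hy] at hdeg b4 b5 b6
  have hr3 : 3 ≤ r := by
    rw [hr]
    exact Real.le_sqrt_of_sq_le (by linarith)
  have hrpos : 0 < r := by linarith
  have hm0 : (0 : ℝ) ≤ m := Nat.cast_nonneg m
  have hd0 : (0 : ℝ) ≤ d := Nat.cast_nonneg d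
  have hx3r : x3 ≤ r := by
    rw [hr]
    exact Real.le_sqrt_of_sq_le hP.l3
  -- `S ≥ n (r - 1)`
  have hn0 : (0 : ℝ) ≤ n := by linarith
  have hSr : n * (r - 1) ≤ S :=
    le_trans (mul_le_mul_of_nonneg_left (by linarith) hn0) hS1
  have hSn : n / 2 ≤ S := by
    have h1 : (n : ℝ) * (1 / 2) ≤ n * (r - 1) := mul_le_mul_of_nonneg_left (by linarith) hn0
    linarith
  have hS0 : 0 ≤ S := by linarith
  -- the degree
  have hrN : r * ((d : ℝ) + 1) ≤ S + n / 2 - r * y / 2 - 4 * r - η * n * (m + 3) := by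
    have h1 := mul_le_mul_of_nonneg_left hdeg hr0
    have h2 : r * ((S + n / 2) / r - (y / 2 + 4 + η * r * (m + 3))) =
        S + n / 2 - r * y / 2 - 4 * r - η * (r * r) * (m + 3) := by
      field_simp
      ring
    rw [h2, hr2] at h1
    exact h1
  have hcast : ((d + 1 : ℕ) : ℝ) = (d : ℝ) + 1 := by push_cast; ring
  -- the first inequality
  have g1 : A3 (d + 1) x x1 x2 x3 ≤ S - η * n * (m + 1) := by
    rw [A3_eq (d + 1) p1 p2, hcast]
    have h1 : x3 * ((d : ℝ) + 1) ≤ r * ((d : ℝ) + 1) :=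
      mul_le_mul_of_nonneg_right hx3r (by linarith)
    have h2 : x * x3 ≤ 3 / 4 * y * r := mul_le_mul b4 hx3r p3.le (by positivity)
    have h3 : 0 ≤ y * r := mul_nonneg hy0 hr0
    linarith
  -- the second inequality
  have hA2 : A2 (d + 1) x x1 x2 + x1 ^ 2 / 2 ≤ S := by
    have e1 : A2 (d + 1) x x1 x2 + x1 ^ 2 / 2 ≤
        x2 * ((d : ℝ) + 1 + x / 2 + x ^ 2 / (8 * x1)) := by
      rw [A2_eq (d + 1) p1, hcast]
      have h1 : x1 * x1 ≤ x1 * x2 := mul_le_mul_of_nonneg_left b9 p1.le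
      linarith
    have hpos : 0 ≤ (d : ℝ) + 1 + x / 2 + x ^ 2 / (8 * x1) := by positivity
    have e2 : (d : ℝ) + 1 + x / 2 + x ^ 2 / (8 * x1) ≤
        (S + n / 2) / r - 4 - η * r * (m + 3) := by linarith
    have e3 : x2 * ((d : ℝ) + 1 + x / 2 + x ^ 2 / (8 * x1)) ≤
        sC / r * (1 + η) * ((S + n / 2) / r - 4 - η * r * (m + 3)) :=
      mul_le_mul b8 e2 hpos (by positivity)
    have e4 : (S + n / 2) / r ≤ r * (m + 3) := by
      rw [div_le_iff₀ hrpos]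
      have : r * (m + 3) * r = n * (m + 3) := by rw [← hr2]; ring
      rw [this]
      linarith
    have e5 : (1 + η) * ((S + n / 2) / r - 4 - η * r * (m + 3)) ≤ (S + n / 2) / r := by
      have h1 : η * ((S + n / 2) / r) ≤ η * (r * (m + 3)) := mul_le_mul_of_nonneg_left e4 hη.le
      have h2 : 0 ≤ η * (η * r * (m + 3)) := by positivity
      linarith
    have e6 : sC / r * ((1 + η) * ((S + n / 2) / r - 4 - η * r * (m + 3))) ≤
        sC / r * ((S + n / 2) / r) := mul_le_mul_of_nonneg_left e5 (by positivity)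
    have e7 : sC / r * ((S + n / 2) / r) = sC * (S / n + 1 / 2) := by
      rw [← hr2]
      field_simp
    have hCle : (sC : ℝ) ≤ n - 2 * r := by
      have h1 := hP.hC
      rw [← hr] at h1
      have h2 : 0 ≤ n * η := mul_nonneg hn0 hη.le
      linarith
    have e8 : sC * (S / n + 1 / 2) ≤ (n - 2 * r) * (S / n + 1 / 2) :=
      mul_le_mul_of_nonneg_right hCle (by positivity)
    have e9 : (n - 2 * r) * (S / n + 1 / 2) ≤ S := by
      have h1 : (n - 2 * r) * (S / n + 1 / 2) = S + n / 2 - 2 * S / r - r := by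
        rw [← hr2]
        field_simp
        ring
      have h2 : 2 * n - 2 * r ≤ 2 * S / r := by
        rw [le_div_iff₀ hrpos]
        have : (2 * n - 2 * r) * r = 2 * (n * (r - 1)) + 2 * (n - r * r) := by ring
        rw [this, hr2]
        linarith
      have h3 : 3 * r ≤ n := by
        rw [← hr2]
        exact mul_le_mul_of_nonneg_right hr3 hr0
      rw [h1]
      linarith
    calc A2 (d + 1) x x1 x2 + x1 ^ 2 / 2 ≤ x2 * ((d : ℝ) + 1 + x / 2 + x ^ 2 / (8 * x1)) := e1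
      _ ≤ sC / r * (1 + η) * ((S + n / 2) / r - 4 - η * r * (m + 3)) := e3
      _ = sC / r * ((1 + η) * ((S + n / 2) / r - 4 - η * r * (m + 3))) := by ring
      _ ≤ S := by linarith
  have hx1n : x1 ^ 2 ≤ n := by
    have : x1 * x1 ≤ x1 * x3 := mul_le_mul_of_nonneg_left (b9.trans b10) p1.le
    rw [pow_two]
    linarith
  have g2 : max (A2 (d + 1) x x1 x2) 0 + x1 ^ 2 / 2 ≤ S := by
    rcases le_total (A2 (d + 1) x x1 x2) 0 with h | h
    · rw [max_eq_right h]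
      linarith
    · rw [max_eq_left h]
      exact hA2
  refine ⟨g1, g2, ?_⟩
  rcases le_total (A2 (d + 1) x x1 x2) 0 with h | h
  · rw [max_eq_right h, mul_zero]
    exact hS0
  · rw [max_eq_left h]
    have h1 : x3 / x2 * A2 (d + 1) x x1 x2 ≤ A3 (d + 1) x x1 x2 x3 := by
      unfold A3
      refine mul_le_mul_of_nonneg_left ?_ (by positivity)
      have h3 : x2 * x2 ≤ x2 * x3 := mul_le_mul_of_nonneg_left b10 p2.le
      rw [pow_two]
      linarith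
    have h2 : 0 ≤ η * n * ((m : ℝ) + 1) := by positivity
    linarith

end Pool.Agent.Lib.MP_6b2d39_agHl
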