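import Pool.Agent.Lib.MP_6b2d39_agHl.Num
import Pool.Agent.Lib.MP_6b2d39_agHl.DegPos

set_option autoImplicit false

namespace Pool.Agent.Lib.MP_6b2d39_agHl

/-- HL19. the nonempty side (`deg_pos`, `par_bounds`; `x3 ≥ √n (1 - η)`):
`L3 ≥ √n (1 - η) (N + 1) - n + (n / 2 - η n - √n - 3 / 2) - (3 / 8 + 1 / 12) √z √n`. -/
theorem num_pos : ∃ N0 : ℕ, ∀ (n : ℕ) (z η x x1 x2 x3 : ℝ) (sA sB sC : ℕ), N0 ≤ n →
    (N0 : ℝ) ≤ z → z ≤ n → 0 < η → η ≤ 1 / 1000 → Par n z η x x1 x2 x3 sA sB sC →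
    ∀ (d m : ℕ) (S T : ℝ), √n ≤ m + 1 → n * m ≤ S → S ≤ n * (m + 1) →
    (S + n / 2) ^ 2 / (2 * n) - n / 8 ≤ T →
    √z * d + 100 * η * (d : ℝ) ^ 2 ≤ ((d : ℝ) + 1) * (d + 2) / 2 - T →
    S ≤ L3 (d + 1) x x1 x3 ∧ m ≤ d := by
  obtain ⟨N1, h1⟩ := par_bounds
  obtain ⟨N2, h2⟩ := deg_pos
  refine ⟨max (max N1 N2) 9, ?_⟩
  intro n z η x x1 x2 x3 sA sB sC hn hz hzn hη hη' hp d m S T hm hS hS' hT hd
  have hN1 : N1 ≤ max (max N1 N2) 9 := (le_max_left _ _).trans (le_max_left _ _)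
  have hN2 : N2 ≤ max (max N1 N2) 9 := (le_max_right _ _).trans (le_max_left _ _)
  have hN3 : 9 ≤ n := (le_max_right _ _).trans hn
  obtain ⟨b1, -, -, b4, -, b6, -⟩ := h1 n z η x x1 x2 x3 sA sB sC (hN1.trans hn)
    ((Nat.cast_le.2 hN1).trans hz) hzn hη hη' hp
  obtain ⟨c1, c2⟩ := h2 n z η (hN2.trans hn) ((Nat.cast_le.2 hN2).trans hz) hzn hη hη' d m S T hm
    hS hS' hT hd
  refine ⟨?_, c2⟩
  have hn9 : (9 : ℝ) ≤ n := by exact_mod_cast hN3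
  obtain ⟨r, hr⟩ : ∃ r, r = √(n : ℝ) := ⟨_, rfl⟩
  obtain ⟨w, hw⟩ : ∃ w, w = √z := ⟨_, rfl⟩
  have hrr : r * r = n := by
    rw [hr]
    exact Real.mul_self_sqrt (by linarith)
  have hr3 : 3 ≤ r := by
    rw [hr]
    refine Real.le_sqrt_of_sq_le ?_
    linarith
  have hw0 : 0 ≤ w := by
    rw [hw]
    exact Real.sqrt_nonneg _
  rw [← hr] at b1 b6 c1
  rw [← hw] at b4 b6 c1
  have hx3 : x3 ≤ r := by
    have h3 := hp.l3
    have h4 := hp.p3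
    by_contra hcon
    push Not at hcon
    nlinarith
  have hx3' : r * (1 - η) ≤ x3 := by
    have h3 := hp.g3
    have h4 := hp.p3
    by_contra hcon
    push Not at hcon
    have h5 : x3 ^ 2 < (r * (1 - η)) ^ 2 := by
      rw [sq, sq]
      exact mul_self_lt_mul_self h4.le hcon
    have h6 : (r * (1 - η)) ^ 2 = n * (1 - η) * (1 - η) := by
      rw [← hrr]
      ring
    have h7 : (n : ℝ) * (1 - η) * (1 - η) ≤ n * (1 - η) * 1 :=
      mul_le_mul_of_nonneg_left (by linarith) (mul_nonneg (by linarith) (by linarith))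
    linarith
  -- the main term
  have e1 : S + n / 2 + w * r / 2 + 2 * r + η * n ≤ r * (1 - η) * (d + 2) := by
    have h3 := mul_le_mul_of_nonneg_left c1 (by linarith : (0 : ℝ) ≤ r)
    have h4 : r * ((S + n / 2) / r + w / 2 + 2 + η * r) =
        S + n / 2 + w * r / 2 + 2 * r + η * (r * r) := by
      field_simp
    rw [h4, hrr] at h3
    linarith
  have e2 : r * (1 - η) * (d + 2) ≤ x3 * (d + 2) :=
    mul_le_mul_of_nonneg_right hx3' (by positivity)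
  have e3 : x * x3 ≤ 3 / 4 * w * r :=
    mul_le_mul b4 hx3 hp.p3.le (by positivity)
  have e4 := hp.l3
  have e5 : 0 ≤ w * r := mul_nonneg hw0 (by linarith)
  unfold L3
  push_cast
  have e6 : x3 * ((d : ℝ) + 1 + 1) = x3 * (d + 2) := by ring
  rw [e6]
  linarith

end Pool.Agent.Lib.MP_6b2d39_agHl
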