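import Pool.Agent.Lib.MP_6b2d39_agHl.Design
import Pool.Agent.Lib.MP_6b2d39_agHl.ChainR

set_option autoImplicit false

namespace Pool.Agent.Lib.MP_6b2d39_agHl

open Pool.Agent.Lib.MP_ed661f_ag.H

/-- HL25. (`design` with `η = exp (-z ^ (1 / 20)) / 100`, `chainR`, `end_exp`) -/
theorem par_exists : ∃ N0 : ℕ, ∀ (n : ℕ) (z : ℝ), N0 ≤ n → (N0 : ℝ) ≤ z → z ≤ n →
    ∃ (σ : ℕ) (x x1 x2 x3 : ℝ) (sA sB sC : ℕ), RchD 1 σ x ∧
      Par n z (Real.exp (-(z ^ (1 / 20 : ℝ))) / 100) x x1 x2 x3 sA sB sC := by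
  obtain ⟨N1, hD⟩ := design
  obtain ⟨T0, hT⟩ := chainR
  obtain ⟨Z0, hZ⟩ := end_exp
  obtain ⟨N2, hN2⟩ := exists_nat_ge (max (4 * T0) Z0)
  refine ⟨max N1 N2, fun n z hn hz hzn => ?_⟩
  have hz1 : (N1 : ℝ) ≤ z := le_trans (by exact_mod_cast le_max_left N1 N2) hz
  have hz2 : (N2 : ℝ) ≤ z := le_trans (by exact_mod_cast le_max_right N1 N2) hz
  have hz3 : 4 * T0 ≤ z := (le_max_left _ _).trans (hN2.trans hz2)
  have hz4 : Z0 ≤ z := (le_max_right _ _).trans (hN2.trans hz2)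
  have hz0 : 0 ≤ z := (Nat.cast_nonneg N1).trans hz1
  obtain ⟨e1, e2⟩ := hZ z hz4
  obtain ⟨sA, sB, sC, t, ht1, ht2, hP⟩ := hD n z (Real.exp (-(z ^ (1 / 20 : ℝ))) / 100)
    ((le_max_left N1 N2).trans hn) hz1 hzn (by positivity) e2
  obtain ⟨s, x, hR, hx1, hx2⟩ := hT t (by linarith)
  have h1 : Real.exp (-((16 * t) ^ (1 / 20 : ℝ))) ≤ Real.exp (-((4 * z) ^ (1 / 20 : ℝ))) := by
    apply Real.exp_le_exp.2
    have h2 : (4 * z) ^ (1 / 20 : ℝ) ≤ (16 * t) ^ (1 / 20 : ℝ) :=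
      Real.rpow_le_rpow (by linarith) (by linarith) (by norm_num)
    linarith
  refine ⟨s, x, _, _, _, sA, sB, sC, hR, hP x hx1 (hx2.trans ?_)⟩
  refine mul_le_mul_of_nonneg_left ?_ (Real.sqrt_nonneg t)
  linarith

end Pool.Agent.Lib.MP_6b2d39_agHl
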