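import Pool.Agent.Lib.MP_6b2d39_agHl.Rows
import Pool.Agent.Lib.MP_6b2d39_agHl.RowsB
import Pool.Agent.Lib.MP_6b2d39_agHl.Count
import Pool.Agent.Lib.MP_6b2d39_agHl.FF
import Pool.Agent.Lib.MP_ed661f_ag.H.PDefs

set_option autoImplicit false

namespace Pool.Agent.Lib.MP_6b2d39_agHl

open Pool.Agent.Lib.MP_ed661f_ag.H

private theorem low_two {σ : ℕ} {x : ℝ} (h : RchD 1 σ x) : 2 ≤ x := by
  induction h with
  | start a ha =>
    rw [Nat.cast_one, Real.sqrt_one, mul_one]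
    exact_mod_cast ha
  | step σ' _ _ hx ih =>
    rw [le_div_iff₀ (by linarith)]
    nlinarith

theorem rchD_pos {σ : ℕ} {x : ℝ} (h : RchD 1 σ x) : 0 < x := by
  have := low_two h
  linarith

/-- one step of the chain -/
private theorem low_step {s N : ℕ} {r : ℕ → ℕ} {x : ℝ} (hx : 1 ≤ x) (hs : x ^ 2 ≤ s)
    (h1 : ∀ b, (r b : ℝ) ≤ max (x * N - x ^ 2 * b) 0)
    (h2 : ∀ b, x * (N + 1) - x ^ 2 - x ^ 2 * b ≤ (r b : ℝ)) :
    (∀ b, (stp s N r b : ℝ) ≤ max (s / x * N - (s / x) ^ 2 * b) 0) ∧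
    ∀ b, s / x * (N + 1) - (s / x) ^ 2 - (s / x) ^ 2 * b ≤ (stp s N r b : ℝ) := by
  have hx0 : 0 < x := by linarith
  have hP : 0 < x ^ 2 := by positivity
  have h0 : ∀ b, N ≤ b → r b = 0 := by
    intro b hb
    have hb' : (N : ℝ) ≤ b := by exact_mod_cast hb
    have hN : (0 : ℝ) ≤ N := Nat.cast_nonneg N
    have h3 : x * N - x ^ 2 * b ≤ 0 := by
      have h4 : x ^ 2 * N ≤ x ^ 2 * b := mul_le_mul_of_nonneg_left hb' hP.le
      have h5 : 0 ≤ x * N * (x - 1) := mul_nonneg (mul_nonneg hx0.le hN) (by linarith)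
      nlinarith
    have h6 := h1 b
    rw [max_eq_right h3] at h6
    exact_mod_cast le_antisymm h6 (Nat.cast_nonneg _)
  refine ⟨fun b => ?_, fun b => ?_⟩
  · refine (row_up hP hs h1 b).trans ((ff_le hP hs).trans (le_of_eq ?_))
    rw [mul_max_of_nonneg _ _ (by positivity), mul_zero]
    congr 1
    field_simp
  · refine le_trans (le_of_eq ?_) ((le_ff hP hs).trans (row_lo hP hs h0 h2 b))
    field_simp
    ring

/-- HL9. THE LOW CHAIN. Induction on `RchD 1`. Start: a step of length `a` from the triangle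
(`P = 1`, `A = N`). Step: `P = x ^ 2 ≤ s = σ'`; upper bound `row_up`, `ff_le` with `A = x N`
(`s / x ^ 2 * (x N - s b) = (s / x) N - (s / x) ^ 2 b`); lower bound `row_lo`, `le_ff` with
`A = x (N + 1) - x ^ 2`. -/
theorem low_chain {σ : ℕ} {x : ℝ} (h : RchD 1 σ x) (N : ℕ) : ∃ r, Red N (tri N) r ∧
    (∀ b, (r b : ℝ) ≤ max (x * N - x ^ 2 * b) 0) ∧
    ∀ b, x * (N + 1) - x ^ 2 - x ^ 2 * b ≤ (r b : ℝ) := by
  induction h with
  | start a ha =>
    have ha' : (1 : ℝ) ≤ a := by exact_mod_cast le_trans (by norm_num) ha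
    have h1 : ∀ b : ℕ, ((tri N b : ℕ) : ℝ) ≤ max ((1 : ℝ) * (N : ℝ) - (1 : ℝ) ^ 2 * (b : ℝ)) 0 := by
      intro b
      unfold tri
      rcases le_total b N with hb | hb
      · rw [Nat.cast_sub hb]
        refine le_trans (le_of_eq ?_) (le_max_left _ _)
        ring
      · rw [Nat.sub_eq_zero_of_le hb, Nat.cast_zero]
        exact le_max_right _ _
    have h2 : ∀ b : ℕ, (1 : ℝ) * ((N : ℝ) + 1) - (1 : ℝ) ^ 2 - (1 : ℝ) ^ 2 * (b : ℝ) ≤
        ((tri N b : ℕ) : ℝ) := by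
      intro b
      unfold tri
      rcases le_total b N with hb | hb
      · rw [Nat.cast_sub hb]
        refine le_of_eq ?_
        ring
      · rw [Nat.sub_eq_zero_of_le hb, Nat.cast_zero]
        have : (N : ℝ) ≤ b := by exact_mod_cast hb
        linarith
    obtain ⟨h3, h4⟩ := low_step (s := a) (N := N) (r := tri N) le_rfl (by simpa using ha') h1 h2
    refine ⟨stp a N (tri N), Relation.ReflTransGen.single ⟨a, by omega, rfl⟩, fun b => ?_,
      fun b => ?_⟩
    · have := h3 b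
      rw [div_one] at this
      rw [Nat.cast_one, Real.sqrt_one, mul_one]
      exact this
    · have := h4 b
      rw [div_one] at this
      rw [Nat.cast_one, Real.sqrt_one, mul_one]
      exact this
  | @step σ x σ' hr hlt hx ih =>
    obtain ⟨r, hr1, hr2, hr3⟩ := ih
    have hx2 := low_two hr
    obtain ⟨h3, h4⟩ := low_step (s := σ') (N := N) (r := r) (x := x) (by linarith)
      (by linarith) hr2 hr3
    exact ⟨stp σ' N r, hr1.tail ⟨σ', by omega, rfl⟩, h3, h4⟩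

end Pool.Agent.Lib.MP_6b2d39_agHl
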