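import Pool.Agent.Lib.MP_6b2d39_agHl.Defs

set_option autoImplicit false

namespace Pool.Agent.Lib.MP_6b2d39_agHl

/-- the parameters of the last three steps: lengths `sA`, `sB`, `sC`, slopes `x ^ 2`, `x1 ^ 2`,
`x2 ^ 2`, `x3 ^ 2` -/
structure Par (n : ℕ) (z η x x1 x2 x3 : ℝ) (sA sB sC : ℕ) : Prop where
  hx : 1 ≤ x
  hz : x ^ 2 ≤ 11 / 20 * z
  p1 : 0 < x1
  p2 : 0 < x2
  p3 : 0 < x3
  eA : x * x1 = sA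
  eB : x1 * x2 = sB
  eC : x2 * x3 = sC
  lA : x ^ 2 ≤ sA
  lB : x1 ^ 2 ≤ sB
  lC : x2 ^ 2 ≤ sC
  l3 : x3 ^ 2 ≤ n
  g3 : n * (1 - η) ≤ x3 ^ 2
  hC : sC + 2 * √n ≤ n * (1 - η)
  hC' : n * (1 - η) ≤ sC + 2 * √n + 1
  hB : (sC : ℝ) ^ 2 ≤ (sB + 1) * n

/-- upper bounds -/
noncomputable def A1 (N : ℕ) (x x1 : ℝ) : ℝ := x1 * N - x1 ^ 2 / 2 + x * x1 / 2 + x ^ 2 / 8

noncomputable def A2 (N : ℕ) (x x1 x2 : ℝ) : ℝ := x2 / x1 * A1 N x x1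

noncomputable def A3 (N : ℕ) (x x1 x2 x3 : ℝ) : ℝ :=
  x3 / x2 * (A2 N x x1 x2 + (x2 * x3 - x2 ^ 2))

/-- lower bound -/
noncomputable def L3 (N : ℕ) (x x1 x3 : ℝ) : ℝ :=
  x3 * (N + 1) - x3 ^ 2 + x1 * x3 / 2 - x * x3 / 2 - x ^ 2 * x3 / (8 * x1)

end Pool.Agent.Lib.MP_6b2d39_agHl
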