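import Pool.Agent.Lib.MP_6b2d39_agHl.Rows
import Pool.Agent.Lib.MP_6b2d39_agHl.RowsB
import Pool.Agent.Lib.MP_6b2d39_agHl.Count
import Pool.Agent.Lib.MP_6b2d39_agHl.FSharp

set_option autoImplicit false

namespace Pool.Agent.Lib.MP_6b2d39_agHl

variable {n s : ℕ} {r : ℕ → ℕ} {x x' A L : ℝ}

/-- HL10. STEP A, upper bound, sharp: `P = x ^ 2`, `s = x x'`, `T = A - s b`. For `T ≥ s - P` use
`ff_le_sharp`, for `T ≤ 0` the row is empty; at most one `b` has `0 < T < s - P` (an interval of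
length `< s`): this is `R` (`R = n` if there is none, `stp_zero`), `ff_le_last`. -/
theorem stepA_up (hx : 0 < x) (hs : x * x' = s) (hle : x ^ 2 ≤ s)
    (h : ∀ b, (r b : ℝ) ≤ max (A - x ^ 2 * b) 0) :
    ∃ R, (∀ b, b ≠ R → (stp s n r b : ℝ) ≤
        max (x' / x * (A - (s - x ^ 2) / 2) + x ^ 2 / 8 - x' ^ 2 * b) 0) ∧
      (stp s n r R : ℝ) ≤ x' ^ 2 / 2 := by
  have hx2 : 0 < x ^ 2 := by positivity
  have hx0 : x ≠ 0 := hx.ne'
  have hs0 : (0 : ℝ) < s := lt_of_lt_of_le hx2 hle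
  -- outside the interval `(0, s - P)`
  have hout : ∀ b : ℕ, ¬(0 < A - s * b ∧ A - s * b < s - x ^ 2) → (stp s n r b : ℝ) ≤
      max (x' / x * (A - (s - x ^ 2) / 2) + x ^ 2 / 8 - x' ^ 2 * b) 0 := by
    intro b hb
    have h1 := row_up (n := n) hx2 hle h b
    rcases le_or_gt (A - s * b) 0 with h2 | h2
    · rw [ff_of_nonpos hx2 h2] at h1
      exact h1.trans (le_max_right _ _)
    · have h3 : (s : ℝ) - x ^ 2 ≤ A - s * b := by
        by_contra h4
        exact hb ⟨h2, not_le.1 h4⟩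
      refine (h1.trans (ff_le_sharp hx2 hle h3)).trans (le_trans (le_of_eq ?_) (le_max_left _ _))
      rw [← hs]
      field_simp
      ring
  by_cases he : ∃ R : ℕ, 0 < A - s * R ∧ A - s * R < s - x ^ 2
  · obtain ⟨R, hR1, hR2⟩ := he
    refine ⟨R, fun b hb => hout b fun hb' => hb ?_, ?_⟩
    · -- uniqueness
      have h1 : (s : ℝ) * b < s * (R + 1) := by
        have := hb'.1
        nlinarith
      have h2 : (s : ℝ) * R < s * (b + 1) := by
        have := hb'.2
        nlinarith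
      have h3 : (b : ℝ) < R + 1 := lt_of_mul_lt_mul_left h1 hs0.le
      have h4 : (R : ℝ) < b + 1 := lt_of_mul_lt_mul_left h2 hs0.le
      have h5 : b < R + 1 := by exact_mod_cast h3
      have h6 : R < b + 1 := by exact_mod_cast h4
      omega
    · refine (row_up (n := n) hx2 hle h R).trans ((ff_le_last hx2 hle hR2.le).trans (le_of_eq ?_))
      rw [← hs]
      field_simp
  · refine ⟨n, fun b _ => hout b fun hb' => he ⟨b, hb'⟩, ?_⟩
    rw [stp_zero le_rfl]
    simp only [Nat.cast_zero]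
    positivity

end Pool.Agent.Lib.MP_6b2d39_agHl
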