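import Pool.Agent.Lib.MP_6b2d39_agHl.Three
import Pool.Agent.Lib.MP_6b2d39_agHl.StepA
import Pool.Agent.Lib.MP_6b2d39_agHl.Low
import Pool.Agent.Lib.MP_6b2d39_agHl.Par

set_option autoImplicit false

namespace Pool.Agent.Lib.MP_6b2d39_agHl

open Pool.Agent.Lib.MP_ed661f_ag.H

/-- HL11. the three steps after the low chain (`low_chain`, `stepA_up`, `stepA_lo`, `stepB_up`,
`step_lo`, `stepC_up`, `step_lo`; `stp_zero` for the rows `≥ N`; the irregular row `R` of step A has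
length at most `x1 ^ 2 / 2 ≤ sB`) -/
theorem three_steps {n σ : ℕ} {z η x x1 x2 x3 : ℝ} {sA sB sC : ℕ} (h : RchD 1 σ x)
    (hp : Par n z η x x1 x2 x3 sA sB sC) (N : ℕ) : ∃ r, Red N (tri N) r ∧
    (∀ b, 1 ≤ b → (r b : ℝ) ≤ max (A3 N x x1 x2 x3 - x3 ^ 2 * b) 0) ∧
    (r 0 : ℝ) ≤ max (max (A2 N x x1 x2) 0 + x1 ^ 2 / 2) (x3 / x2 * max (A2 N x x1 x2) 0) ∧
    ∀ b, L3 N x x1 x3 - x3 ^ 2 * b ≤ (r b : ℝ) := by
  have hx0 : 0 < x := lt_of_lt_of_le one_pos hp.hx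
  have h1 := hp.p1
  have h2 := hp.p2
  have h3 := hp.p3
  have one_le : ∀ {s : ℕ} {u v : ℝ}, 0 < u → 0 < v → u * v = s → 1 ≤ s := by
    intro s u v hu hv hs
    have : (0 : ℝ) < s := hs ▸ mul_pos hu hv
    exact_mod_cast this
  obtain ⟨r0, hred, hup, hlo⟩ := low_chain h N
  have z0 : ∀ b, N ≤ b → r0 b = 0 := fun b hb => hred.zero (fun c hc => Nat.sub_eq_zero_of_le hc) hb
  obtain ⟨R, hA, hR⟩ := stepA_up (n := N) (s := sA) hx0 hp.eA hp.lA hup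
  have hAlo := stepA_lo (n := N) (s := sA) (L := x * (N + 1) - x ^ 2) hx0 hp.eA hp.lA z0 hlo
  have hRs : stp sA N r0 R ≤ sB := by
    have : (stp sA N r0 R : ℝ) ≤ sB := by
      refine hR.trans (le_trans ?_ hp.lB)
      have := sq_nonneg x1
      linarith
    exact_mod_cast this
  have hA' : ∀ b, b ≠ R → (stp sA N r0 b : ℝ) ≤ max (A1 N x x1 - x1 ^ 2 * b) 0 := by
    intro b hb
    have e : x1 / x * (x * N - (sA - x ^ 2) / 2) + x ^ 2 / 8 = A1 N x x1 := by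
      rw [← hp.eA, A1]
      field_simp
      ring
    have := hA b hb
    rwa [e] at this
  obtain ⟨hB, hB0⟩ := stepB_up (n := N) (s := sB) h1 hp.eB hp.lB hRs hA'
  have z1 : ∀ b, N ≤ b → stp sA N r0 b = 0 := fun b hb => stp_zero hb
  have hBlo := step_lo (n := N) (s := sB) h1 hp.eB hp.lB z1 hAlo
  have hB' : ∀ b, 1 ≤ b → (stp sB N (stp sA N r0) b : ℝ) ≤ max (A2 N x x1 x2 - x2 ^ 2 * b) 0 := hB
  obtain ⟨hC, hC0⟩ := stepC_up (n := N) (s := sC) h2 hp.eC hp.lC hB'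
  have z2 : ∀ b, N ≤ b → stp sB N (stp sA N r0) b = 0 := fun b hb => stp_zero hb
  have hClo := step_lo (n := N) (s := sC) h2 hp.eC hp.lC z2 hBlo
  refine ⟨stp sC N (stp sB N (stp sA N r0)), ?_, ?_, ?_, ?_⟩
  · exact ((hred.tail ⟨sA, one_le hx0 h1 hp.eA, rfl⟩).tail ⟨sB, one_le h1 h2 hp.eB, rfl⟩).tail
      ⟨sC, one_le h2 h3 hp.eC, rfl⟩
  · intro b hb
    have := hC b hb
    rwa [← hp.eC] at this
  · refine hC0.trans (max_le_max ?_ le_rfl)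
    refine hB0.trans ?_
    have e : x2 / x1 * A1 N x x1 = A2 N x x1 x2 := rfl
    rw [e]
    linarith
  · intro b
    refine le_trans (le_of_eq ?_) (hClo b)
    rw [← hp.eA, ← hp.eB, ← hp.eC, L3]
    field_simp
    ring

end Pool.Agent.Lib.MP_6b2d39_agHl
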