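import Pool.Agent.Lib.MP_6b2d39_agHl.Step
import Pool.Agent.Lib.MP_6b2d39_agHl.ThreeAll
import Pool.Agent.Lib.MP_6b2d39_agHl.Last
import Pool.Agent.Lib.MP_6b2d39_agHl.RowsCmp
import Pool.Agent.Lib.MP_6b2d39_agHl.NumNeg
import Pool.Agent.Lib.MP_6b2d39_agHl.NumPos
import Pool.Agent.Lib.MP_6b2d39_agHl.ParEx
import Pool.Agent.Lib.MP_6b2d39_agHl.EndR

set_option autoImplicit false

namespace Pool.Agent.Lib.MP_6b2d39_agHl

open Pool.Agent.Lib.MP_6b2d39_agCr Pool.Agent.Lib.MP_6b2d39_agNw Pool.Agent.Lib.MP_ed661f_ag.H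

private theorem large_tri (d : ℕ) : ∑ b ∈ Finset.range (d + 1), tri (d + 1) b = (d + 2).choose 2 := by
  unfold tri
  induction d with
  | zero => rfl
  | succ d ih =>
    rw [Finset.sum_range_succ']
    have h1 : ∑ b ∈ Finset.range (d + 1), (d + 1 + 1 - (b + 1)) =
        ∑ b ∈ Finset.range (d + 1), (d + 1 - b) :=
      Finset.sum_congr rfl fun b _ => by omega
    have h2 : (d + 1 + 2).choose 2 = (d + 2) + (d + 2).choose 2 := by
      have h3 := Nat.choose_succ_succ' (d + 2) 1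
      rw [Nat.choose_one_right] at h3
      exact h3
    rw [h1, ih, h2, Nat.sub_zero, Nat.add_comm]

/-- HL28. (`par_exists`, `three_steps` with `N = d + 1`, `num_neg` / `num_pos` with
`S = ∑ μ i`, `T = ∑ (μ i + 1).choose 2` (`mass_real`, `mass_bounds`, `vd_real`), `rows_neg` /
`rows_pos`, `demand_sum`, `Red.sum`, `emp_last`, `Red.emp`) -/
theorem large_case : ∃ N0 : ℕ, ∀ (n : ℕ) (z : ℝ), N0 ≤ n → (N0 : ℝ) ≤ z → z ≤ n →
    ∀ (d m : ℕ) (μ : Fin n → ℕ), (∀ i, μ i = m ∨ μ i = m + 1) → √n ≤ m + 1 →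
    √z * d + Real.exp (-(z ^ (1 / 20 : ℝ))) * (d : ℝ) ^ 2 ≤ |((vd d μ : ℤ) : ℝ)| →
    EmpQ (dgm (tri (d + 1)) (d + 1))
      (Sum.elim μ (fun _ => 1) : Fin n ⊕ Fin (vd d μ).toNat → ℕ) Finset.univ := by
  obtain ⟨N1, h1⟩ := par_exists
  obtain ⟨N2, h2⟩ := num_neg
  obtain ⟨N3, h3⟩ := num_pos
  obtain ⟨Z0, h4⟩ := end_exp
  obtain ⟨N0, hN0⟩ : ∃ N0 : ℕ, N0 = max (max N1 N2) (max N3 (max ⌈Z0⌉₊ 1)) := ⟨_, rfl⟩
  have hN1 : N1 ≤ N0 := by rw [hN0]; exact le_trans (le_max_left _ _) (le_max_left _ _)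
  have hN2 : N2 ≤ N0 := by rw [hN0]; exact le_trans (le_max_right _ _) (le_max_left _ _)
  have hN3 : N3 ≤ N0 := by rw [hN0]; exact le_trans (le_max_left _ _) (le_max_right _ _)
  have hNZ : ⌈Z0⌉₊ ≤ N0 := by
    rw [hN0]
    exact le_trans (le_trans (le_max_left _ _) (le_max_right _ _)) (le_max_right _ _)
  have hN4 : 1 ≤ N0 := by
    rw [hN0]
    exact le_trans (le_trans (le_max_right _ _) (le_max_right _ _)) (le_max_right _ _)
  refine ⟨N0, ?_⟩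
  intro n z hn hz hzn d m μ hμ hm hV
  have hcast : ∀ {a : ℕ}, a ≤ N0 → (a : ℝ) ≤ z := fun {a} ha =>
    le_trans (by exact_mod_cast ha) hz
  have hn1 : 1 ≤ n := hN4.trans hn
  obtain ⟨η, hη⟩ : ∃ η : ℝ, η = Real.exp (-(z ^ (1 / 20 : ℝ))) / 100 := ⟨_, rfl⟩
  have hη0 : 0 < η := by rw [hη]; positivity
  have hη1 : η ≤ 1 / 1000 := by
    rw [hη]
    exact (h4 z ((Nat.le_ceil Z0).trans (hcast hNZ))).2
  obtain ⟨σ, x, x1, x2, x3, sA, sB, sC, hR, hp⟩ := h1 n z (hN1.trans hn) (hcast hN1) hzn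
  rw [← hη] at hp
  have hV' : √z * d + 100 * η * (d : ℝ) ^ 2 ≤ |((vd d μ : ℤ) : ℝ)| := by
    have e1 : 100 * η = Real.exp (-(z ^ (1 / 20 : ℝ))) := by
      rw [hη]
      ring
    rw [e1]
    exact hV
  obtain ⟨r, hred, hr1, hr0, hrL⟩ := three_steps hR hp (d + 1)
  obtain ⟨m1, m2⟩ := mass_bounds hμ
  obtain ⟨t1, t2⟩ := mass_real hn1 hμ
  have hvd := vd_real (d := d) μ
  have m1' : (n : ℝ) * m ≤ ((∑ i, μ i : ℕ) : ℝ) := by exact_mod_cast m1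
  have m2' : ((∑ i, μ i : ℕ) : ℝ) ≤ (n : ℝ) * (m + 1) := by exact_mod_cast m2
  refine hred.emp (emp_last r (d + 1) μ ?_)
  rcases le_total ((vd d μ : ℤ) : ℝ) 0 with h0 | h0
  · -- the empty side
    rw [abs_of_nonpos h0, hvd] at hV'
    obtain ⟨a1, a2, a3⟩ := h2 n z η x x1 x2 x3 sA sB sC (hN2.trans hn) (hcast hN2) hzn hη0 hη1 hp
      d m _ _ hm m1' m2' t1 (by linarith)
    have hle := rows_neg hμ hp.l3 hp.g3 hη0.le (hη1.trans (by norm_num)) a1 (max_le a2 a3) hr1 hr0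
    rw [Finset.sum_eq_zero fun b _ => Nat.sub_eq_zero_of_le (hle b)]
    exact Nat.zero_le _
  · -- the nonempty side
    rw [abs_of_nonneg h0, hvd] at hV'
    obtain ⟨a1, a2⟩ := h3 n z η x x1 x2 x3 sA sB sC (hN3.trans hn) (hcast hN3) hzn hη0 hη1 hp
      d m _ _ hm m1' m2' t2 hV'
    have hle := rows_pos hμ hp.l3 a1 hrL
    have hsum := hred.sum
    rw [large_tri] at hsum
    have hdem := demand_sum (N := d + 1) hμ (by omega)
    have h5 : ∑ b ∈ Finset.range (d + 1), (r b - ∑ i, (μ i - b)) +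
        ∑ b ∈ Finset.range (d + 1), ∑ i, (μ i - b) = ∑ b ∈ Finset.range (d + 1), r b := by
      rw [← Finset.sum_add_distrib]
      exact Finset.sum_congr rfl fun b _ => Nat.sub_add_cancel (hle b)
    rw [hdem, hsum] at h5
    have h6 : vd d μ = ((d + 2).choose 2 : ℤ) - ((∑ i, (μ i + 1).choose 2 : ℕ) : ℤ) := by
      unfold vd
      push_cast
      rfl
    omega

end Pool.Agent.Lib.MP_6b2d39_agHl
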