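import Pool.Agent.Lib.MP_6b2d39_agHl.Main

set_option autoImplicit false

namespace Pool.Agent.Lib.MP_6b2d39_agHl

open Pool.Agent.Lib.MP_6b2d39_agCr

private theorem vd_ge_real {n : ℕ} (m d : ℕ) (μ : Fin n → ℕ) (hμ : ∀ i, μ i = m ∨ μ i = m + 1) :
    ((d : ℝ) + 2) * (d + 1) / 2 - n * (((m : ℝ) + 2) * (m + 1) / 2) ≤ ((vd d μ : ℤ) : ℝ) := by
  have h1 : ((vd d μ : ℤ) : ℝ) = ((d : ℝ) + 2) * (d + 1) / 2 -
      ∑ i, (((μ i : ℝ) + 1) * (μ i) / 2) := by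
    unfold vd
    push_cast
    rw [Nat.cast_choose_two]
    congr 1
    · push_cast; ring
    · refine Finset.sum_congr rfl fun i _ => ?_
      rw [Nat.cast_choose_two]
      push_cast; ring
  have h2 : ∑ i, (((μ i : ℝ) + 1) * (μ i) / 2) ≤ n * (((m : ℝ) + 2) * (m + 1) / 2) := by
    have h3 : ∀ i ∈ (Finset.univ : Finset (Fin n)),
        (((μ i : ℝ) + 1) * (μ i) / 2) ≤ (((m : ℝ) + 2) * (m + 1) / 2) := by
      intro i _
      have hm0 : (0 : ℝ) ≤ m := Nat.cast_nonneg m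
      rcases hμ i with h | h
      · rw [h]; nlinarith
      · rw [h]; push_cast; nlinarith
    refine (Finset.sum_le_sum h3).trans ?_
    simp
  rw [h1]; linarith

/-- HL32. Corollary, `z = log (n (m + 1)) ^ 20`: if `d ≤ n (m + 1)`, then
`exp (-z ^ (1 / 20)) d ^ 2 = d ^ 2 / (n (m + 1)) ≤ d ≤ √z d`; if `d > n (m + 1)`, then
`vd d μ ≥ d ^ 2 / 4 ≥ √z d + exp (-z ^ (1 / 20)) d ^ 2`. -/
theorem homogeneous_log : ∃ N0 : ℕ, ∀ n m : ℕ, N0 ≤ n →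
    (n : ℝ) * (m + 1) ≤ Real.exp ((n : ℝ) ^ (1 / 20 : ℝ)) →
    ∀ (d : ℕ) (μ : Fin n → ℕ), (∀ i, μ i = m ∨ μ i = m + 1) →
    2 * Real.log (n * (m + 1)) ^ 10 * d ≤ |((vd d μ : ℤ) : ℝ)| →
    General (fun P => (Module.finrank ℂ (curves d μ P) : ℤ) = max (vd d μ) 0) := by
  obtain ⟨N1, h1⟩ := homogeneous_window
  refine ⟨max 256 (Nat.ceil (Real.exp (N1 + 1))), fun n m hn hX d μ hμ hv => ?_⟩
  have hn256 : 256 ≤ n := le_trans (le_max_left _ _) hn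
  have hnN : Real.exp (N1 + 1) ≤ n := by
    have h : Nat.ceil (Real.exp (N1 + 1)) ≤ n := le_trans (le_max_right _ _) hn
    exact (Nat.le_ceil _).trans (by exact_mod_cast h)
  have hn0 : (256 : ℝ) ≤ n := by exact_mod_cast hn256
  have hm0 : (0 : ℝ) ≤ m := Nat.cast_nonneg m
  have hd0 : (0 : ℝ) ≤ d := Nat.cast_nonneg d
  have hvd := vd_ge_real m d μ hμ
  have hXn : (n : ℝ) * (m + 2) ≤ 2 * ((n : ℝ) * (m + 1)) := by nlinarith
  generalize hXd : (n : ℝ) * (m + 1) = X at hX hv hXn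
  have hnX : (n : ℝ) ≤ X := by rw [← hXd]; nlinarith
  have hX0 : 0 < X := by linarith
  generalize hL : Real.log X = L at hv
  have hL1 : (N1 : ℝ) + 1 ≤ L := by
    rw [← hL, Real.le_log_iff_exp_le hX0]; linarith
  have hN10 : (0 : ℝ) ≤ N1 := Nat.cast_nonneg _
  have hL2 : L ≤ (n : ℝ) ^ (1 / 20 : ℝ) := by
    rw [← hL, Real.log_le_iff_le_exp hX0]; exact hX
  have hL0 : 0 ≤ L := by linarith
  have hpow : ((n : ℝ) ^ (1 / 20 : ℝ)) ^ 20 = n := by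
    rw [← Real.rpow_natCast, ← Real.rpow_mul (by positivity)]; norm_num
  have hzn : L ^ 20 ≤ n := by
    calc L ^ 20 ≤ ((n : ℝ) ^ (1 / 20 : ℝ)) ^ 20 := pow_le_pow_left₀ hL0 hL2 20
      _ = n := hpow
  have hz1 : (N1 : ℝ) ≤ L ^ 20 := by
    calc (N1 : ℝ) ≤ L := by linarith
      _ ≤ L ^ 20 := le_self_pow₀ (by linarith) (by norm_num)
  have hsq : √(L ^ 20) = L ^ 10 := by
    rw [show L ^ 20 = (L ^ 10) ^ 2 by ring, Real.sqrt_sq (by positivity)]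
  have hroot : (L ^ 20) ^ (1 / 20 : ℝ) = L := by
    rw [← Real.rpow_natCast, ← Real.rpow_mul hL0]; norm_num
  have hexp : Real.exp (-((L ^ 20) ^ (1 / 20 : ℝ))) = X⁻¹ := by
    rw [hroot, Real.exp_neg, ← hL, Real.exp_log hX0]
  refine h1 n (L ^ 20) hz1 hzn d m μ hμ ?_
  rw [hsq, hexp]
  rcases le_or_gt (d : ℝ) X with hd | hd
  · refine le_trans ?_ hv
    have e1 : X⁻¹ * (d : ℝ) ^ 2 ≤ d := by
      rw [inv_mul_le_iff₀ hX0]; nlinarith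
    have e2 : (1 : ℝ) ≤ L ^ 10 := one_le_pow₀ (by linarith)
    nlinarith
  · refine le_trans ?_ (le_abs_self _)
    refine le_trans ?_ hvd
    have hs : L ^ 10 ≤ (n : ℝ) / 16 := by
      have h2 : (L ^ 10) ^ 2 ≤ n := by rw [← pow_mul]; exact hzn
      have h3 : (0 : ℝ) ≤ L ^ 10 := by positivity
      refine abs_le_of_sq_le_sq' ?_ (by linarith) |>.2
      nlinarith
    have e1 : X⁻¹ * (d : ℝ) ^ 2 ≤ (d : ℝ) ^ 2 / 256 := by
      have h2 : X⁻¹ ≤ 256⁻¹ := inv_anti₀ (by norm_num) (by linarith)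
      have h3 : (0 : ℝ) ≤ (d : ℝ) ^ 2 := by positivity
      calc X⁻¹ * (d : ℝ) ^ 2 ≤ 256⁻¹ * (d : ℝ) ^ 2 := mul_le_mul_of_nonneg_right h2 h3
        _ = (d : ℝ) ^ 2 / 256 := by ring
    have e2 : L ^ 10 * (d : ℝ) ≤ (d : ℝ) ^ 2 / 16 := by
      have h2 : L ^ 10 ≤ (d : ℝ) / 16 := by linarith
      calc L ^ 10 * (d : ℝ) ≤ (d : ℝ) / 16 * d := mul_le_mul_of_nonneg_right h2 hd0
        _ = (d : ℝ) ^ 2 / 16 := by ring
    have e3 : (n : ℝ) * (((m : ℝ) + 2) * (m + 1) / 2) ≤ (d : ℝ) ^ 2 / 256 := by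
      have h2 : (m : ℝ) + 2 ≤ 2 * (d : ℝ) / 256 := by
        have h3 : (n : ℝ) * (m + 2) ≤ 2 * (d : ℝ) := by linarith
        nlinarith
      have h4 : (n : ℝ) * (((m : ℝ) + 2) * (m + 1) / 2) = X * ((m : ℝ) + 2) / 2 := by
        rw [← hXd]; ring
      rw [h4]
      have h5 : X * ((m : ℝ) + 2) ≤ d * (2 * (d : ℝ) / 256) :=
        mul_le_mul hd.le h2 (by linarith) hd0
      nlinarith
    nlinarith [sq_nonneg (d : ℝ)]

end Pool.Agent.Lib.MP_6b2d39_agHl
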