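import Pool.Agent.Lib.MP_6b2d39_agHl.Small
import Pool.Agent.Lib.MP_6b2d39_agHl.Large

set_option autoImplicit false

namespace Pool.Agent.Lib.MP_6b2d39_agHl

open Pool.Agent.Lib.MP_6b2d39_agCr

/-- HL31. THEOREM HL. -/
theorem homogeneous_window : ∃ N0 : ℕ, ∀ (n : ℕ) (z : ℝ), (N0 : ℝ) ≤ z → z ≤ n →
    ∀ (d m : ℕ) (μ : Fin n → ℕ), (∀ i, μ i = m ∨ μ i = m + 1) →
    √z * d + Real.exp (-(z ^ (1 / 20 : ℝ))) * (d : ℝ) ^ 2 ≤ |((vd d μ : ℤ) : ℝ)| →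
    General (fun P => (Module.finrank ℂ (curves d μ P) : ℤ) = max (vd d μ) 0) := by
  obtain ⟨N1, h1⟩ := small_case
  obtain ⟨N2, h2⟩ := large_case
  refine ⟨max N1 N2, fun n z hz hzn d m μ hμ hv => general_of_emp ?_⟩
  have hn : max N1 N2 ≤ n := by exact_mod_cast hz.trans hzn
  have hz1 : (N1 : ℝ) ≤ z := le_trans (by exact_mod_cast le_max_left N1 N2) hz
  have hz2 : (N2 : ℝ) ≤ z := le_trans (by exact_mod_cast le_max_right N1 N2) hz
  rcases lt_or_ge ((m : ℝ) + 1) (√n) with hm | hm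
  · refine h1 n z ((le_max_left _ _).trans hn) hz1 hzn d m μ hμ hm (le_trans ?_ hv)
    have : 0 ≤ Real.exp (-(z ^ (1 / 20 : ℝ))) * (d : ℝ) ^ 2 := by positivity
    linarith
  · exact h2 n z ((le_max_right _ _).trans hn) hz2 hzn d m μ hμ hm hv

end Pool.Agent.Lib.MP_6b2d39_agHl
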