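import Pool.Agent.Lib.MP_6b2d39_agHl.Par

set_option autoImplicit false

namespace Pool.Agent.Lib.MP_6b2d39_agHl

/-- HL15. (`x1 x3 = sB x3 ^ 2 / sC ≥ n - 2 η n - 2 √n - 3`, `n / sC ≤ 11 / 10`) -/
theorem par_bounds : ∃ N0 : ℕ, ∀ (n : ℕ) (z η x x1 x2 x3 : ℝ) (sA sB sC : ℕ), N0 ≤ n →
    (N0 : ℝ) ≤ z → z ≤ n → 0 < η → η ≤ 1 / 1000 → Par n z η x x1 x2 x3 sA sB sC →
    n - 2 * η * n - 2 * √n - 3 ≤ x1 * x3 ∧ x1 * x3 ≤ n ∧ x3 / x1 ≤ 11 / 10 ∧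
    x ≤ 3 / 4 * √z ∧ x ^ 2 / (8 * x1) ≤ 1 / 12 * √z ∧ x ^ 2 * x3 / (8 * x1) ≤ 1 / 12 * √z * √n ∧
    x3 ^ 2 - x2 * x3 ≤ η * n + 2 * √n + 1 ∧ x2 ≤ sC / √n * (1 + η) ∧ x1 ≤ x2 ∧ x2 ≤ x3 := by
  refine ⟨10000, ?_⟩
  intro n z η x x1 x2 x3 sA sB sC hn hz hzn hη hη1 hP
  obtain ⟨hx, hxz, p1, p2, p3, eA, eB, eC, lA, lB, lC, l3, g3, hC, hC', hB⟩ := hP
  set s : ℝ := √(n : ℝ) with hs
  set t : ℝ := √z with ht
  have hn' : (10000 : ℝ) ≤ n := by exact_mod_cast hn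
  have hz' : (10000 : ℝ) ≤ z := by
    have : ((10000 : ℕ) : ℝ) = 10000 := by norm_num
    linarith
  have hs2 : s ^ 2 = n := Real.sq_sqrt (by linarith)
  have ht2 : t ^ 2 = z := Real.sq_sqrt (by linarith)
  have hs100 : 100 ≤ s := Real.le_sqrt_of_sq_le (by linarith)
  have ht100 : 100 ≤ t := Real.le_sqrt_of_sq_le (by linarith)
  have hts : t ≤ s := Real.sqrt_le_sqrt hzn
  rw [← hs2] at l3 g3 hC hC' hB ⊢
  rw [← ht2] at hxz
  have hx3s : x3 ≤ s := by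
    by_contra h
    push Not at h
    exact absurd l3 (not_le.2 (pow_lt_pow_left₀ h (by linarith) two_ne_zero))
  have h12 : x1 ≤ x2 := by
    rw [← eB, sq] at lB
    exact le_of_mul_le_mul_left lB p1
  have h23 : x2 ≤ x3 := by
    rw [← eC, sq] at lC
    exact le_of_mul_le_mul_left lC p2
  have hs2big : 100 * s ≤ s ^ 2 := by
    rw [sq]
    exact mul_le_mul_of_nonneg_right hs100 (by linarith)
  have hηs : η * s ^ 2 ≤ 1 / 1000 * s ^ 2 :=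
    mul_le_mul_of_nonneg_right hη1 (sq_nonneg s)
  have hηs0 : 0 ≤ η * s ^ 2 := mul_nonneg hη.le (sq_nonneg s)
  have hSC1 : s ^ 2 * (1 - η) / 2 ≤ sC := by linarith
  have hSC0 : (0 : ℝ) < sC := by linarith
  have hlow : s ^ 2 - 2 * η * s ^ 2 - 2 * s - 3 ≤ x1 * x3 := by
    have e1 : x1 * x3 * sC = sB * x3 ^ 2 := by
      rw [← eB, ← eC]
      ring
    have hSB0 : (0 : ℝ) ≤ sB := Nat.cast_nonneg _
    have e2 : (sC ^ 2 - s ^ 2) * (1 - η) ≤ sB * x3 ^ 2 := by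
      have h1 : (sC : ℝ) ^ 2 - s ^ 2 ≤ sB * s ^ 2 := by linarith
      have h2 : ((sC : ℝ) ^ 2 - s ^ 2) * (1 - η) ≤ sB * s ^ 2 * (1 - η) :=
        mul_le_mul_of_nonneg_right h1 (by linarith)
      have h3 : (sB : ℝ) * (s ^ 2 * (1 - η)) ≤ sB * x3 ^ 2 :=
        mul_le_mul_of_nonneg_left g3 hSB0
      linarith
    have e3 : (s ^ 2 - 2 * η * s ^ 2 - 2 * s - 3) * sC ≤ (sC ^ 2 - s ^ 2) * (1 - η) := by
      have h1 : 2 ≤ (1 - η) * sC - (s ^ 2 - 2 * η * s ^ 2 - 2 * s - 3) := by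
        have h2 : (1 - η) * (s ^ 2 * (1 - η) - 2 * s - 1) ≤ (1 - η) * sC :=
          mul_le_mul_of_nonneg_left (by linarith) (by linarith)
        have h3 : 0 ≤ η * s := mul_nonneg hη.le (by linarith)
        have h4 : 0 ≤ η ^ 2 * s ^ 2 := by positivity
        linarith
      have h5 : 2 * sC ≤ ((1 - η) * sC - (s ^ 2 - 2 * η * s ^ 2 - 2 * s - 3)) * sC :=
        mul_le_mul_of_nonneg_right h1 hSC0.le
      linarith
    have e4 : (s ^ 2 - 2 * η * s ^ 2 - 2 * s - 3) * sC ≤ x1 * x3 * sC := by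
      rw [e1]
      exact e3.trans e2
    exact le_of_mul_le_mul_right e4 hSC0
  have h13 : x1 * x3 ≤ s ^ 2 := by
    have h1 : x1 * x3 ≤ x3 * x3 := mul_le_mul_of_nonneg_right (h12.trans h23) p3.le
    rw [← sq] at h1
    exact h1.trans l3
  have hlow2 : 19 / 20 * s ^ 2 ≤ x1 * x3 := by linarith
  have hx1s : 19 / 20 * s ≤ x1 := by
    have h1 : x1 * x3 ≤ x1 * s := mul_le_mul_of_nonneg_left hx3s p1.le
    have h2 : 19 / 20 * s * s ≤ x1 * s := by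
      rw [mul_assoc, ← sq]
      exact hlow2.trans h1
    exact le_of_mul_le_mul_right h2 (by linarith)
  have hxx : x ^ 2 / (8 * x1) ≤ 1 / 12 * t := by
    rw [div_le_iff₀ (by linarith)]
    have h1 : 19 / 20 * t * t ≤ x1 * t := mul_le_mul_of_nonneg_right (by linarith) (by linarith)
    have h2 : 0 ≤ t ^ 2 := sq_nonneg t
    linarith
  refine ⟨hlow, h13, ?_, ?_, hxx, ?_, ?_, ?_, h12, h23⟩
  · rw [div_le_iff₀ p1]
    linarith
  · by_contra h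
    push Not at h
    have h1 : (3 / 4 * t) ^ 2 < x ^ 2 := pow_lt_pow_left₀ h (by linarith) two_ne_zero
    have h2 : (3 / 4 * t) ^ 2 = 9 / 16 * t ^ 2 := by ring
    have h3 : 0 < t ^ 2 := by positivity
    linarith
  · have h1 : x ^ 2 * x3 / (8 * x1) = x ^ 2 / (8 * x1) * x3 := by ring
    rw [h1]
    exact mul_le_mul hxx hx3s p3.le (by linarith)
  · rw [eC]
    linarith
  · rw [div_mul_eq_mul_div, le_div_iff₀ (by linarith), ← eC]
    have h1 : s ≤ x3 * (1 + η) := by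
      by_contra h
      push Not at h
      have h2 : (x3 * (1 + η)) ^ 2 < s ^ 2 :=
        pow_lt_pow_left₀ h (by positivity) two_ne_zero
      have h4 : s ^ 2 * (1 - η) * (1 + η) ^ 2 ≤ x3 ^ 2 * (1 + η) ^ 2 :=
        mul_le_mul_of_nonneg_right g3 (sq_nonneg _)
      have h5 : 1 ≤ (1 - η) * (1 + η) ^ 2 := by
        have h6 : (1 - η) * (1 + η) ^ 2 = 1 + η * (1 - η * (1 + η)) := by ring
        have h7 : η * (1 + η) ≤ 1 := by nlinarith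
        rw [h6]
        have h8 : 0 ≤ η * (1 - η * (1 + η)) := mul_nonneg hη.le (by linarith)
        linarith
      have h9 : s ^ 2 * 1 ≤ s ^ 2 * ((1 - η) * (1 + η) ^ 2) :=
        mul_le_mul_of_nonneg_left h5 (sq_nonneg s)
      have h10 : (x3 * (1 + η)) ^ 2 = x3 ^ 2 * (1 + η) ^ 2 := by ring
      linarith
    calc x2 * s ≤ x2 * (x3 * (1 + η)) := mul_le_mul_of_nonneg_left h1 p2.le
      _ = x2 * x3 * (1 + η) := by ring

end Pool.Agent.Lib.MP_6b2d39_agHl
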