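import Mathlib

set_option autoImplicit false

namespace Pool.Agent.Lib.MP_6b2d39_agHl

/-- the discrete continuity argument -/
private theorem params_cont (R : ℝ) (hR : 1000000 ≤ R) (z0 : ℕ) (hz1 : 6 * R ^ 2 ≤ 10 * (z0 : ℝ))
    (hz2 : 100 * (z0 : ℝ) ≤ 62 * R ^ 2) : ∃ nb q : ℕ,
    ((z0 + 4 * nb : ℕ) : ℝ) + 45 / 100 ≤ (q : ℝ) ^ 2 / R ^ 2 ∧
    (q : ℝ) ^ 2 / R ^ 2 ≤ ((z0 + 4 * nb : ℕ) : ℝ) + 55 / 100 ∧
    R ^ 2 - 4 * R - 1 ≤ (q : ℝ) ∧ (q : ℝ) ≤ R ^ 2 - R := by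
  have hR0 : 0 < R := by linarith
  have hRR : 1000000 * R ≤ R ^ 2 := by nlinarith
  have hR2 : 0 < R ^ 2 := by positivity
  obtain ⟨q0, hq0⟩ : ∃ q0 : ℕ, q0 = ⌊R ^ 2 - R⌋₊ := ⟨_, rfl⟩
  have hq1 : (q0 : ℝ) ≤ R ^ 2 - R := by
    rw [hq0]
    exact Nat.floor_le (by linarith)
  have hq2 : R ^ 2 - R < q0 + 1 := by
    rw [hq0]
    exact Nat.lt_floor_add_one _
  obtain ⟨I0, hI0⟩ : ∃ I0 : ℕ, I0 = ⌊3 * R / 2⌋₊ := ⟨_, rfl⟩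
  have hI1 : (I0 : ℝ) ≤ 3 * R / 2 := by
    rw [hI0]
    exact Nat.floor_le (by positivity)
  have hI2 : 3 * R / 2 < I0 + 1 := by
    rw [hI0]
    exact Nat.lt_floor_add_one _
  obtain ⟨G, hG⟩ : ∃ G : ℕ → ℝ, G = fun i : ℕ => ((q0 : ℝ) - 2 * (i : ℝ)) ^ 2 / R ^ 2 + 4 * (i : ℝ) :=
    ⟨fun i : ℕ => ((q0 : ℝ) - 2 * (i : ℝ)) ^ 2 / R ^ 2 + 4 * (i : ℝ), rfl⟩
  have hstep : ∀ i : ℕ, i ≤ I0 → G (i + 1) - G i ≤ 1 / 10 := by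
    intro i hi
    have hi' : (i : ℝ) ≤ I0 := by exact_mod_cast hi
    have e : G (i + 1) - G i = 4 * (R ^ 2 - q0 + 2 * i + 1) / R ^ 2 := by
      rw [hG]
      push_cast
      field_simp
      ring
    rw [e, div_le_iff₀ hR2]
    nlinarith
  have hend : G 0 + 4 ≤ G I0 := by
    have e : G I0 - G 0 = 4 * I0 * (R ^ 2 - q0 + I0) / R ^ 2 := by
      rw [hG]
      push_cast
      field_simp
      ring
    have h1 : 4 ≤ 4 * I0 * (R ^ 2 - q0 + I0) / R ^ 2 := by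
      rw [le_div_iff₀ hR2]
      have h2 : R ≤ (I0 : ℝ) := by linarith
      have h3 : R ≤ R ^ 2 - q0 + I0 := by linarith
      have h4 : R * R ≤ (I0 : ℝ) * (R ^ 2 - q0 + I0) := mul_le_mul h2 h3 hR0.le (by linarith)
      nlinarith
    linarith
  have hG0 : R ^ 2 - 2 * R - 1 ≤ G 0 := by
    have e : G 0 = (q0 : ℝ) ^ 2 / R ^ 2 := by
      rw [hG]
      push_cast
      ring
    rw [e, le_div_iff₀ hR2]
    have h1 : R ^ 2 - R - 1 ≤ q0 := by linarith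
    have h2 : 0 ≤ R ^ 2 - R - 1 := by linarith
    have h3 : (R ^ 2 - R - 1) ^ 2 ≤ (q0 : ℝ) ^ 2 := pow_le_pow_left₀ h2 h1 2
    nlinarith
  obtain ⟨k, hk⟩ : ∃ k : ℕ, k = ⌈(G 0 - z0 - 1 / 2) / 4⌉₊ := ⟨_, rfl⟩
  have hx0 : 0 ≤ (G 0 - z0 - 1 / 2) / 4 := by
    have : 0 ≤ G 0 - z0 - 1 / 2 := by linarith
    positivity
  have hk1 : (G 0 - z0 - 1 / 2) / 4 ≤ k := by
    rw [hk]
    exact Nat.le_ceil _
  have hk2 : (k : ℝ) < (G 0 - z0 - 1 / 2) / 4 + 1 := by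
    rw [hk]
    exact Nat.ceil_lt_add_one hx0
  have hex : ∃ i : ℕ, (z0 : ℝ) + 45 / 100 + 4 * k ≤ G i := ⟨I0, by linarith⟩
  classical
  obtain ⟨i, hi⟩ : ∃ i : ℕ, i = Nat.find hex := ⟨_, rfl⟩
  have hi1 : (z0 : ℝ) + 45 / 100 + 4 * k ≤ G i := by
    rw [hi]
    exact Nat.find_spec hex
  have hi2 : i ≤ I0 := by
    rw [hi]
    exact Nat.find_min' hex (by linarith)
  have hi3 : G i ≤ (z0 : ℝ) + 55 / 100 + 4 * k := by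
    rcases Nat.eq_zero_or_pos i with h0 | h0
    · rw [h0]
      linarith
    · obtain ⟨i', hi'⟩ : ∃ i', i = i' + 1 := ⟨i - 1, by omega⟩
      have h1 : ¬ (z0 : ℝ) + 45 / 100 + 4 * k ≤ G i' := by
        refine Nat.find_min hex ?_
        rw [← hi]
        omega
      have h2 := hstep i' (by omega)
      rw [hi']
      push Not at h1
      linarith
  have hir : (i : ℝ) ≤ 3 * R / 2 := by
    have : (i : ℝ) ≤ I0 := by exact_mod_cast hi2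
    linarith
  have hik : i ≤ k := by
    have h1 : (i : ℝ) ≤ k := by
      refine le_trans hir (le_trans ?_ hk1)
      rw [le_div_iff₀ (by norm_num)]
      linarith
    exact_mod_cast h1
  have hiq : 2 * i ≤ q0 := by
    have h1 : ((2 * i : ℕ) : ℝ) ≤ q0 := by
      push_cast
      linarith
    exact_mod_cast h1
  have hGi : G i = ((q0 : ℝ) - 2 * i) ^ 2 / R ^ 2 + 4 * i := by rw [hG]
  refine ⟨k - i, q0 - 2 * i, ?_, ?_, ?_, ?_⟩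
  · push_cast [Nat.cast_sub hik, Nat.cast_sub hiq]
    linarith
  · push_cast [Nat.cast_sub hik, Nat.cast_sub hiq]
    linarith
  · push_cast [Nat.cast_sub hiq]
    linarith
  · push_cast [Nat.cast_sub hiq]
    have : (0 : ℝ) ≤ i := Nat.cast_nonneg i
    linarith

/-- HL20. `a = ⌊√(61 t / 100)⌋₊`, `j0` with `45 a ^ 2 ≤ 100 j0 ^ 2 ≤ 55 a ^ 2` (`j0 ≈ 7 a / 10`),
`z0 = a ^ 2 + 2 j0`; `q = q0 - 2 i`, `q0 = ⌊t - √t⌋₊`: the function `G i = (q0 - 2 i) ^ 2 / t + 4 i`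
is increasing for `i ≤ 3 / 2 √t`, with increments `4 (t - q0) / t + 4 (2 i + 1) / t ≤ 1 / 10`, and
`G (⌊3 / 2 √t⌋) ≥ G 0 + 4`; let `k'` be the least integer with `z0 + 1 / 2 + 4 k' ≥ G 0`, and `i` the
least number with `G i ≥ z0 + 45 / 100 + 4 k'`; `nb = k' - i`. -/
theorem paramsR : ∃ T0 : ℝ, ∀ t : ℝ, T0 ≤ t → ∃ a j0 nb q : ℕ, 2 ≤ a ∧ 2 ^ 100 ≤ a ^ 2 ∧
    45 * a ^ 2 ≤ 100 * j0 ^ 2 ∧ 100 * j0 ^ 2 ≤ 55 * a ^ 2 ∧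
    ((a ^ 2 + 2 * j0 + 4 * nb : ℕ) : ℝ) + 45 / 100 ≤ (q : ℝ) ^ 2 / t ∧
    (q : ℝ) ^ 2 / t ≤ ((a ^ 2 + 2 * j0 + 4 * nb : ℕ) : ℝ) + 55 / 100 ∧
    16 * (a ^ 2 + 2 * j0) ≤ 10 * (a ^ 2 + 2 * j0 + 4 * nb) ∧
    3 * (a ^ 2 + 2 * j0 + 4 * nb) ≤ 5 * (a ^ 2 + 2 * j0) ∧
    6 * t ≤ 10 * ((a ^ 2 + 2 * j0 : ℕ) : ℝ) ∧ ((a ^ 2 + 2 * j0 : ℕ) : ℝ) ≤ t ∧
    a ^ 2 + 2 * j0 + 4 * nb < q ∧ (q : ℝ) ^ 2 / t + 1 / 100 ≤ q := by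
  refine ⟨2 ^ 104, fun t ht => ?_⟩
  have ht0 : 0 < t := lt_of_lt_of_le (by norm_num) ht
  obtain ⟨R, hRdef⟩ : ∃ R : ℝ, R = Real.sqrt t := ⟨_, rfl⟩
  have hR2 : R ^ 2 = t := by
    rw [hRdef]
    exact Real.sq_sqrt ht0.le
  have hRbig : (2 : ℝ) ^ 52 ≤ R := by
    rw [hRdef]
    refine Real.le_sqrt_of_sq_le ?_
    refine le_trans (le_of_eq ?_) ht
    norm_num
  have hR : 1000000 ≤ R := le_trans (by norm_num) hRbig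
  have hR0 : 0 < R := by linarith
  have hRR : 1000000 * R ≤ R ^ 2 := by nlinarith
  have hRp : 0 < R ^ 2 := by positivity
  obtain ⟨a, ha⟩ : ∃ a : ℕ, a = ⌊78 * R / 100⌋₊ := ⟨_, rfl⟩
  have ha1 : (a : ℝ) ≤ 78 * R / 100 := by
    rw [ha]
    exact Nat.floor_le (by positivity)
  have ha2 : 78 * R / 100 < a + 1 := by
    rw [ha]
    exact Nat.lt_floor_add_one _
  obtain ⟨j0, hj⟩ : ∃ j0 : ℕ, j0 = 7 * a / 10 := ⟨_, rfl⟩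
  have hj1 : 10 * j0 ≤ 7 * a := by omega
  have hj2 : 7 * a ≤ 10 * j0 + 9 := by omega
  have ha3 : 1000 ≤ a := by
    have h1 : (1000 : ℝ) ≤ a := by linarith
    exact_mod_cast h1
  have hj1' : 10 * (j0 : ℝ) ≤ 7 * a := by exact_mod_cast hj1
  have ha0 : (0 : ℝ) ≤ a := Nat.cast_nonneg a
  have hj0' : (0 : ℝ) ≤ j0 := Nat.cast_nonneg j0
  have hsq1 : (78 * R / 100 - 1) ^ 2 ≤ (a : ℝ) ^ 2 :=
    pow_le_pow_left₀ (by linarith) (by linarith) 2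
  have hsq2 : (a : ℝ) ^ 2 ≤ (78 * R / 100) ^ 2 := pow_le_pow_left₀ ha0 ha1 2
  have hz0 : ((a ^ 2 + 2 * j0 : ℕ) : ℝ) = (a : ℝ) ^ 2 + 2 * j0 := by push_cast; ring
  have hz1 : 6 * R ^ 2 ≤ 10 * ((a ^ 2 + 2 * j0 : ℕ) : ℝ) := by
    rw [hz0]
    nlinarith
  have hz2 : 100 * ((a ^ 2 + 2 * j0 : ℕ) : ℝ) ≤ 62 * R ^ 2 := by
    rw [hz0]
    nlinarith
  obtain ⟨nb, q, h1, h2, h3, h4⟩ := params_cont R hR (a ^ 2 + 2 * j0) hz1 hz2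
  have hq0 : 0 < (q : ℝ) := by linarith
  have hqq : (q : ℝ) ^ 2 / R ^ 2 ≤ q - 1 := by
    rw [div_le_iff₀ hRp]
    have h5 : (q : ℝ) ^ 2 ≤ q * (R ^ 2 - R) := by
      rw [pow_two]
      exact mul_le_mul_of_nonneg_left h4 hq0.le
    have h6 : R ^ 2 ≤ q * R := by nlinarith
    nlinarith
  have hqt : (q : ℝ) ^ 2 / R ^ 2 ≤ R ^ 2 := by linarith
  have hql : R ^ 2 - 9 * R ≤ (q : ℝ) ^ 2 / R ^ 2 := by
    rw [le_div_iff₀ hRp]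
    have h5 : (R ^ 2 - 4 * R - 1) ^ 2 ≤ (q : ℝ) ^ 2 := pow_le_pow_left₀ (by linarith) h3 2
    have h6 : (R ^ 2 - 9 * R) * R ^ 2 ≤ (R ^ 2 - 4 * R - 1) ^ 2 := by
      have e : (R ^ 2 - 4 * R - 1) ^ 2 - (R ^ 2 - 9 * R) * R ^ 2 =
          R ^ 2 * (R + 14) + 8 * R + 1 := by ring
      have : 0 ≤ R ^ 2 * (R + 14) + 8 * R + 1 := by positivity
      linarith
    linarith
  rw [hR2] at h1 h2 hqq hqt hql hz1 hz2
  refine ⟨a, j0, nb, q, by omega, ?_, ?_, ?_, h1, h2, ?_, ?_, hz1, ?_, ?_, ?_⟩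
  · have h5 : ((2 ^ 100 : ℕ) : ℝ) ≤ ((a ^ 2 : ℕ) : ℝ) := by
      push_cast
      have h6 : (2 : ℝ) ^ 50 ≤ a := by
        have : (2 : ℝ) ^ 52 = 4 * 2 ^ 50 := by norm_num
        have h7 : (1 : ℝ) ≤ 2 ^ 50 := by norm_num
        linarith
      have h8 : (1267650600228229401496703205376 : ℝ) = ((2 : ℝ) ^ 50) ^ 2 := by norm_num
      rw [h8]
      exact pow_le_pow_left₀ (by positivity) h6 2
    exact_mod_cast h5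
  · nlinarith
  · nlinarith
  · have h5 : ((16 * (a ^ 2 + 2 * j0) : ℕ) : ℝ) ≤ ((10 * (a ^ 2 + 2 * j0 + 4 * nb) : ℕ) : ℝ) := by
      rw [Nat.cast_mul, Nat.cast_mul]
      push_cast at *
      nlinarith
    exact_mod_cast h5
  · have h5 : ((3 * (a ^ 2 + 2 * j0 + 4 * nb) : ℕ) : ℝ) ≤ ((5 * (a ^ 2 + 2 * j0) : ℕ) : ℝ) := by
      rw [Nat.cast_mul, Nat.cast_mul]
      push_cast at *
      linarith
    exact_mod_cast h5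
  · linarith
  · have h5 : ((a ^ 2 + 2 * j0 + 4 * nb : ℕ) : ℝ) < (q : ℝ) := by linarith
    exact_mod_cast h5
  · linarith

end Pool.Agent.Lib.MP_6b2d39_agHl
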