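import Pool.Agent.Lib.MP_6b2d39_agHl.SmallA

set_option autoImplicit false

namespace Pool.Agent.Lib.MP_6b2d39_agHl

open Pool.Agent.Lib.MP_6b2d39_agCr Pool.Agent.Lib.MP_6b2d39_agNw
  Pool.Agent.Lib.MP_6b2d39_agWin

private theorem smc_choose (a : ℕ) : 2 * (((a + 1).choose 2 : ℕ) : ℝ) = ((a : ℝ) + 1) * a := by
  have h := Nat.add_one_mul_choose_eq a 1
  rw [Nat.choose_one_right] at h
  have h2 : (((a + 1) * a : ℕ) : ℝ) = (((a + 1).choose (1 + 1) * (1 + 1) : ℕ) : ℝ) := by rw [h]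
  push_cast at h2
  linarith

private theorem smc_vd {n d m : ℕ} {μ : Fin n → ℕ} (hμ : ∀ i, μ i = m ∨ μ i = m + 1) :
    2 * ((vd d μ : ℤ) : ℝ) ≤ ((d : ℝ) + 2) * (d + 1) - n * (((m : ℝ) + 1) * m) := by
  have h1 : ((vd d μ : ℤ) : ℝ) = (((d + 1 + 1).choose 2 : ℕ) : ℝ) - ∑ i, (((μ i + 1).choose 2 : ℕ) : ℝ) := by
    unfold vd
    push_cast
    rfl
  have h2 : (n : ℝ) * (((m : ℝ) + 1) * m) ≤ ∑ i : Fin n, 2 * (((μ i + 1).choose 2 : ℕ) : ℝ) := by
    have h3 : ∑ i : Fin n, (((m : ℝ) + 1) * m) ≤ ∑ i : Fin n, 2 * (((μ i + 1).choose 2 : ℕ) : ℝ) := by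
      refine Finset.sum_le_sum fun i _ => ?_
      rw [smc_choose]
      have h4 : (m : ℝ) ≤ μ i := by
        have : m ≤ μ i := by rcases hμ i with h | h <;> omega
        exact_mod_cast this
      have h5 : (0 : ℝ) ≤ m := Nat.cast_nonneg _
      nlinarith
    rw [Finset.sum_const, Finset.card_univ, Fintype.card_fin, nsmul_eq_mul] at h3
    exact h3
  rw [← Finset.mul_sum] at h2
  have h6 := smc_choose (d + 1)
  push_cast at h6
  rw [h1]
  linarith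

private theorem smc_cast {n k k' : ℕ} (h : k = k') {P : Finset (ℕ × ℕ)} {μ : Fin n → ℕ}
    (hE : EmpQ P (Sum.elim μ (fun _ => 1) : Fin n ⊕ Fin k → ℕ) Finset.univ) :
    EmpQ P (Sum.elim μ (fun _ => 1) : Fin n ⊕ Fin k' → ℕ) Finset.univ := by
  subst h
  exact hE

/-- HL30. `m + 1 < √n`. `m = 0`: `emp_one`. `m ≥ 1`, `κ = m + 1`: if `√n m / 2 ≤ d`, then
`√z d ≥ 6 (m + 1) ^ 2` (`(m + 1) ^ 2 ≤ √n (m + 1) ≤ 2 √n m`, `z ≥ 2304`), `emp_window`
(`m + 1 ≤ d + 1`); otherwise `d < √n m / 2` and, with `N' = max (d + 1) (m + 1)`,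
`N' (N' + 1) / 2 + 3 (m + 1) ^ 2 ≤ n m (m + 1) / 2`: `emp_window` in degree `N' - 1` and
`emp_tri_mono` (`(vd d μ).toNat = 0`) -/
theorem small_case : ∃ N0 : ℕ, ∀ (n : ℕ) (z : ℝ), N0 ≤ n → (N0 : ℝ) ≤ z → z ≤ n →
    ∀ (d m : ℕ) (μ : Fin n → ℕ), (∀ i, μ i = m ∨ μ i = m + 1) → (m : ℝ) + 1 < √n →
    √z * d ≤ |((vd d μ : ℤ) : ℝ)| →
    EmpQ (dgm (tri (d + 1)) (d + 1))
      (Sum.elim μ (fun _ => 1) : Fin n ⊕ Fin (vd d μ).toNat → ℕ) Finset.univ := by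
  refine ⟨2304, fun n z hn hz hzn d m μ hμ hm hv => ?_⟩
  rcases Nat.eq_zero_or_pos m with hm0 | hm1
  · subst hm0
    exact emp_one fun i => by rcases hμ i with h | h <;> omega
  have hn' : (2304 : ℝ) ≤ n := by exact_mod_cast hn
  have hz' : (2304 : ℝ) ≤ z := by exact_mod_cast hz
  have hmr : (1 : ℝ) ≤ m := by exact_mod_cast hm1
  have hsn : √(n : ℝ) * √(n : ℝ) = n := Real.mul_self_sqrt (Nat.cast_nonneg _)
  have hs48 : (48 : ℝ) ≤ √(n : ℝ) := Real.le_sqrt_of_sq_le (by norm_num; linarith)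
  have hsz : (48 : ℝ) ≤ √z := Real.le_sqrt_of_sq_le (by norm_num; linarith)
  have hμκ : ∀ i, μ i ≤ m + 1 := fun i => by rcases hμ i with h | h <;> omega
  by_cases hd : √(n : ℝ) * m / 2 ≤ d
  · have hd0 : (0 : ℝ) ≤ d := Nat.cast_nonneg _
    have h1 : ((m : ℝ) + 1) * m ≤ √(n : ℝ) * m := mul_le_mul_of_nonneg_right hm.le (by linarith)
    have h2 : ((m : ℝ) + 1) * (m + 1) ≤ √(n : ℝ) * (m + 1) := mul_le_mul_of_nonneg_right hm.le (by linarith)
    have h3 : √(n : ℝ) * (m + 1) ≤ √(n : ℝ) * (2 * m) := mul_le_mul_of_nonneg_left (by linarith) (by linarith)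
    have h4 : 48 * (d : ℝ) ≤ √z * d := mul_le_mul_of_nonneg_right hsz hd0
    have h6 : 6 * ((m : ℝ) + 1) ^ 2 ≤ |((vd d μ : ℤ) : ℝ)| := by
      refine le_trans ?_ hv
      nlinarith
    have hmd : m ≤ d := by
      have : (m : ℝ) ≤ d := by nlinarith
      exact_mod_cast this
    refine emp_window (κ := m + 1) (by omega) (by omega) hμκ ?_
    rcases le_abs.1 h6 with h8 | h8
    · right
      have : 6 * ((m : ℤ) + 1) ^ 2 ≤ vd d μ := by exact_mod_cast h8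
      push_cast
      exact this
    · left
      have h9 : 6 * ((m : ℤ) + 1) ^ 2 ≤ -(vd d μ) := by exact_mod_cast h8
      push_cast
      have h10 : 0 ≤ ((m : ℤ) + 1) ^ 2 := by positivity
      linarith
  · rw [not_le] at hd
    obtain ⟨N, hN1, hN2, hN3⟩ : ∃ N : ℕ, d ≤ N ∧ m ≤ N ∧
        2 * ((vd N μ : ℤ) : ℝ) ≤ -(6 * ((m : ℝ) + 1) ^ 2) := by
      refine ⟨max d m, le_max_left _ _, le_max_right _ _, ?_⟩
      refine (smc_vd hμ).trans ?_
      have hmm : (m : ℝ) ≤ m * m := by nlinarith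
      have h12 : ((m : ℝ) + 1) ^ 2 ≤ 4 * (m * m) := by nlinarith
      have hnm : (m : ℝ) * m * 2304 ≤ n * (m * m) := by nlinarith [mul_nonneg (by linarith : (0:ℝ) ≤ m) (by linarith : (0:ℝ) ≤ m)]
      have hexp : (n : ℝ) * (((m : ℝ) + 1) * m) = n * (m * m) + n * m := by ring
      have hnm0 : (0 : ℝ) ≤ n * m := by positivity
      rcases le_total d m with h | h
      · rw [max_eq_right h, hexp]
        nlinarith
      · rw [max_eq_left h, hexp]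
        have hd0 : (0 : ℝ) ≤ d := Nat.cast_nonneg _
        have hsm : 0 ≤ √(n : ℝ) * m := by positivity
        have hq : (√(n : ℝ) * m) ^ 2 = n * (m * m) := by
          rw [mul_pow, sq, hsn, sq]
        have hd2 : ((d : ℝ) + 2) * (d + 1) ≤ (√(n : ℝ) * m / 2 + 2) * (√(n : ℝ) * m / 2 + 1) := by
          nlinarith
        have hsm2 : 48 * (√(n : ℝ) * m) ≤ (√(n : ℝ) * m) ^ 2 := by nlinarith
        have hone : 1 ≤ (m : ℝ) * m := by nlinarith
        nlinarith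
    have hvN : vd N μ ≤ -(3 * ((m + 1 : ℕ) : ℤ) ^ 2) := by
      have : ((vd N μ : ℤ) : ℝ) ≤ ((-(3 * ((m + 1 : ℕ) : ℤ) ^ 2) : ℤ) : ℝ) := by
        push_cast
        linarith
      exact_mod_cast this
    have hE := emp_window (κ := m + 1) (d := N) (by omega) (by omega) hμκ (Or.inl hvN)
    have hvle : vd d μ ≤ vd N μ := by
      unfold vd
      have : (d + 2).choose 2 ≤ (N + 2).choose 2 := Nat.choose_le_choose 2 (by omega)
      omega
    have h0 : 0 ≤ 3 * ((m + 1 : ℕ) : ℤ) ^ 2 := by positivity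
    refine smc_cast ?_ (emp_tri_mono (by omega : d + 1 ≤ N + 1) hE)
    omega

end Pool.Agent.Lib.MP_6b2d39_agHl
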