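import Mathlib

open Polynomial

set_option autoImplicit false

namespace Pool.Agent.Lib.MP_6b2d39_agHl

private theorem sparse_card {P : ℂ[X]} (h : P.coeff 0 ≠ 0) :
    (derivative P).support.card + 1 ≤ P.support.card := by
  have h0 : 0 ∈ P.support := mem_support_iff.2 h
  have h1 : (derivative P).support.card ≤ (P.support.erase 0).card := by
    refine Finset.card_le_card_of_injOn (fun n => n + 1) (fun n hn => ?_) fun a _ b _ hab => ?_
    · have h2 : (derivative P).coeff n ≠ 0 := mem_support_iff.1 hn
      rw [coeff_derivative] at h2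
      refine Finset.mem_coe.2 (Finset.mem_erase.2 ⟨Nat.succ_ne_zero n, mem_support_iff.2 ?_⟩)
      exact left_ne_zero_of_mul h2
    · exact Nat.succ_injective hab
  rw [Finset.card_erase_of_mem h0] at h1
  have h2 : 0 < P.support.card := Finset.card_pos.2 ⟨0, h0⟩
  omega

/-- HL1. A polynomial with at most `b` terms divisible by `(X - 1) ^ b` is zero.
Proof: induction on `b`. If `P ≠ 0`, write `P = X ^ k * Q` with `Q.coeff 0 ≠ 0`
(`exists_eq_pow_rootMultiplicity_mul_and_not_dvd` or `divX` / `natTrailingDegree`); `Q` has as many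
terms as `P`, `(X - 1) ^ b ∣ Q` (coprime to `X`), `b ≥ 1`; `derivative Q` has at most `b - 1` terms
(the constant term disappears) and is divisible by `(X - 1) ^ (b - 1)`, hence zero, so `Q` is a
constant divisible by `X - 1`. -/
theorem sparse_zero {P : ℂ[X]} {b : ℕ} (hc : P.support.card ≤ b) (h : (X - 1) ^ b ∣ P) :
    P = 0 := by
  induction b generalizing P with
  | zero => exact support_eq_empty.1 (Finset.card_eq_zero.1 (Nat.le_zero.1 hc))
  | succ b ih =>
    by_contra hP
    obtain ⟨Q, hQ, hX⟩ := exists_eq_pow_rootMultiplicity_mul_and_not_dvd P hP 0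
    rw [C_0, sub_zero] at hQ hX
    set k := rootMultiplicity 0 P
    have hQ0 : Q.coeff 0 ≠ 0 := fun h1 => hX (X_dvd_iff.2 h1)
    have hcard : Q.support.card ≤ P.support.card := by
      refine Finset.card_le_card_of_injOn (fun n => n + k) (fun n hn => ?_) fun a _ b _ hab => ?_
      · refine Finset.mem_coe.2 (mem_support_iff.2 ?_)
        rw [hQ, coeff_X_pow_mul]
        exact mem_support_iff.1 hn
      · exact Nat.add_right_cancel hab
    have hcop : IsCoprime ((X - 1 : ℂ[X]) ^ (b + 1)) (X ^ k) := by
      refine IsCoprime.pow ⟨-1, 1, ?_⟩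
      ring
    have hd : (X - 1) ^ (b + 1) ∣ Q := by
      rw [hQ] at h
      exact hcop.dvd_of_dvd_mul_left h
    have hd' : (X - 1) ^ b ∣ derivative Q := by
      obtain ⟨R, rfl⟩ := hd
      rw [derivative_mul, derivative_pow]
      refine dvd_add ?_ ?_
      · refine Dvd.dvd.mul_right ?_ R
        refine Dvd.dvd.mul_right ?_ _
        exact Dvd.intro_left _ rfl
      · exact Dvd.dvd.mul_right (pow_dvd_pow _ (Nat.le_succ b)) _
    have h0 : derivative Q = 0 := by
      refine ih ?_ hd'
      have := sparse_card hQ0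
      omega
    have h1 : Q = C (Q.coeff 0) :=
      eq_C_of_natDegree_eq_zero (derivative_eq_zero.1 h0)
    have h2 : eval 1 Q = 0 := by
      obtain ⟨R, hR⟩ := hd
      rw [hR, eval_mul, eval_pow, eval_sub, eval_X, eval_one, sub_self, pow_succ, mul_zero,
        zero_mul]
    rw [h1, eval_C] at h2
    exact hQ0 h2

end Pool.Agent.Lib.MP_6b2d39_agHl
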