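import Pool.Agent.Lib.MP_6b2d39_agHl.ParamsR
import Pool.Agent.Lib.MP_6b2d39_agHl.RangeR
import Pool.Agent.Lib.MP_ed661f_ag.H.Num

set_option autoImplicit false

namespace Pool.Agent.Lib.MP_6b2d39_agHl

open Pool.Agent.Lib.MP_ed661f_ag.G Pool.Agent.Lib.MP_ed661f_ag.H

/-- HL23. As `chain_of_subset` (`Lib/MP_ed661f_ag/X/ChainSub.lean`) with the target `q / √t` instead
of `(n - j) / √n` (`paramsR`, `target_rangeR` with `Y = q ^ 2 / t`, `word_rchD` for `dl = 1`,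
`n8_log_prod`; last step `q`) -/
theorem chain_of_subsetR : ∃ T0 : ℝ, ∀ t : ℝ, T0 ≤ t →
    ∃ (z0 nb : ℕ) (τ : ℝ), 6 * t ≤ 10 * (z0 : ℝ) ∧ 16 * z0 ≤ 10 * (z0 + 4 * nb) ∧
      3 * (z0 + 4 * nb) ≤ 5 * z0 ∧ 1 / 40 / (z0 : ℝ) ≤ τ ∧
      τ ≤ ∑ b ∈ Finset.range nb, gz (z0 + 4 * b) - 1 / 40 / (z0 : ℝ) ∧
      ∀ U ⊆ Finset.range nb, ∀ η : ℝ, 0 ≤ η → ∑ b ∈ U, gz (z0 + 4 * b) ≤ τ →
        τ - η ≤ ∑ b ∈ U, gz (z0 + 4 * b) →
        ∃ (s : ℕ) (x : ℝ), RchD 1 s x ∧ √t ≤ x ∧ x ≤ √t * Real.exp η := by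
  obtain ⟨T0, hT0⟩ := paramsR
  refine ⟨max T0 1, fun t ht => ?_⟩
  have htpos : (0 : ℝ) < t := lt_of_lt_of_le one_pos ((le_max_right _ _).trans ht)
  obtain ⟨a, j0, nb, q, q2, qA, q3, q4, q5, q6, q7, q8, q9, -, q10, q11⟩ :=
    hT0 t ((le_max_left _ _).trans ht)
  obtain ⟨dl, hdle⟩ : ∃ dl : ℕ, dl = 1 := ⟨1, rfl⟩
  obtain ⟨A, hA⟩ : ∃ A, A = a ^ 2 := ⟨_, rfl⟩
  rw [← hA] at qA q3 q4 q5 q6 q7 q8 q9 q10
  obtain ⟨z0, hz0⟩ : ∃ z0, z0 = A + 2 * j0 := ⟨_, rfl⟩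
  rw [← hz0] at q5 q6 q7 q8 q9 q10
  have hApos : 0 < A := lt_of_lt_of_le (by positivity) qA
  have hj0 : 1 ≤ j0 := by
    rcases Nat.eq_zero_or_pos j0 with h | h
    · rw [h] at q3
      norm_num at q3
      omega
    · exact h
  have hz100 : 2 ^ 100 ≤ z0 := by omega
  -- the start
  have hAR : (0 : ℝ) < A := by exact_mod_cast hApos
  have hdlR : (0 : ℝ) < dl := by
    rw [hdle]
    norm_num
  have haR : (0 : ℝ) < a := by
    have : 0 < a := by omega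
    exact_mod_cast this
  have hsdl : 0 < √(dl : ℝ) := Real.sqrt_pos.2 hdlR
  have hsq0 : ((a : ℝ) * √(dl : ℝ)) ^ 2 = A := by
    rw [mul_pow, Real.sq_sqrt hdlR.le, hA, hdle]
    push_cast
    ring
  obtain ⟨x0, hx0⟩ : ∃ x0 : ℝ, x0 = ((A + j0 : ℕ) : ℝ) / (a * √(dl : ℝ)) := ⟨_, rfl⟩
  have R1 : RchD dl (A + j0) x0 := by
    rw [hx0]
    apply RchD.step (A + j0) (RchD.start a q2)
    · have : a * dl ≤ A := by
        rw [hA, hdle]
        calc a * 1 = a * 1 := rfl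
          _ ≤ a * a := Nat.mul_le_mul_left _ (by omega)
          _ = a ^ 2 := by ring
      omega
    · rw [hsq0]
      have : (1 : ℝ) ≤ j0 := by exact_mod_cast hj0
      push_cast
      linarith
  have hx0pos : 0 < x0 := by
    rw [hx0]
    have : (0 : ℝ) < ((A + j0 : ℕ) : ℝ) := by
      have : 0 < A + j0 := by omega
      exact_mod_cast this
    positivity
  have hsq : x0 ^ 2 * A = ((A : ℝ) + j0) ^ 2 := by
    rw [hx0, div_pow, hsq0]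
    push_cast
    field_simp
  have q3' : 45 * (A : ℝ) ≤ 100 * (j0 : ℝ) ^ 2 := by exact_mod_cast q3
  have q4' : 100 * (j0 : ℝ) ^ 2 ≤ 55 * (A : ℝ) := by exact_mod_cast q4
  have hz0R : (z0 : ℝ) = A + 2 * j0 := by rw [hz0]; push_cast; ring
  have hy1 : (z0 : ℝ) + 45 / 100 ≤ x0 ^ 2 := by
    rw [← mul_le_mul_iff_left₀ hAR, hsq, hz0R]
    nlinarith
  have hy2 : x0 ^ 2 ≤ (z0 : ℝ) + 55 / 100 := by
    rw [← mul_le_mul_iff_left₀ hAR, hsq, hz0R]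
    nlinarith
  -- the target
  have hqpos : (0 : ℝ) < q := by
    have : 0 < q := by omega
    exact_mod_cast this
  have hsn : 0 < √t := Real.sqrt_pos.2 htpos
  have hYpos : (0 : ℝ) < (q : ℝ) ^ 2 / t := by positivity
  have htgt : 0 < (q : ℝ) / √t := div_pos hqpos hsn
  have hlogY : Real.log ((q : ℝ) ^ 2 / t) / 2 = Real.log ((q : ℝ) / √t) := by
    have h1 : (q : ℝ) ^ 2 / t = ((q : ℝ) / √t) ^ 2 := by
      rw [div_pow, Real.sq_sqrt htpos.le]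
    rw [h1, Real.log_pow]
    push_cast
    ring
  obtain ⟨τ, hτ⟩ : ∃ τ : ℝ, τ = Real.log ((q : ℝ) ^ 2 / t) / 2 - Real.log x0 -
      ∑ b ∈ Finset.range nb, Real.log (((z0 : ℝ) + 4 * b + 4) / (z0 + 4 * b + 2)) := ⟨_, rfl⟩
  have hz6' : 1000000 ≤ z0 := le_trans (by norm_num) hz100
  have hY1 : (z0 : ℝ) + 4 * nb + 45 / 100 ≤ (q : ℝ) ^ 2 / t := by
    have h1 := q5
    push_cast at h1
    exact h1
  have hY2 : (q : ℝ) ^ 2 / t ≤ (z0 : ℝ) + 4 * nb + 55 / 100 := by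
    have h1 := q6
    push_cast at h1
    exact h1
  obtain ⟨tr1, tr2⟩ := target_rangeR nb z0 x0 ((q : ℝ) ^ 2 / t) hz6' hx0pos hy1 hy2 hY1 hY2 q7 q8
    τ hτ
  refine ⟨z0, nb, τ, q9, q7, q8, tr1, tr2, ?_⟩
  intro E hE η hη hE1 hE2
  -- the word
  obtain ⟨σ', R2, hσ'⟩ := word_rchD R1 hx0pos z0 nb (by omega) (by omega) hy1 hy2 q8 E
  set x := x0 *
    ∏ b ∈ Finset.range nb, (if b ∈ E then ((z0 : ℝ) + 4 * b + 3) / (z0 + 4 * b + 1)
        else ((z0 : ℝ) + 4 * b + 4) / (z0 + 4 * b + 2)) with hx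
  have hPpos : 0 < ∏ b ∈ Finset.range nb, (if b ∈ E then ((z0 : ℝ) + 4 * b + 3) / (z0 + 4 * b + 1)
        else ((z0 : ℝ) + 4 * b + 4) / (z0 + 4 * b + 2)) := by
    apply Finset.prod_pos
    intro b _
    split_ifs <;> positivity
  have hxpos : 0 < x := mul_pos hx0pos hPpos
  have hlogx : Real.log x = Real.log x0 +
      (∑ b ∈ Finset.range nb, Real.log (((z0 : ℝ) + 4 * b + 4) / (z0 + 4 * b + 2)) +
        ∑ b ∈ E, gz (z0 + 4 * b)) := by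
    rw [hx, Real.log_mul hx0pos.ne' hPpos.ne', n8_log_prod nb E hE z0]
  rw [hlogY] at hτ
  have hup : Real.log x ≤ Real.log ((q : ℝ) / √t) := by
    rw [hlogx]
    linarith
  have hdn : Real.log ((q : ℝ) / √t) - η ≤ Real.log x := by
    rw [hlogx]
    linarith
  have hxle : x ≤ (q : ℝ) / √t := (Real.log_le_log_iff hxpos htgt).1 hup
  have hxge : (q : ℝ) / √t ≤ x * Real.exp η := by
    rw [← Real.log_le_log_iff htgt (by positivity), Real.log_mul hxpos.ne' (Real.exp_pos _).ne',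
      Real.log_exp]
    linarith
  -- the last step
  have hlast : x ^ 2 + 1 / 100 ≤ (q : ℝ) := by
    have h1 : x ^ 2 ≤ ((q : ℝ) / √t) ^ 2 := pow_le_pow_left₀ hxpos.le hxle 2
    rw [div_pow, Real.sq_sqrt htpos.le] at h1
    linarith
  have R3 : RchD dl q ((q : ℝ) / x) := RchD.step q R2 (by omega) hlast
  rw [hdle] at R3
  refine ⟨q, _, R3, ?_, ?_⟩
  · rw [le_div_iff₀ hxpos]
    rw [le_div_iff₀ hsn] at hxle
    linarith
  · rw [div_le_iff₀ hxpos]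
    rw [div_le_iff₀ hsn] at hxge
    calc (q : ℝ) ≤ x * Real.exp η * √t := hxge
      _ = √t * Real.exp η * x := by ring

end Pool.Agent.Lib.MP_6b2d39_agHl
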