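import Pool.Agent.Lib.MP_6b2d39_agHl.Rows
import Pool.Agent.Lib.MP_6b2d39_agHl.RowsB
import Pool.Agent.Lib.MP_6b2d39_agHl.Count
import Pool.Agent.Lib.MP_6b2d39_agHl.FSharp

set_option autoImplicit false

namespace Pool.Agent.Lib.MP_6b2d39_agHl

variable {n s : ℕ} {r : ℕ → ℕ} {x x' A L : ℝ}

private theorem x'_pos (hx : 0 < x) (hs : x * x' = s) (hle : x ^ 2 ≤ s) : 0 < x' := by
  have h1 : 0 < x * x' := by
    rw [hs]
    exact lt_of_lt_of_le (by positivity) hle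
  exact (pos_iff_pos_of_mul_pos h1).1 hx

private theorem ratio (hx : 0 < x) (hs : x * x' = s) : (s : ℝ) / x ^ 2 = x' / x := by
  rw [← hs, pow_two, mul_div_mul_left _ _ hx.ne']

private theorem ratio_mul (hx : 0 < x) (hs : x * x' = s) (b : ℝ) :
    x' / x * (s * b) = x' ^ 2 * b := by
  rw [← hs]
  field_simp

private theorem mul_max' (hx : 0 < x) (hx' : 0 < x') (hs : x * x' = s) (B b : ℝ) :
    x' / x * max (B - s * b) 0 = max (x' / x * B - x' ^ 2 * b) 0 := by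
  have h0 : 0 ≤ x' / x := by positivity
  rw [mul_max_of_nonneg _ _ h0, mul_zero, mul_sub, ratio_mul hx hs]

/-- STEP A, lower bound, sharp (`row_lo`, `le_ff_sharp`) -/
theorem stepA_lo (hx : 0 < x) (hs : x * x' = s) (hle : x ^ 2 ≤ s) (h0 : ∀ b, n ≤ b → r b = 0)
    (h : ∀ b, L - x ^ 2 * b ≤ (r b : ℝ)) (b : ℕ) :
    x' / x * (L - (s - x ^ 2) / 2) - x ^ 2 / 8 - x' ^ 2 * b ≤ stp s n r b := by
  have hP : 0 < x ^ 2 := by positivity
  have h1 := row_lo (s := s) hP hle h0 h b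
  have h2 := le_ff_sharp (s := (s : ℝ)) (T := L - s * b) hP hle
  rw [ratio hx hs] at h2
  have h3 := ratio_mul hx hs (b : ℝ)
  have h4 : x' / x * (L - s * b - (s - x ^ 2) / 2) =
      x' / x * (L - (s - x ^ 2) / 2) - x' / x * (s * b) := by ring
  rw [h4, h3] at h2
  linarith

/-- STEPS B and C, lower bound, crude (`row_lo`, `le_ff`) -/
theorem step_lo (hx : 0 < x) (hs : x * x' = s) (hle : x ^ 2 ≤ s) (h0 : ∀ b, n ≤ b → r b = 0)
    (h : ∀ b, L - x ^ 2 * b ≤ (r b : ℝ)) (b : ℕ) :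
    x' / x * (L - (s - x ^ 2)) - x' ^ 2 * b ≤ stp s n r b := by
  have hP : 0 < x ^ 2 := by positivity
  have h1 := row_lo (s := s) hP hle h0 h b
  have h2 := le_ff (s := (s : ℝ)) (T := L - s * b) hP hle
  rw [ratio hx hs] at h2
  have h3 := ratio_mul hx hs (b : ℝ)
  have h4 : x' / x * (L - s * b - (s - x ^ 2)) =
      x' / x * (L - (s - x ^ 2)) - x' / x * (s * b) := by ring
  rw [h4, h3] at h2
  linarith

/-- STEP B, upper bound: the irregular row `R` becomes an irregular row `0`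
(`row_up_ne`, `row_up_ne_zero`, `ff_le`) -/
theorem stepB_up (hx : 0 < x) (hs : x * x' = s) (hle : x ^ 2 ≤ s) {R : ℕ} (hR : r R ≤ s)
    (h : ∀ b, b ≠ R → (r b : ℝ) ≤ max (A - x ^ 2 * b) 0) :
    (∀ b, 1 ≤ b → (stp s n r b : ℝ) ≤ max (x' / x * A - x' ^ 2 * b) 0) ∧
      (stp s n r 0 : ℝ) ≤ max (x' / x * A) 0 + r R := by
  have hP : 0 < x ^ 2 := by positivity
  have hx' := x'_pos hx hs hle
  refine ⟨fun b hb => ?_, ?_⟩
  · refine (row_up_ne hP hle hR h hb).trans ?_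
    refine (ff_le hP hle).trans (le_of_eq ?_)
    rw [ratio hx hs, mul_max' hx hx' hs]
  · refine (row_up_ne_zero hP hle h).trans ?_
    gcongr
    refine (ff_le hP hle).trans (le_of_eq ?_)
    have h0 : 0 ≤ x' / x := by positivity
    rw [ratio hx hs, mul_max_of_nonneg _ _ h0, mul_zero]

/-- STEP C, upper bound (`row_up_pos`, `row_up_zero`, `ff_le`) -/
theorem stepC_up (hx : 0 < x) (hs : x * x' = s) (hle : x ^ 2 ≤ s)
    (h : ∀ b, 1 ≤ b → (r b : ℝ) ≤ max (A - x ^ 2 * b) 0) :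
    (∀ b, 1 ≤ b → (stp s n r b : ℝ) ≤ max (x' / x * (A + (s - x ^ 2)) - x' ^ 2 * b) 0) ∧
      (stp s n r 0 : ℝ) ≤ max (r 0 : ℝ) (x' / x * max A 0) := by
  have hP : 0 < x ^ 2 := by positivity
  have hx' := x'_pos hx hs hle
  refine ⟨fun b hb => ?_, ?_⟩
  · refine (row_up_pos hP hle h hb).trans ?_
    refine (ff_le hP hle).trans (le_of_eq ?_)
    rw [ratio hx hs, mul_max' hx hx' hs]
  · refine (row_up_zero hP hle h).trans (le_of_eq ?_)
    rw [ratio hx hs]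

end Pool.Agent.Lib.MP_6b2d39_agHl
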